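import Pool.Agent.H25.RG3.Defs

set_option autoImplicit false

/-! # Cores, cycles and girth -/

namespace Pool.Agent.H25.RG3

/-- the edges of a cycle form a core -/
theorem core_of_cycle {V : Type*} [DecidableEq V] {G : SimpleGraph V} {v : V} {p : G.Walk v v}
    (hp : p.IsCycle) : Core p.edges.toFinset p.length := by
  refine ⟨p.edges.toFinset, Finset.Subset.refl _, ?_, ?_, ?_⟩
  · have h3 := hp.three_le_length
    rw [← Finset.card_pos, List.toFinset_card_of_nodup hp.isTrail.edges_nodup,
      SimpleGraph.Walk.length_edges]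
    omega
  · rw [List.toFinset_card_of_nodup hp.isTrail.edges_nodup, SimpleGraph.Walk.length_edges]
  · intro u h1
    rw [Finset.card_eq_one] at h1
    obtain ⟨e, he⟩ := h1
    have hmem : e ∈ p.edges.toFinset.filter (fun e => u ∈ e) := by
      rw [he]
      exact Finset.mem_singleton_self _
    rw [Finset.mem_filter, List.mem_toFinset] at hmem
    obtain ⟨hm, w, rfl⟩ := hmem
    have hu : u ∈ p.support := p.fst_mem_support_of_mem_edges hm
    have h2 := hp.ncard_neighborSet_toSubgraph_eq_two hu
    rw [Set.ncard_eq_two] at h2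
    obtain ⟨x, y, hxy, hs⟩ := h2
    have key : ∀ z, z ∈ p.toSubgraph.neighborSet u → z = w := by
      intro z hz
      rw [SimpleGraph.Subgraph.mem_neighborSet,
        SimpleGraph.Walk.adj_toSubgraph_iff_mem_edges] at hz
      have e1 : s(u, z) ∈ ({s(u, w)} : Finset (Sym2 V)) := by
        rw [← he, Finset.mem_filter, List.mem_toFinset]
        exact ⟨hz, Sym2.mem_mk_left _ _⟩
      rw [Finset.mem_singleton] at e1
      exact Sym2.congr_right.mp e1
    have hx := key x (by rw [hs]; simp)
    have hy := key y (by rw [hs]; simp)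
    exact hxy (hx.trans hy.symm)

/-- a core contains a cycle -/
theorem cycle_of_core {V : Type*} [DecidableEq V] {G : SimpleGraph V} {C : Finset (Sym2 V)}
    (hC : ∀ e ∈ C, e ∈ G.edgeSet) (hne : C.Nonempty)
    (hdeg : ∀ v : V, (C.filter (fun e => v ∈ e)).card ≠ 1) :
    ∃ (v : V) (p : G.Walk v v), p.IsCycle ∧ ∀ e ∈ p.edges, e ∈ C := by
  set H : SimpleGraph V := SimpleGraph.fromEdgeSet (C : Set (Sym2 V)) with hH
  have hadj : ∀ a b, H.Adj a b ↔ s(a, b) ∈ C := by
    intro a b
    rw [hH, SimpleGraph.fromEdgeSet_adj, Finset.mem_coe]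
    refine ⟨fun h => h.1, fun h => ⟨h, ?_⟩⟩
    have := hC _ h
    rw [SimpleGraph.mem_edgeSet] at this
    exact this.ne
  have hle : H ≤ G := by
    intro a b h
    exact hC _ ((hadj a b).mp h)
  have : Finite H.edgeSet := by
    refine Set.Finite.subset C.finite_toSet ?_
    intro e he
    induction e with
    | _ a b => exact (hadj a b).mp he
  obtain ⟨e0, he0⟩ := hne
  induction e0 with
  | _ a0 b0 =>
    have : Nonempty V := ⟨a0⟩
    obtain ⟨u, v, p, hp, hmax⟩ := SimpleGraph.Walk.exists_isPath_forall_isPath_length_le_length H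
    have h0 : H.Adj a0 b0 := (hadj a0 b0).mpr he0
    have hlen : 1 ≤ p.length := by
      have := hmax a0 b0 (SimpleGraph.Walk.cons h0 SimpleGraph.Walk.nil) (by
        rw [SimpleGraph.Walk.cons_isPath_iff]
        exact ⟨SimpleGraph.Walk.IsPath.nil, by simpa using h0.ne⟩)
      simpa using this
    have hnil : ¬ p.Nil := by
      intro h
      rw [← SimpleGraph.Walk.length_eq_zero_iff] at h
      omega
    have hsnd : s(u, p.snd) ∈ C := (hadj _ _).mp (p.adj_snd hnil)
    -- a second edge at u
    have hex : ∃ y, s(u, y) ∈ C ∧ y ≠ p.snd := by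
      by_contra hcon
      push Not at hcon
      apply hdeg u
      rw [Finset.card_eq_one]
      refine ⟨s(u, p.snd), ?_⟩
      ext e
      rw [Finset.mem_filter, Finset.mem_singleton]
      constructor
      · rintro ⟨h1, w, rfl⟩
        rw [hcon w h1]
      · rintro rfl
        exact ⟨hsnd, Sym2.mem_mk_left _ _⟩
    obtain ⟨y, hy, hyne⟩ := hex
    have hya : H.Adj y u := ((hadj u y).mpr hy).symm
    have hys : y ∈ p.support := by
      by_contra hcon
      have := hmax y v (SimpleGraph.Walk.cons hya p) (by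
        rw [SimpleGraph.Walk.cons_isPath_iff]
        exact ⟨hp, hcon⟩)
      rw [SimpleGraph.Walk.length_cons] at this
      omega
    set q : H.Walk u y := p.takeUntil y hys with hq
    have hqp : q.IsPath := hp.takeUntil hys
    have hqe : s(y, u) ∉ q.edges := by
      intro h
      apply hyne
      have h1 : s(u, y) ∈ p.edges := by
        rw [Sym2.eq_swap]
        exact p.edges_takeUntil_subset_edges hys h
      exact hp.eq_snd_of_mem_edges h1
    have hcyc : (SimpleGraph.Walk.cons hya q).IsCycle :=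
      (SimpleGraph.Walk.cons_isCycle_iff q hya).mpr ⟨hqp, hqe⟩
    refine ⟨y, (SimpleGraph.Walk.cons hya q).mapLe hle, ?_, ?_⟩
    · exact hcyc.mapLe hle
    · intro e he
      have he2 : e ∈ (SimpleGraph.Walk.cons hya q).edges := by
        simpa [SimpleGraph.Walk.mapLe, SimpleGraph.Walk.edges_map] using he
      have he3 := (SimpleGraph.Walk.cons hya q).edges_subset_edgeSet he2
      induction e with
      | _ a b => exact (hadj a b).mp he3

theorem egirth_le_iff_core {V : Type*} [DecidableEq V] (G : SimpleGraph V) [Fintype G.edgeSet]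
    (L : ℕ) : G.egirth ≤ L ↔ Core G.edgeFinset L := by
  constructor
  · intro h
    have hna : ¬ G.IsAcyclic := by
      rw [← SimpleGraph.egirth_eq_top]
      intro h2
      rw [h2] at h
      exact absurd h (by simp)
    obtain ⟨v, p, hp, hl⟩ := SimpleGraph.exists_egirth_eq_length.mpr hna
    rw [hl] at h
    have h' : p.length ≤ L := by exact_mod_cast h
    refine (core_of_cycle hp).mono ?_ h'
    intro e he
    rw [List.mem_toFinset] at he
    rw [SimpleGraph.mem_edgeFinset]
    exact p.edges_subset_edgeSet he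
  · rintro ⟨C, hCE, hne, hcard, hdeg⟩
    obtain ⟨v, p, hp, hpe⟩ := cycle_of_core (G := G) (C := C) (by
      intro e he
      exact SimpleGraph.mem_edgeFinset.mp (hCE he)) hne hdeg
    have h1 : p.length ≤ C.card := by
      rw [← SimpleGraph.Walk.length_edges, ← List.toFinset_card_of_nodup hp.isTrail.edges_nodup]
      apply Finset.card_le_card
      intro e he
      exact hpe e (List.mem_toFinset.mp he)
    refine (SimpleGraph.egirth_le_length hp).trans ?_
    exact_mod_cast h1.trans hcard

/-- a core is transported by an injection -/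
theorem core_of_image {V V' : Type*} [DecidableEq V] [DecidableEq V'] {f : V → V'}
    (hf : Function.Injective f) {E : Finset (Sym2 V)} {E' : Finset (Sym2 V')} {L : ℕ}
    (hE : E' ⊆ E.image (Sym2.map f)) (h : Core E' L) : Core E L := by
  obtain ⟨C, hCE, hne, hcard, hdeg⟩ := h
  obtain ⟨D, hDE, rfl⟩ := Finset.subset_image_iff.mp (hCE.trans hE)
  have hinj : Function.Injective (Sym2.map f) := Sym2.map.injective hf
  refine ⟨D, by exact_mod_cast hDE, ?_, ?_, ?_⟩
  · exact Finset.image_nonempty.mp hne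
  · rwa [Finset.card_image_of_injective _ hinj] at hcard
  · intro v
    have h1 := hdeg (f v)
    have h2 : (D.image (Sym2.map f)).filter (fun e => f v ∈ e)
        = (D.filter (fun e => v ∈ e)).image (Sym2.map f) := by
      ext e
      simp only [Finset.mem_filter, Finset.mem_image]
      constructor
      · rintro ⟨⟨d, hd, rfl⟩, hv⟩
        refine ⟨d, ⟨hd, ?_⟩, rfl⟩
        rw [Sym2.mem_map] at hv
        obtain ⟨w, hw, hwv⟩ := hv
        rwa [← hf hwv]
      · rintro ⟨d, ⟨hd, hv⟩, rfl⟩
        refine ⟨⟨d, hd, rfl⟩, ?_⟩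
        rw [Sym2.mem_map]
        exact ⟨v, hv, rfl⟩
    rwa [h2, Finset.card_image_of_injective _ hinj] at h1

/-- `H.egirth ≤ H'.egirth` from cores -/
theorem egirth_le_of_core {V V' : Type*} [DecidableEq V] [DecidableEq V'] (H : SimpleGraph V)
    (H' : SimpleGraph V') [Fintype H.edgeSet] [Fintype H'.edgeSet]
    (h : ∀ L, Core H'.edgeFinset L → Core H.edgeFinset L) : H.egirth ≤ H'.egirth := by
  by_cases ht : H'.egirth = ⊤
  · rw [ht]
    exact le_top
  · obtain ⟨n, hn⟩ := ENat.ne_top_iff_exists.mp ht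
    rw [← hn]
    rw [egirth_le_iff_core]
    apply h
    rw [← egirth_le_iff_core, hn]

/-- add one pendant vertex -/
theorem exists_pendant {N m : ℕ} (hN : 1 ≤ N) (H : SimpleGraph (Fin N))
    (hH : H.edgeSet.ncard = m) :
    ∃ H' : SimpleGraph (Fin (N + 1)), H'.edgeSet.ncard = m + 1 ∧ H.egirth ≤ H'.egirth := by
  classical
  set z : Fin (N + 1) := Fin.castSucc ⟨0, by omega⟩ with hz
  set l : Fin (N + 1) := Fin.last N with hl
  have hzl : z ≠ l := by
    rw [hz, hl]
    exact (Fin.castSucc_lt_last _).ne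
  have hfinj : Function.Injective (Fin.castSucc : Fin N → Fin (N + 1)) :=
    Fin.castSucc_injective N
  have hinj : Function.Injective (Sym2.map (Fin.castSucc : Fin N → Fin (N + 1))) :=
    Sym2.map.injective hfinj
  set A : Finset (Sym2 (Fin (N + 1))) := H.edgeFinset.image (Sym2.map Fin.castSucc) with hA
  have hlA : ∀ e ∈ A, l ∉ e := by
    intro e he hle
    rw [hA, Finset.mem_image] at he
    obtain ⟨d, -, rfl⟩ := he
    rw [Sym2.mem_map] at hle
    obtain ⟨w, -, hw⟩ := hle
    exact (Fin.castSucc_lt_last w).ne hw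
  have hnd : ∀ e ∈ insert s(z, l) A, ¬ e.IsDiag := by
    intro e he
    rw [Finset.mem_insert] at he
    rcases he with rfl | he
    · rw [Sym2.mk_isDiag_iff]
      exact hzl
    · rw [hA, Finset.mem_image] at he
      obtain ⟨d, hd, rfl⟩ := he
      rw [Sym2.isDiag_map hfinj]
      exact H.not_isDiag_of_mem_edgeSet (SimpleGraph.mem_edgeFinset.mp hd)
  set H' : SimpleGraph (Fin (N + 1)) :=
    SimpleGraph.fromEdgeSet ((insert s(z, l) A : Finset (Sym2 (Fin (N + 1)))) :
      Set (Sym2 (Fin (N + 1)))) with hH'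
  have hedge : H'.edgeSet = ((insert s(z, l) A : Finset (Sym2 (Fin (N + 1)))) :
      Set (Sym2 (Fin (N + 1)))) := by
    rw [hH', SimpleGraph.edgeSet_fromEdgeSet]
    ext e
    rw [Set.mem_sdiff]
    exact ⟨fun h => h.1, fun h => ⟨h, hnd e (Finset.mem_coe.mp h)⟩⟩
  have hef : H'.edgeFinset = insert s(z, l) A := by
    rw [← Finset.coe_inj, SimpleGraph.coe_edgeFinset, hedge]
  have hzA : s(z, l) ∉ A := fun h => hlA _ h (Sym2.mem_mk_right _ _)
  refine ⟨H', ?_, ?_⟩
  · rw [hedge, Set.ncard_coe_finset, Finset.card_insert_of_notMem hzA, hA,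
      Finset.card_image_of_injective _ hinj, ← Set.ncard_coe_finset, SimpleGraph.coe_edgeFinset,
      hH]
  · apply egirth_le_of_core
    intro L hL
    rw [hef] at hL
    obtain ⟨C, hCE, hne, hcard, hdeg⟩ := hL
    have hzC : s(z, l) ∉ C := by
      intro hmem
      apply hdeg l
      rw [Finset.card_eq_one]
      refine ⟨s(z, l), ?_⟩
      ext e
      rw [Finset.mem_filter, Finset.mem_singleton]
      constructor
      · rintro ⟨h1, h2⟩
        rcases Finset.mem_insert.mp (hCE h1) with h3 | h3
        · exact h3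
        · exact absurd h2 (hlA e h3)
      · rintro rfl
        exact ⟨hmem, Sym2.mem_mk_right _ _⟩
    refine core_of_image (f := Fin.castSucc) (E' := A) hfinj (Finset.Subset.refl _) ?_
    refine ⟨C, ?_, hne, hcard, hdeg⟩
    intro e he
    rcases Finset.mem_insert.mp (hCE he) with h3 | h3
    · rw [h3] at he
      exact absurd he hzC
    · exact h3

/-- `g(N,k) ≤ g(M,k)` for `N ≤ M` -/
theorem exists_mono {N M k : ℕ} (hN : 1 ≤ N) (hNM : N ≤ M) (H : SimpleGraph (Fin N))
    (hH : H.edgeSet.ncard = N + k) :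
    ∃ H' : SimpleGraph (Fin M), H'.edgeSet.ncard = M + k ∧ H.egirth ≤ H'.egirth := by
  induction M, hNM using Nat.le_induction with
  | base => exact ⟨H, hH, le_refl _⟩
  | succ M hM ih =>
    obtain ⟨H1, h1, h2⟩ := ih
    obtain ⟨H2, h3, h4⟩ := exists_pendant (hN.trans hM) H1 h1
    exact ⟨H2, by rw [h3]; omega, h2.trans h4⟩

theorem dense_of_egirth {N k L : ℕ} (hk : 1 ≤ k)
    (h : ∀ H : SimpleGraph (Fin N), H.edgeSet.ncard = N + k → H.egirth ≤ L) : Dense N k L := by
  classical
  intro V inst W E hIn hWN hWE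
  obtain ⟨E0, hE0, hc0⟩ := Finset.exists_subset_card_eq hWE
  have hpos : 0 < E0.card := by omega
  obtain ⟨e0, he0⟩ := Finset.card_pos.mp hpos
  have hWpos : 1 ≤ W.card := by
    rw [Nat.one_le_iff_ne_zero, ← Nat.pos_iff_ne_zero, Finset.card_pos]
    induction e0 with
    | _ a b => exact ⟨a, (hIn _ (hE0 he0)).2 a (Sym2.mem_mk_left _ _)⟩
  set g : Fin W.card → V := fun i => (W.equivFin.symm i : V) with hg
  have hginj : Function.Injective g := by
    intro i j hij
    exact W.equivFin.symm.injective (Subtype.ext hij)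
  have hgsurj : ∀ w ∈ W, ∃ i, g i = w := by
    intro w hw
    exact ⟨W.equivFin ⟨w, hw⟩, by simp [hg]⟩
  have hminj : Function.Injective (Sym2.map g) := Sym2.map.injective hginj
  -- pull back
  set D : Finset (Sym2 (Fin W.card)) := Finset.univ.filter (fun e => Sym2.map g e ∈ E0) with hD
  have himg : D.image (Sym2.map g) = E0 := by
    ext e
    rw [Finset.mem_image]
    constructor
    · rintro ⟨d, hd, rfl⟩
      exact (Finset.mem_filter.mp hd).2
    · intro he
      induction e with
      | _ a b =>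
        have hin := hIn _ (hE0 he)
        obtain ⟨i, hi⟩ := hgsurj a (hin.2 a (Sym2.mem_mk_left _ _))
        obtain ⟨j, hj⟩ := hgsurj b (hin.2 b (Sym2.mem_mk_right _ _))
        refine ⟨s(i, j), ?_, by rw [Sym2.map_mk, hi, hj]⟩
        rw [hD, Finset.mem_filter, Sym2.map_mk, hi, hj]
        exact ⟨Finset.mem_univ _, he⟩
  have hDc : D.card = W.card + k := by
    rw [← hc0, ← himg, Finset.card_image_of_injective _ hminj]
  set G0 : SimpleGraph (Fin W.card) :=
    SimpleGraph.fromEdgeSet (D : Set (Sym2 (Fin W.card))) with hG0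
  have hedge : G0.edgeSet = (D : Set (Sym2 (Fin W.card))) := by
    rw [hG0, SimpleGraph.edgeSet_fromEdgeSet]
    ext e
    rw [Set.mem_sdiff]
    refine ⟨fun h => h.1, fun h => ⟨h, ?_⟩⟩
    have h1 : Sym2.map g e ∈ E0 := (Finset.mem_filter.mp (Finset.mem_coe.mp h)).2
    have h2 := (hIn _ (hE0 h1)).1
    rwa [Sym2.isDiag_map hginj] at h2
  have hef : G0.edgeFinset = D := by
    rw [← Finset.coe_inj, SimpleGraph.coe_edgeFinset, hedge]
  have hcard : G0.edgeSet.ncard = W.card + k := by
    rw [hedge, Set.ncard_coe_finset, hDc]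
  obtain ⟨H', h1, h2⟩ := exists_mono hWpos hWN G0 hcard
  have h3 : G0.egirth ≤ L := h2.trans (h H' h1)
  rw [egirth_le_iff_core, hef] at h3
  obtain ⟨C, hCE, hne, hcC, hdeg⟩ := h3
  refine Core.mono (E := E0) ?_ hE0 (le_refl L)
  refine ⟨C.image (Sym2.map g), ?_, hne.image _, ?_, ?_⟩
  · rw [← himg]
    exact Finset.image_subset_image hCE
  · rwa [Finset.card_image_of_injective _ hminj]
  · intro v hv
    by_cases hvW : v ∈ W
    · obtain ⟨i, rfl⟩ := hgsurj v hvW
      apply hdeg i
      rw [← hv]
      rw [← Finset.card_image_of_injective (C.filter (fun e => i ∈ e)) hminj]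
      congr 1
      ext e
      simp only [Finset.mem_filter, Finset.mem_image]
      constructor
      · rintro ⟨d, ⟨hd, hi⟩, rfl⟩
        refine ⟨⟨d, hd, rfl⟩, ?_⟩
        rw [Sym2.mem_map]
        exact ⟨i, hi, rfl⟩
      · rintro ⟨⟨d, hd, rfl⟩, hi⟩
        refine ⟨d, ⟨hd, ?_⟩, rfl⟩
        rw [Sym2.mem_map] at hi
        obtain ⟨w, hw, hwv⟩ := hi
        rwa [← hginj hwv]
    · have h0 : (C.image (Sym2.map g)).filter (fun e => v ∈ e) = ∅ := by
        rw [Finset.filter_eq_empty_iff]
        intro e he hve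
        rw [Finset.mem_image] at he
        obtain ⟨d, hd, rfl⟩ := he
        rw [Sym2.mem_map] at hve
        obtain ⟨w, -, hw⟩ := hve
        apply hvW
        rw [← hw]
        exact (W.equivFin.symm w).2
      rw [h0, Finset.card_empty] at hv
      exact absurd hv (by norm_num)

end Pool.Agent.H25.RG3
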