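import Mathlib

set_option autoImplicit false

/-! # Closed sets in digraphs of outdegree two: counting and segments -/

namespace Pool.Agent.H25.RG3

set_option linter.unusedSectionVars false

variable {V : Type*} [DecidableEq V]

/-- `w` is one of the two out-neighbours of `v` -/
def Out (a b : V → V) (v w : V) : Prop := a v = w ∨ b v = w

/-- `W` is closed: every vertex has an out-neighbour in `W` or outside `U` -/
def Cl (U : Finset V) (a b : V → V) (W : Finset V) : Prop :=
  ∀ v ∈ W, ∃ w, Out a b v w ∧ (w ∈ W ∨ w ∉ U)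

/-- two closed sets containing `S` -/
structure Pr (U S : Finset V) (a b : V → V) (W W' : Finset V) : Prop where
  sub : W ⊆ U
  sub' : W' ⊆ U
  S1 : S ⊆ W
  S2 : S ⊆ W'
  cl : Cl U a b W
  cl' : Cl U a b W'

lemma Pr.symm {U S : Finset V} {a b : V → V} {W W' : Finset V} (h : Pr U S a b W W') :
    Pr U S a b W' W := ⟨h.sub', h.sub, h.S2, h.S1, h.cl', h.cl⟩

/-- the pair minimises the size of the intersection, then the total size -/
structure Mn (U S : Finset V) (a b : V → V) (W W' : Finset V) : Prop where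
  pr : Pr U S a b W W'
  m1 : ∀ X X', Pr U S a b X X' → (W ∩ W').card ≤ (X ∩ X').card
  m2 : ∀ X X', Pr U S a b X X' → (X ∩ X').card ≤ (W ∩ W').card →
    W.card + W'.card ≤ X.card + X'.card

lemma Mn.symm {U S : Finset V} {a b : V → V} {W W' : Finset V} (h : Mn U S a b W W') :
    Mn U S a b W' W := by
  refine ⟨h.pr.symm, ?_, ?_⟩
  · intro X X' hX
    have := h.m1 X' X hX.symm
    rwa [Finset.inter_comm W' W, Finset.inter_comm X X']
  · intro X X' hX hc
    have := h.m2 X' X hX.symm (by rwa [Finset.inter_comm X' X, Finset.inter_comm W W'])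
    omega

lemma exists_mn {U S : Finset V} {a b : V → V} {W W' : Finset V} (h : Pr U S a b W W') :
    ∃ X X', Mn U S a b X X' := by
  classical
  -- minimise the measure |X ∩ X'| * (2 |U| + 1) + |X| + |X'|
  let m : Finset V × Finset V → ℕ := fun p => (p.1 ∩ p.2).card * (2 * U.card + 1) +
    (p.1.card + p.2.card)
  have hne : ∃ n, ∃ p : Finset V × Finset V, Pr U S a b p.1 p.2 ∧ m p = n := ⟨_, (W, W'), h, rfl⟩
  obtain ⟨⟨X, X'⟩, hX, hm⟩ := Nat.find_spec hne
  have hmin : ∀ Y Y', Pr U S a b Y Y' → m (X, X') ≤ m (Y, Y') := by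
    intro Y Y' hY
    rw [hm]
    exact Nat.find_min' hne ⟨(Y, Y'), hY, rfl⟩
  refine ⟨X, X', hX, ?_, ?_⟩
  · intro Y Y' hY
    by_contra hlt
    push Not at hlt
    have h1 := hmin Y Y' hY
    simp only [m] at h1
    have h2 := Finset.card_le_card hY.sub
    have h3 := Finset.card_le_card hY.sub'
    have h4 : ((Y ∩ Y').card + 1) * (2 * U.card + 1) ≤ (X ∩ X').card * (2 * U.card + 1) :=
      Nat.mul_le_mul_right _ hlt
    have h5 : ((Y ∩ Y').card + 1) * (2 * U.card + 1) =
      (Y ∩ Y').card * (2 * U.card + 1) + (2 * U.card + 1) := by ring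
    omega
  · intro Y Y' hY hc
    have h1 := hmin Y Y' hY
    simp only [m] at h1
    have h4 : (Y ∩ Y').card * (2 * U.card + 1) ≤ (X ∩ X').card * (2 * U.card + 1) :=
      Nat.mul_le_mul_right _ hc
    omega

/-- a choice of out-neighbours inside a closed set -/
lemma exists_choice {U : Finset V} {a b : V → V} {W : Finset V} (h : Cl U a b W) :
    ∃ F : V → V, ∀ v ∈ W, Out a b v (F v) ∧ (F v ∈ W ∨ F v ∉ U) := by
  classical
  choose! F hF using h
  exact ⟨F, hF⟩

/-- in a minimal pair every vertex outside `S` has a preimage -/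
lemma Mn.pre {U S : Finset V} {a b : V → V} {W W' : Finset V} (h : Mn U S a b W W')
    {F : V → V} (hF : ∀ v ∈ W, Out a b v (F v) ∧ (F v ∈ W ∨ F v ∉ U)) :
    ∀ w ∈ W, w ∉ S → ∃ v ∈ W, F v = w := by
  intro w hw hwS
  by_contra hno
  push Not at hno
  have hP : Pr U S a b (W.erase w) W' := by
    refine ⟨(Finset.erase_subset _ _).trans h.pr.sub, h.pr.sub', ?_, h.pr.S2, ?_, h.pr.cl'⟩
    · intro s hs
      refine Finset.mem_erase.2 ⟨?_, h.pr.S1 hs⟩
      rintro rfl
      exact hwS hs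
    · intro v hv
      have hv' := Finset.mem_of_mem_erase hv
      obtain ⟨h1, h2⟩ := hF v hv'
      refine ⟨F v, h1, ?_⟩
      rcases h2 with h2 | h2
      · exact Or.inl (Finset.mem_erase.2 ⟨hno v hv', h2⟩)
      · exact Or.inr h2
  have h1 := h.m2 _ _ hP (Finset.card_le_card (by
    intro x hx
    rw [Finset.mem_inter] at hx ⊢
    exact ⟨Finset.mem_of_mem_erase hx.1, hx.2⟩))
  have h2 := Finset.card_erase_lt_of_mem hw
  omega

/-- all but `2 |S|` vertices are mapped to a vertex outside `S` with exactly one preimage -/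
lemma count_bad {S W : Finset V} {F : V → V} (hS : S ⊆ W)
    (hpre : ∀ w ∈ W, w ∉ S → ∃ v ∈ W, F v = w) :
    (W.filter (fun v => ¬ (F v ∈ W ∧ F v ∉ S ∧ ∀ u ∈ W, F u = F v → u = v))).card
      ≤ 2 * S.card := by
  classical
  set A := W.filter (fun v => F v ∈ W ∧ F v ∉ S ∧ ∀ u ∈ W, F u = F v → u = v) with hA
  set B := (W \ S).filter (fun w => ∀ u ∈ W, ∀ v ∈ W, F u = w → F v = w → u = v) with hB
  have hAB : B.card ≤ A.card := by
    have : B ⊆ A.image F := by
      intro w hw
      rw [hB, Finset.mem_filter, Finset.mem_sdiff] at hw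
      obtain ⟨v, hv, hvw⟩ := hpre w hw.1.1 hw.1.2
      refine Finset.mem_image.2 ⟨v, ?_, hvw⟩
      rw [hA, Finset.mem_filter]
      refine ⟨hv, by rw [hvw]; exact hw.1.1, by rw [hvw]; exact hw.1.2, ?_⟩
      intro u hu huv
      exact hw.2 u hu v hv (by rw [huv, hvw]) hvw
    exact (Finset.card_le_card this).trans Finset.card_image_le
  -- double counting of the fibres over `W \ S`
  have h1 : ∑ w ∈ W \ S, (W.filter (fun v => F v = w)).card ≤ W.card := by
    rw [← Finset.card_biUnion]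
    · refine Finset.card_le_card ?_
      intro x hx
      obtain ⟨w, _, hx⟩ := Finset.mem_biUnion.1 hx
      exact (Finset.mem_filter.1 hx).1
    · intro x _ y _ hxy
      rw [Function.onFun, Finset.disjoint_left]
      intro z hz hz'
      exact hxy ((Finset.mem_filter.1 hz).2.symm.trans (Finset.mem_filter.1 hz').2)
  have h2 : ∀ w ∈ W \ S, (if w ∈ B then 1 else 2) ≤ (W.filter (fun v => F v = w)).card := by
    intro w hw
    rw [Finset.mem_sdiff] at hw
    obtain ⟨v, hv, hvw⟩ := hpre w hw.1 hw.2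
    split_ifs with hwB
    · exact Finset.card_pos.2 ⟨v, Finset.mem_filter.2 ⟨hv, hvw⟩⟩
    · have : ¬ ∀ u ∈ W, ∀ v ∈ W, F u = w → F v = w → u = v := by
        intro hcon
        exact hwB (Finset.mem_filter.2 ⟨Finset.mem_sdiff.2 hw, hcon⟩)
      push Not at this
      obtain ⟨u, hu, v, hv, h3, h4, h5⟩ := this
      exact Finset.one_lt_card.2 ⟨u, Finset.mem_filter.2 ⟨hu, h3⟩, v,
        Finset.mem_filter.2 ⟨hv, h4⟩, h5⟩
  have h3 : ∑ w ∈ W \ S, (if w ∈ B then 1 else 2) ≤ W.card := (Finset.sum_le_sum h2).trans h1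
  have h4 : ∑ w ∈ W \ S, (if w ∈ B then 1 else 2) + B.card = 2 * (W \ S).card := by
    have hBsub : B ⊆ W \ S := Finset.filter_subset _ _
    rw [Finset.sum_ite]
    have e1 : (W \ S).filter (fun w => w ∈ B) = B := by
      ext x
      rw [Finset.mem_filter]
      exact ⟨fun h => h.2, fun h => ⟨hBsub h, h⟩⟩
    have e2 : (W \ S).filter (fun w => w ∉ B) = (W \ S) \ B := by
      ext x
      simp only [Finset.mem_filter, Finset.mem_sdiff]
    rw [e1, e2]
    simp only [Finset.sum_const, smul_eq_mul, mul_one]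
    have := Finset.card_sdiff_add_card_eq_card hBsub
    omega
  have h5 : (W \ S).card + S.card = W.card := Finset.card_sdiff_add_card_eq_card hS
  have h6 : (W.filter (fun v => ¬ (F v ∈ W ∧ F v ∉ S ∧ ∀ u ∈ W, F u = F v → u = v))).card
      + A.card = W.card := by
    rw [hA, add_comm]
    exact Finset.card_filter_add_card_filter_not _
  omega

/-! ### segments -/

/-- good vertices: not in `W'`, at most one preimage in `W` -/
def Good (W W' : Finset V) (F : V → V) (w : V) : Prop :=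
  w ∈ W ∧ w ∉ W' ∧ ∀ u ∈ W, ∀ v ∈ W, F u = w → F v = w → u = v

lemma iter_mem {W W' : Finset V} {F : V → V} {c : V} (hc : c ∈ W) {i : ℕ}
    (h : ∀ t, 1 ≤ t → t ≤ i → Good W W' F (F^[t] c)) : F^[i] c ∈ W := by
  rcases Nat.eq_zero_or_pos i with rfl | hi
  · exact hc
  · exact (h i hi le_rfl).1

lemma back {W W' : Finset V} {F : V → V} {c d : V} (hc : c ∈ W) (hc' : c ∈ W') (hd : d ∈ W)
    (hd' : d ∈ W') : ∀ {i j : ℕ}, (∀ t, 1 ≤ t → t ≤ i → Good W W' F (F^[t] c)) →
    (∀ t, 1 ≤ t → t ≤ j → Good W W' F (F^[t] d)) → F^[i] c = F^[j] d → i = j ∧ c = d := by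
  intro i
  induction i with
  | zero =>
    intro j _ hj h
    rcases Nat.eq_zero_or_pos j with rfl | hj0
    · exact ⟨rfl, h⟩
    · exfalso
      have := (hj j hj0 le_rfl).2.1
      rw [← h] at this
      exact this hc'
  | succ i ih =>
    intro j hi hj h
    rcases Nat.eq_zero_or_pos j with rfl | hj0
    · exfalso
      have := (hi (i + 1) (by omega) le_rfl).2.1
      rw [h] at this
      exact this hd'
    · obtain ⟨j, rfl⟩ : ∃ j', j = j' + 1 := ⟨j - 1, by omega⟩
      have hi' : ∀ t, 1 ≤ t → t ≤ i → Good W W' F (F^[t] c) := fun t h1 h2 => hi t h1 (by omega)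
      have hj' : ∀ t, 1 ≤ t → t ≤ j → Good W W' F (F^[t] d) := fun t h1 h2 => hj t h1 (by omega)
      have e := (hi (i + 1) (by omega) le_rfl).2.2 (F^[i] c) (iter_mem hc hi') (F^[j] d)
        (iter_mem hd hj') (Function.iterate_succ_apply' F i c).symm
        (by rw [h]; exact (Function.iterate_succ_apply' F j d).symm)
      obtain ⟨e1, e2⟩ := ih hi' hj' e
      exact ⟨by omega, e2⟩

lemma exists_stop {W W' : Finset V} {F : V → V} {c : V} (hc : c ∈ W) (hc' : c ∈ W') :
    ∃ m, ¬ Good W W' F (F^[m + 1] c) := by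
  classical
  by_contra hno
  push Not at hno
  have hinj : Function.Injective (fun n : ℕ => (⟨F^[n + 1] c, (hno n).1⟩ : W)) := by
    intro i j hij
    have hij' : F^[i + 1] c = F^[j + 1] c := congrArg Subtype.val hij
    have := (back hc hc' hc hc' (i := i + 1) (j := j + 1)
      (fun t h1 _ => by obtain ⟨s, rfl⟩ : ∃ s, t = s + 1 := ⟨t - 1, by omega⟩; exact hno s)
      (fun t h1 _ => by obtain ⟨s, rfl⟩ : ∃ s, t = s + 1 := ⟨t - 1, by omega⟩; exact hno s)
      hij').1
    omega
  exact not_injective_infinite_finite _ hinj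

open scoped Classical in
/-- the number of good vertices after `c` -/
noncomputable def len (W W' : Finset V) (F : V → V) (c : V) : ℕ :=
  if h : ∃ m, ¬ Good W W' F (F^[m + 1] c) then Nat.find h else 0

lemma len_good {W W' : Finset V} {F : V → V} {c : V} (hc : c ∈ W) (hc' : c ∈ W') :
    ∀ t, 1 ≤ t → t ≤ len W W' F c → Good W W' F (F^[t] c) := by
  classical
  intro t h1 h2
  have hex := exists_stop (F := F) hc hc'
  unfold len at h2
  rw [dif_pos hex] at h2
  obtain ⟨s, rfl⟩ : ∃ s, t = s + 1 := ⟨t - 1, by omega⟩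
  by_contra hcon
  have := Nat.find_min' hex hcon
  omega

lemma len_stop {W W' : Finset V} {F : V → V} {c : V} (hc : c ∈ W) (hc' : c ∈ W') :
    ¬ Good W W' F (F^[len W W' F c + 1] c) := by
  classical
  have hex := exists_stop (F := F) hc hc'
  unfold len
  rw [dif_pos hex]
  exact Nat.find_spec hex

/-- the last vertex of the segment of `c` -/
noncomputable def lst (W W' : Finset V) (F : V → V) (c : V) : V := F^[len W W' F c] c

lemma lst_mem {W W' : Finset V} {F : V → V} {c : V} (hc : c ∈ W) (hc' : c ∈ W') :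
    lst W W' F c ∈ W := iter_mem hc (len_good hc hc')

lemma lst_inj {W W' : Finset V} {F : V → V} {c d : V} (hc : c ∈ W) (hc' : c ∈ W') (hd : d ∈ W)
    (hd' : d ∈ W') (h : lst W W' F c = lst W W' F d) : c = d :=
  (back hc hc' hd hd' (len_good hc hc') (len_good hd hd') h).2

/-- the good vertices after `c` -/
noncomputable def sgm (W W' : Finset V) (F : V → V) (c : V) : Finset V :=
  (Finset.range (len W W' F c)).image (fun j => F^[j + 1] c)

lemma mem_sgm {W W' : Finset V} {F : V → V} {c x : V} :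
    x ∈ sgm W W' F c ↔ ∃ t, 1 ≤ t ∧ t ≤ len W W' F c ∧ F^[t] c = x := by
  unfold sgm
  rw [Finset.mem_image]
  constructor
  · rintro ⟨j, hj, rfl⟩
    exact ⟨j + 1, by omega, by rw [Finset.mem_range] at hj; omega, rfl⟩
  · rintro ⟨t, h1, h2, rfl⟩
    exact ⟨t - 1, Finset.mem_range.2 (by omega), by rw [Nat.sub_add_cancel h1]⟩

/-- the properties of a segment used in the rerouting arguments -/
structure Sg (W W' S : Finset V) (F : V → V) (c : V) (P : Finset V) (e : V) : Prop where
  PW : P ⊆ W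
  PW' : ∀ v ∈ P, v ∉ W'
  eW : e ∈ W
  eW' : e ∈ W'
  eS : e ∉ S
  pre : ∀ v ∈ W, F v ∈ P ∨ F v = e → v ∈ P ∨ v = c
  fc : F c ∈ P ∨ F c = e
  fP : ∀ v ∈ P, F v ∈ P ∨ F v = e
  ini : ∀ y ∈ P, ∃ R ⊆ P, y ∈ R ∧ F c ∈ R ∧ ∀ v ∈ R, v ≠ y → F v ∈ R
  hit : ∃ v ∈ W, F v = e

/-- the condition on the last vertex: it is mapped to a vertex of `W` outside `S` with one
preimage -/
def Typ (W W' S : Finset V) (F : V → V) (c : V) : Prop :=
  F (lst W W' F c) ∈ W ∧ F (lst W W' F c) ∉ S ∧
    ∀ u ∈ W, F u = F (lst W W' F c) → u = lst W W' F c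

lemma sg_of_typ {W W' S : Finset V} {F : V → V} {c : V} (hc : c ∈ W) (hc' : c ∈ W')
    (h : Typ W W' S F c) :
    Sg W W' S F c (sgm W W' F c) (F (lst W W' F c)) := by
  have hgood := len_good (F := F) hc hc'
  have hlast : F (lst W W' F c) = F^[len W W' F c + 1] c :=
    (Function.iterate_succ_apply' F _ c).symm
  have hmemt : ∀ t, t ≤ len W W' F c → F^[t] c ∈ W := fun t ht =>
    iter_mem hc (fun s h1 h2 => hgood s h1 (by omega))
  have hor : ∀ t, t ≤ len W W' F c → F^[t] c ∈ sgm W W' F c ∨ F^[t] c = c := by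
    intro t ht
    rcases Nat.eq_zero_or_pos t with rfl | h0
    · exact Or.inr rfl
    · exact Or.inl (mem_sgm.2 ⟨t, h0, ht, rfl⟩)
  have hnext : ∀ t, t ≤ len W W' F c → F (F^[t] c) ∈ sgm W W' F c ∨
      F (F^[t] c) = F (lst W W' F c) := by
    intro t ht
    rcases Nat.lt_or_ge t (len W W' F c) with h1 | h1
    · left
      rw [← Function.iterate_succ_apply' F t c]
      exact mem_sgm.2 ⟨t + 1, by omega, by omega, rfl⟩
    · right
      have : t = len W W' F c := by omega
      rw [this]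
      rfl
  refine ⟨?_, ?_, h.1, ?_, h.2.1, ?_, ?_, ?_, ?_, ⟨_, lst_mem hc hc', rfl⟩⟩
  · intro x hx
    obtain ⟨t, h1, h2, rfl⟩ := mem_sgm.1 hx
    exact (hgood t h1 h2).1
  · intro x hx
    obtain ⟨t, h1, h2, rfl⟩ := mem_sgm.1 hx
    exact (hgood t h1 h2).2.1
  · by_contra hcon
    refine len_stop (F := F) hc hc' ⟨by rw [← hlast]; exact h.1, by rw [← hlast]; exact hcon, ?_⟩
    intro u hu v hv h1 h2
    rw [← hlast] at h1 h2
    rw [h.2.2 u hu h1, h.2.2 v hv h2]
  · intro v hv hv'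
    rcases hv' with hv' | hv'
    · obtain ⟨t, h1, h2, h3⟩ := mem_sgm.1 hv'
      obtain ⟨s, rfl⟩ : ∃ s, t = s + 1 := ⟨t - 1, by omega⟩
      have e := (hgood (s + 1) h1 h2).2.2 v hv (F^[s] c) (hmemt s (by omega)) h3.symm
        (Function.iterate_succ_apply' F s c).symm
      rw [e]
      exact hor s (by omega)
    · rw [h.2.2 v hv hv']
      exact hor _ le_rfl
  · exact hnext 0 (Nat.zero_le _)
  · intro v hv
    obtain ⟨t, h1, h2, rfl⟩ := mem_sgm.1 hv
    exact hnext t h2
  · intro y hy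
    obtain ⟨t, h1, h2, rfl⟩ := mem_sgm.1 hy
    refine ⟨(Finset.range t).image (fun j => F^[j + 1] c), ?_, ?_, ?_, ?_⟩
    · intro x hx
      obtain ⟨j, hj, rfl⟩ := Finset.mem_image.1 hx
      rw [Finset.mem_range] at hj
      exact mem_sgm.2 ⟨j + 1, by omega, by omega, rfl⟩
    · exact Finset.mem_image.2 ⟨t - 1, Finset.mem_range.2 (by omega), by
        rw [Nat.sub_add_cancel h1]⟩
    · exact Finset.mem_image.2 ⟨0, Finset.mem_range.2 (by omega), rfl⟩
    · intro v hv hvy
      obtain ⟨j, hj, rfl⟩ := Finset.mem_image.1 hv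
      rw [Finset.mem_range] at hj
      have hj' : j + 1 ≠ t := fun h => hvy (by simp only [h])
      refine Finset.mem_image.2 ⟨j + 1, Finset.mem_range.2 (by omega), ?_⟩
      exact Function.iterate_succ_apply' F (j + 1) c

/-- segments of different vertices are disjoint -/
lemma sgm_disjoint {W W' : Finset V} {F : V → V} {c d : V} (hc : c ∈ W) (hc' : c ∈ W')
    (hd : d ∈ W) (hd' : d ∈ W') (hcd : c ≠ d) {x : V} (hx : x ∈ sgm W W' F c)
    (hy : x ∈ sgm W W' F d) : False := by
  obtain ⟨t, h1, h2, h3⟩ := mem_sgm.1 hx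
  obtain ⟨s, h4, h5, h6⟩ := mem_sgm.1 hy
  exact hcd (back hc hc' hd hd' (fun r h7 h8 => len_good hc hc' r h7 (by omega))
    (fun r h7 h8 => len_good hd hd' r h7 (by omega)) (h3.trans h6.symm)).2

end Pool.Agent.H25.RG3
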