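import Pool.Agent.H25.RG3.Clo1

set_option autoImplicit false

/-! # The closure lemma -/

namespace Pool.Agent.H25.RG3

set_option linter.unusedSectionVars false

variable {V : Type*} [DecidableEq V]

section
variable {U S : Finset V} {a b : V → V} {W W' : Finset V} (hM : Mn U S a b W W')
  {F F' : V → V} (hF : ∀ v ∈ W, Out a b v (F v) ∧ (F v ∈ W ∨ F v ∉ U))
  (hF' : ∀ v ∈ W', Out a b v (F' v) ∧ (F' v ∈ W' ∨ F' v ∉ U))
  {c : V} (hc : c ∈ W) (hc' : c ∈ W') {P Q : Finset V} {e e' : V}
  (hP : Sg W W' S F c P e) (hQ : Sg W' W S F' c Q e')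

include hM in
/-- a pair whose intersection lies in `W ∩ W'` without `e` contradicts minimality -/
lemma Mn.false_of {X X' : Finset V} (hX : Pr U S a b X X') {e : V} (he : e ∈ W) (he' : e ∈ W')
    (h : ∀ x, x ∈ X → x ∈ X' → x ∈ W ∧ x ∈ W' ∧ x ≠ e) : False := by
  have h1 := hM.m1 X X' hX
  have h2 : X ∩ X' ⊆ (W ∩ W').erase e := by
    intro x hx
    rw [Finset.mem_inter] at hx
    obtain ⟨h3, h4, h5⟩ := h x hx.1 hx.2
    exact Finset.mem_erase.2 ⟨h5, Finset.mem_inter.2 ⟨h3, h4⟩⟩
  have h3 := Finset.card_le_card h2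
  have h4 := Finset.card_erase_lt_of_mem (Finset.mem_inter.2 ⟨he, he'⟩)
  omega

include hM hF hc hc' hP in
/-- the end of a segment is not its start -/
lemma end_ne : e ≠ c := by
  rintro rfl
  refine hM.false_of (X := W \ (insert e P)) (X' := W') ?_ hc hc' ?_
  · refine ⟨Finset.sdiff_subset.trans hM.pr.sub, hM.pr.sub', ?_, hM.pr.S2, ?_, hM.pr.cl'⟩
    · intro s hs
      rw [Finset.mem_sdiff, Finset.mem_insert]
      refine ⟨hM.pr.S1 hs, ?_⟩
      rintro (rfl | h)
      · exact hP.eS hs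
      · exact hP.PW' s h (hM.pr.S2 hs)
    · intro v hv
      rw [Finset.mem_sdiff, Finset.mem_insert] at hv
      obtain ⟨h1, h2⟩ := hF v hv.1
      refine ⟨F v, h1, ?_⟩
      rcases h2 with h2 | h2
      · left
        rw [Finset.mem_sdiff, Finset.mem_insert]
        refine ⟨h2, ?_⟩
        intro h3
        rcases hP.pre v hv.1 h3.symm with h4 | h4
        · exact hv.2 (Or.inr h4)
        · exact hv.2 (Or.inl h4)
      · exact Or.inr h2
  · intro x hx hx'
    rw [Finset.mem_sdiff, Finset.mem_insert] at hx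
    refine ⟨hx.1, hx', ?_⟩
    rintro rfl
    exact hx.2 (Or.inl rfl)

include hM hF hF' hc hc' hP hQ in
/-- both segments of a doubly typical vertex end at the same vertex -/
lemma end_eq : e = e' := by
  by_contra hne
  refine hM.false_of (X := (W \ (insert e P)) ∪ Q) (X' := (W' \ (insert e' Q)) ∪ P) ?_
    hP.eW hP.eW' ?_
  · refine ⟨?_, ?_, ?_, ?_, ?_, ?_⟩
    · exact Finset.union_subset (Finset.sdiff_subset.trans hM.pr.sub) (hQ.PW.trans hM.pr.sub')
    · exact Finset.union_subset (Finset.sdiff_subset.trans hM.pr.sub') (hP.PW.trans hM.pr.sub)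
    · intro s hs
      rw [Finset.mem_union, Finset.mem_sdiff, Finset.mem_insert]
      refine Or.inl ⟨hM.pr.S1 hs, ?_⟩
      rintro (rfl | h)
      · exact hP.eS hs
      · exact hP.PW' s h (hM.pr.S2 hs)
    · intro s hs
      rw [Finset.mem_union, Finset.mem_sdiff, Finset.mem_insert]
      refine Or.inl ⟨hM.pr.S2 hs, ?_⟩
      rintro (rfl | h)
      · exact hQ.eS hs
      · exact hQ.PW' s h (hM.pr.S1 hs)
    · -- closedness of the first set
      have he' : e' ∈ (W \ (insert e P)) ∪ Q := by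
        rw [Finset.mem_union, Finset.mem_sdiff, Finset.mem_insert]
        refine Or.inl ⟨hQ.eW', ?_⟩
        rintro (h | h)
        · exact hne h.symm
        · exact hP.PW' _ h hQ.eW
      have hstep : ∀ v, (v ∈ Q ∨ v = c) →
          ∃ w, Out a b v w ∧ (w ∈ (W \ (insert e P)) ∪ Q ∨ w ∉ U) := by
        intro v hv
        have hvW : v ∈ W' := by
          rcases hv with hv | rfl
          · exact hQ.PW hv
          · exact hc'
        have h2 : F' v ∈ Q ∨ F' v = e' := by
          rcases hv with hv | rfl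
          · exact hQ.fP v hv
          · exact hQ.fc
        refine ⟨F' v, (hF' v hvW).1, Or.inl ?_⟩
        rcases h2 with h2 | h2
        · exact Finset.mem_union_right _ h2
        · rw [h2]
          exact he'
      intro v hv
      rw [Finset.mem_union, Finset.mem_sdiff, Finset.mem_insert] at hv
      rcases hv with hv | hv
      · by_cases hvc : v = c
        · exact hstep v (Or.inr hvc)
        · obtain ⟨h1, h2⟩ := hF v hv.1
          refine ⟨F v, h1, ?_⟩
          rcases h2 with h2 | h2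
          · left
            rw [Finset.mem_union, Finset.mem_sdiff, Finset.mem_insert]
            refine Or.inl ⟨h2, ?_⟩
            intro h3
            rcases hP.pre v hv.1 h3.symm with h4 | h4
            · exact hv.2 (Or.inr h4)
            · exact hvc h4
          · exact Or.inr h2
      · exact hstep v (Or.inl hv)
    · have he : e ∈ (W' \ (insert e' Q)) ∪ P := by
        rw [Finset.mem_union, Finset.mem_sdiff, Finset.mem_insert]
        refine Or.inl ⟨hP.eW', ?_⟩
        rintro (h | h)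
        · exact hne h
        · exact hQ.PW' _ h hP.eW
      have hstep : ∀ v, (v ∈ P ∨ v = c) →
          ∃ w, Out a b v w ∧ (w ∈ (W' \ (insert e' Q)) ∪ P ∨ w ∉ U) := by
        intro v hv
        have hvW : v ∈ W := by
          rcases hv with hv | rfl
          · exact hP.PW hv
          · exact hc
        have h2 : F v ∈ P ∨ F v = e := by
          rcases hv with hv | rfl
          · exact hP.fP v hv
          · exact hP.fc
        refine ⟨F v, (hF v hvW).1, Or.inl ?_⟩
        rcases h2 with h2 | h2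
        · exact Finset.mem_union_right _ h2
        · rw [h2]
          exact he
      intro v hv
      rw [Finset.mem_union, Finset.mem_sdiff, Finset.mem_insert] at hv
      rcases hv with hv | hv
      · by_cases hvc : v = c
        · exact hstep v (Or.inr hvc)
        · obtain ⟨h1, h2⟩ := hF' v hv.1
          refine ⟨F' v, h1, ?_⟩
          rcases h2 with h2 | h2
          · left
            rw [Finset.mem_union, Finset.mem_sdiff, Finset.mem_insert]
            refine Or.inl ⟨h2, ?_⟩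
            intro h3
            rcases hQ.pre v hv.1 h3.symm with h4 | h4
            · exact hv.2 (Or.inr h4)
            · exact hvc h4
          · exact Or.inr h2
      · exact hstep v (Or.inl hv)
  · intro x hx hx'
    rw [Finset.mem_union, Finset.mem_sdiff, Finset.mem_insert] at hx hx'
    rcases hx with hx | hx
    · rcases hx' with hx' | hx'
      · exact ⟨hx.1, hx'.1, fun h => hx.2 (Or.inl h)⟩
      · exact absurd (Or.inr hx') hx.2
    · rcases hx' with hx' | hx'
      · exact absurd (Or.inr hx) hx'.2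
      · exact absurd (hP.PW hx') (hQ.PW' x hx)

end

section
variable {U S : Finset V} {a b : V → V} {W W' : Finset V} (hM : Mn U S a b W W')
  {F F' : V → V} (hF : ∀ v ∈ W, Out a b v (F v) ∧ (F v ∈ W ∨ F v ∉ U))
  (hF' : ∀ v ∈ W', Out a b v (F' v) ∧ (F' v ∈ W' ∨ F' v ∉ U))
  {c : V} (hc : c ∈ W) (hc' : c ∈ W') {P Q : Finset V} {e : V}
  (hP : Sg W W' S F c P e) (hQ : Sg W' W S F' c Q e)

include hM hF hc hc' hP in
/-- rerouting inside the own set -/
lemma reroute_same {T : Finset V} (hTU : T ⊆ U) (hTW' : ∀ v ∈ T, v ∉ W')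
    {y : V} (hy : y ∈ P ∨ y = c)
    (hT : ∀ v, v ∈ T ∨ v = y → ∃ w, Out a b v w ∧ (w ∈ T ∨ w ∈ W \ (insert e P) ∨ w ∉ U)) :
    False := by
  -- the initial part of the segment up to `y`
  obtain ⟨R, hRP, hRc, hRy⟩ : ∃ R ⊆ P, (c ≠ y → F c ∈ R) ∧ ∀ v ∈ R, v ≠ y → F v ∈ R := by
    by_cases hyc : y = c
    · exact ⟨∅, Finset.empty_subset _, fun h => absurd hyc.symm h, by simp⟩
    · obtain ⟨R, h1, h2, h3, h4⟩ := hP.ini y (hy.resolve_right hyc)
      exact ⟨R, h1, fun _ => h3, h4⟩
  refine hM.false_of (X := ((W \ (insert e P)) ∪ R) ∪ T) (X' := W') ?_ hP.eW hP.eW' ?_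
  · refine ⟨?_, hM.pr.sub', ?_, hM.pr.S2, ?_, hM.pr.cl'⟩
    · exact Finset.union_subset (Finset.union_subset (Finset.sdiff_subset.trans hM.pr.sub)
        ((hRP.trans hP.PW).trans hM.pr.sub)) hTU
    · intro s hs
      rw [Finset.mem_union, Finset.mem_union, Finset.mem_sdiff, Finset.mem_insert]
      refine Or.inl (Or.inl ⟨hM.pr.S1 hs, ?_⟩)
      rintro (rfl | h)
      · exact hP.eS hs
      · exact hP.PW' s h (hM.pr.S2 hs)
    · have hTy : ∀ v, v ∈ T ∨ v = y → ∃ w, Out a b v w ∧
          (w ∈ ((W \ (insert e P)) ∪ R) ∪ T ∨ w ∉ U) := by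
        intro v hv
        obtain ⟨w, h1, h2⟩ := hT v hv
        refine ⟨w, h1, ?_⟩
        rcases h2 with h2 | h2 | h2
        · exact Or.inl (Finset.mem_union_right _ h2)
        · exact Or.inl (Finset.mem_union_left _ (Finset.mem_union_left _ h2))
        · exact Or.inr h2
      intro v hv
      rw [Finset.mem_union, Finset.mem_union, Finset.mem_sdiff, Finset.mem_insert] at hv
      by_cases hvy : v = y
      · exact hTy v (Or.inr hvy)
      rcases hv with (hv | hv) | hv
      · obtain ⟨h1, h2⟩ := hF v hv.1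
        by_cases hvc : v = c
        · refine ⟨F v, h1, Or.inl ?_⟩
          rw [hvc] at hvy ⊢
          exact Finset.mem_union_left _ (Finset.mem_union_right _ (hRc hvy))
        · refine ⟨F v, h1, ?_⟩
          rcases h2 with h2 | h2
          · left
            refine Finset.mem_union_left _ (Finset.mem_union_left _ ?_)
            rw [Finset.mem_sdiff, Finset.mem_insert]
            refine ⟨h2, ?_⟩
            intro h3
            rcases hP.pre v hv.1 h3.symm with h4 | h4
            · exact hv.2 (Or.inr h4)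
            · exact hvc h4
          · exact Or.inr h2
      · exact ⟨F v, (hF v (hP.PW (hRP hv))).1,
          Or.inl (Finset.mem_union_left _ (Finset.mem_union_right _ (hRy v hv hvy)))⟩
      · exact hTy v (Or.inl hv)
  · intro x hx hx'
    rw [Finset.mem_union, Finset.mem_union, Finset.mem_sdiff, Finset.mem_insert] at hx
    rcases hx with (hx | hx) | hx
    · exact ⟨hx.1, hx', fun h => hx.2 (Or.inl h)⟩
    · exact absurd hx' (hP.PW' x (hRP hx))
    · exact absurd hx' (hTW' x hx)

include hM hF hF' hc hc' hP hQ in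
/-- rerouting into the other set -/
lemma reroute_swap {T : Finset V} (hTU : T ⊆ U) (hTW : ∀ v ∈ T, v ∉ W) (hTW' : ∀ v ∈ T, v ∉ W')
    {y : V} (hy : y ∈ P ∨ y = c)
    (hT : ∀ v, v ∈ T ∨ v = y → ∃ w, Out a b v w ∧ (w ∈ T ∨ w ∈ W' \ (insert e Q) ∨ w ∉ U)) :
    False := by
  obtain ⟨R, hRP, hRc, hRy⟩ : ∃ R ⊆ P, (c ≠ y → F c ∈ R) ∧ ∀ v ∈ R, v ≠ y → F v ∈ R := by
    by_cases hyc : y = c
    · exact ⟨∅, Finset.empty_subset _, fun h => absurd hyc.symm h, by simp⟩
    · obtain ⟨R, h1, h2, h3, h4⟩ := hP.ini y (hy.resolve_right hyc)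
      exact ⟨R, h1, fun _ => h3, h4⟩
  refine hM.false_of (X := (W \ P) ∪ Q) (X' := ((W' \ (insert e Q)) ∪ R) ∪ T) ?_ hP.eW hP.eW' ?_
  · refine ⟨?_, ?_, ?_, ?_, ?_, ?_⟩
    · exact Finset.union_subset (Finset.sdiff_subset.trans hM.pr.sub) (hQ.PW.trans hM.pr.sub')
    · exact Finset.union_subset (Finset.union_subset (Finset.sdiff_subset.trans hM.pr.sub')
        ((hRP.trans hP.PW).trans hM.pr.sub)) hTU
    · intro s hs
      rw [Finset.mem_union, Finset.mem_sdiff]
      exact Or.inl ⟨hM.pr.S1 hs, fun h => hP.PW' s h (hM.pr.S2 hs)⟩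
    · intro s hs
      rw [Finset.mem_union, Finset.mem_union, Finset.mem_sdiff, Finset.mem_insert]
      refine Or.inl (Or.inl ⟨hM.pr.S2 hs, ?_⟩)
      rintro (rfl | h)
      · exact hQ.eS hs
      · exact hQ.PW' s h (hM.pr.S1 hs)
    · have hstep : ∀ v, (v ∈ Q ∨ v = c) → ∃ w, Out a b v w ∧ (w ∈ (W \ P) ∪ Q ∨ w ∉ U) := by
        intro v hv
        have hvW : v ∈ W' := by
          rcases hv with hv | rfl
          · exact hQ.PW hv
          · exact hc'
        have h2 : F' v ∈ Q ∨ F' v = e := by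
          rcases hv with hv | rfl
          · exact hQ.fP v hv
          · exact hQ.fc
        refine ⟨F' v, (hF' v hvW).1, Or.inl ?_⟩
        rcases h2 with h2 | h2
        · exact Finset.mem_union_right _ h2
        · rw [h2]
          exact Finset.mem_union_left _ (Finset.mem_sdiff.2 ⟨hP.eW, fun h => hP.PW' _ h hP.eW'⟩)
      intro v hv
      rw [Finset.mem_union, Finset.mem_sdiff] at hv
      rcases hv with hv | hv
      · by_cases hvc : v = c
        · exact hstep v (Or.inr hvc)
        · obtain ⟨h1, h2⟩ := hF v hv.1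
          refine ⟨F v, h1, ?_⟩
          rcases h2 with h2 | h2
          · left
            rw [Finset.mem_union, Finset.mem_sdiff]
            refine Or.inl ⟨h2, ?_⟩
            intro h3
            rcases hP.pre v hv.1 (Or.inl h3) with h4 | h4
            · exact hv.2 h4
            · exact hvc h4
          · exact Or.inr h2
      · exact hstep v (Or.inl hv)
    · have hTy : ∀ v, v ∈ T ∨ v = y → ∃ w, Out a b v w ∧
          (w ∈ ((W' \ (insert e Q)) ∪ R) ∪ T ∨ w ∉ U) := by
        intro v hv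
        obtain ⟨w, h1, h2⟩ := hT v hv
        refine ⟨w, h1, ?_⟩
        rcases h2 with h2 | h2 | h2
        · exact Or.inl (Finset.mem_union_right _ h2)
        · exact Or.inl (Finset.mem_union_left _ (Finset.mem_union_left _ h2))
        · exact Or.inr h2
      intro v hv
      rw [Finset.mem_union, Finset.mem_union, Finset.mem_sdiff, Finset.mem_insert] at hv
      by_cases hvy : v = y
      · exact hTy v (Or.inr hvy)
      rcases hv with (hv | hv) | hv
      · by_cases hvc : v = c
        · refine ⟨F v, (hF v (by rw [hvc]; exact hc)).1, Or.inl ?_⟩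
          rw [hvc] at hvy ⊢
          exact Finset.mem_union_left _ (Finset.mem_union_right _ (hRc hvy))
        · obtain ⟨h1, h2⟩ := hF' v hv.1
          refine ⟨F' v, h1, ?_⟩
          rcases h2 with h2 | h2
          · left
            refine Finset.mem_union_left _ (Finset.mem_union_left _ ?_)
            rw [Finset.mem_sdiff, Finset.mem_insert]
            refine ⟨h2, ?_⟩
            intro h3
            rcases hQ.pre v hv.1 h3.symm with h4 | h4
            · exact hv.2 (Or.inr h4)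
            · exact hvc h4
          · exact Or.inr h2
      · exact ⟨F v, (hF v (hP.PW (hRP hv))).1,
          Or.inl (Finset.mem_union_left _ (Finset.mem_union_right _ (hRy v hv hvy)))⟩
      · exact hTy v (Or.inl hv)
  · intro x hx hx'
    rw [Finset.mem_union, Finset.mem_sdiff] at hx
    rw [Finset.mem_union, Finset.mem_union, Finset.mem_sdiff, Finset.mem_insert] at hx'
    rcases hx' with (hx' | hx') | hx'
    · rcases hx with hx | hx
      · exact ⟨hx.1, hx'.1, fun h => hx'.2 (Or.inl h)⟩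
      · exact absurd (Or.inr hx) hx'.2
    · rcases hx with hx | hx
      · exact absurd (hRP hx') hx.2
      · exact absurd (hP.PW (hRP hx')) (hQ.PW' x hx)
    · rcases hx with hx | hx
      · exact absurd hx.1 (hTW x hx')
      · exact absurd (hQ.PW hx) (hTW' x hx')

end

/-! ### the largest closed free set -/

open scoped Classical in
/-- the largest subset of `A` all of whose vertices have an out-neighbour in it, in `B` or
outside `U` -/
noncomputable def TT (U : Finset V) (a b : V → V) (A B : Finset V) : Finset V :=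
  A.filter (fun v => ∃ T ⊆ A, v ∈ T ∧ ∀ t ∈ T, ∃ w, Out a b t w ∧ (w ∈ T ∨ w ∈ B ∨ w ∉ U))

open scoped Classical in
lemma TT_sub {U : Finset V} {a b : V → V} {A B : Finset V} : TT U a b A B ⊆ A :=
  Finset.filter_subset _ _

open scoped Classical in
lemma TT_max {U : Finset V} {a b : V → V} {A B T : Finset V} (hT : T ⊆ A)
    (h : ∀ t ∈ T, ∃ w, Out a b t w ∧ (w ∈ T ∨ w ∈ B ∨ w ∉ U)) : T ⊆ TT U a b A B := by
  intro v hv
  exact Finset.mem_filter.2 ⟨hT hv, T, hT, hv, h⟩

open scoped Classical in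
lemma TT_spec {U : Finset V} {a b : V → V} {A B : Finset V} :
    ∀ t ∈ TT U a b A B, ∃ w, Out a b t w ∧ (w ∈ TT U a b A B ∨ w ∈ B ∨ w ∉ U) := by
  intro t ht
  obtain ⟨_, T, hT, htT, h⟩ := Finset.mem_filter.1 ht
  obtain ⟨w, h1, h2⟩ := h t htT
  refine ⟨w, h1, ?_⟩
  rcases h2 with h2 | h2
  · exact Or.inl (TT_max hT h h2)
  · exact Or.inr h2

lemma TT_ins {U : Finset V} {a b : V → V} {A B : Finset V} {v w : V} (hv : v ∈ A)
    (h1 : Out a b v w) (h2 : w ∈ TT U a b A B ∨ w ∈ B ∨ w ∉ U) : v ∈ TT U a b A B := by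
  refine TT_max (T := insert v (TT U a b A B)) (Finset.insert_subset hv TT_sub) ?_
    (Finset.mem_insert_self _ _)
  intro t ht
  rcases Finset.mem_insert.1 ht with rfl | ht
  · refine ⟨w, h1, ?_⟩
    rcases h2 with h2 | h2
    · exact Or.inl (Finset.mem_insert_of_mem h2)
    · exact Or.inr h2
  · obtain ⟨w', h3, h4⟩ := TT_spec t ht
    refine ⟨w', h3, ?_⟩
    rcases h4 with h4 | h4
    · exact Or.inl (Finset.mem_insert_of_mem h4)
    · exact Or.inr h4

/-- the free vertices from which only the two segments can be reached -/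
noncomputable def HH (U : Finset V) (a b : V → V) (W W' P Q : Finset V) (e : V) : Finset V :=
  (U \ (W ∪ W')) \ (TT U a b (U \ (W ∪ W')) (W \ (insert e P)) ∪
    TT U a b (U \ (W ∪ W')) (W' \ (insert e Q)))

lemma HH_symm {U : Finset V} {a b : V → V} {W W' P Q : Finset V} {e : V} :
    HH U a b W' W Q P e = HH U a b W W' P Q e := by
  unfold HH
  rw [Finset.union_comm W' W, Finset.union_comm (TT U a b (U \ (W ∪ W')) (W' \ (insert e Q)))]

section
variable {U S : Finset V} {a b : V → V} {W W' : Finset V} (hM : Mn U S a b W W')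
  {F F' : V → V} (hF : ∀ v ∈ W, Out a b v (F v) ∧ (F v ∈ W ∨ F v ∉ U))
  (hF' : ∀ v ∈ W', Out a b v (F' v) ∧ (F' v ∈ W' ∨ F' v ∉ U))
  {c : V} (hc : c ∈ W) (hc' : c ∈ W') {P Q : Finset V} {e : V}
  (hP : Sg W W' S F c P e) (hQ : Sg W' W S F' c Q e)

include hM in
/-- out-neighbours of `HH` -/
lemma HH_out {v w : V} (hv : v ∈ HH U a b W W' P Q e) (hw : Out a b v w) :
    w ∈ P ∨ w ∈ Q ∨ w ∈ HH U a b W W' P Q e ∨ w = e := by
  unfold HH at hv
  rw [Finset.mem_sdiff, Finset.mem_union, not_or] at hv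
  obtain ⟨hvA, h1, h2⟩ := hv
  by_contra hcon
  push Not at hcon
  obtain ⟨hwP, hwQ, hwH, hwe⟩ := hcon
  by_cases hwU : w ∈ U
  · by_cases hwA : w ∈ W ∪ W'
    · rcases Finset.mem_union.1 hwA with hwW | hwW
      · exact h1 (TT_ins hvA hw (Or.inr (Or.inl (by
          rw [Finset.mem_sdiff, Finset.mem_insert, not_or]
          exact ⟨hwW, hwe, hwP⟩))))
      · exact h2 (TT_ins hvA hw (Or.inr (Or.inl (by
          rw [Finset.mem_sdiff, Finset.mem_insert, not_or]
          exact ⟨hwW, hwe, hwQ⟩))))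
    · have hwfree : w ∈ U \ (W ∪ W') := Finset.mem_sdiff.2 ⟨hwU, hwA⟩
      refine hwH ?_
      unfold HH
      rw [Finset.mem_sdiff, Finset.mem_union, not_or]
      exact ⟨hwfree, fun h => h1 (TT_ins hvA hw (Or.inl h)), fun h => h2 (TT_ins hvA hw (Or.inl h))⟩
  · exact h1 (TT_ins hvA hw (Or.inr (Or.inr hwU)))

include hM hF hF' hc hc' hP hQ in
/-- out-neighbours of the first segment -/
lemma P_out {v w : V} (hv : v ∈ P ∨ v = c) (hw : Out a b v w) :
    w ∈ P ∨ w ∈ Q ∨ w ∈ HH U a b W W' P Q e ∨ w = e := by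
  have hfreeU : (U \ (W ∪ W')) ⊆ U := Finset.sdiff_subset
  have hfreeW : ∀ x ∈ U \ (W ∪ W'), x ∉ W := fun x hx h =>
    (Finset.mem_sdiff.1 hx).2 (Finset.mem_union_left _ h)
  have hfreeW' : ∀ x ∈ U \ (W ∪ W'), x ∉ W' := fun x hx h =>
    (Finset.mem_sdiff.1 hx).2 (Finset.mem_union_right _ h)
  have h1 : ¬ (w ∈ TT U a b (U \ (W ∪ W')) (W \ (insert e P)) ∨ w ∈ W \ (insert e P) ∨ w ∉ U) := by
    intro h
    refine reroute_same hM hF hc hc' hP (T := TT U a b (U \ (W ∪ W')) (W \ (insert e P)))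
      (TT_sub.trans hfreeU) (fun x hx => hfreeW' x (TT_sub hx)) hv ?_
    rintro x (hx | rfl)
    · exact TT_spec x hx
    · exact ⟨w, hw, h⟩
  have h2 : ¬ (w ∈ TT U a b (U \ (W ∪ W')) (W' \ (insert e Q)) ∨ w ∈ W' \ (insert e Q) ∨
      w ∉ U) := by
    intro h
    refine reroute_swap hM hF hF' hc hc' hP hQ
      (T := TT U a b (U \ (W ∪ W')) (W' \ (insert e Q)))
      (TT_sub.trans hfreeU) (fun x hx => hfreeW x (TT_sub hx))
      (fun x hx => hfreeW' x (TT_sub hx)) hv ?_
    rintro x (hx | rfl)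
    · exact TT_spec x hx
    · exact ⟨w, hw, h⟩
  push Not at h1 h2
  by_contra hcon
  push Not at hcon
  obtain ⟨hwP, hwQ, hwH, hwe⟩ := hcon
  by_cases hwA : w ∈ W ∪ W'
  · rcases Finset.mem_union.1 hwA with hwW | hwW
    · exact h1.2.1 (by
        rw [Finset.mem_sdiff, Finset.mem_insert, not_or]
        exact ⟨hwW, hwe, hwP⟩)
    · exact h2.2.1 (by
        rw [Finset.mem_sdiff, Finset.mem_insert, not_or]
        exact ⟨hwW, hwe, hwQ⟩)
  · refine hwH ?_
    unfold HH
    rw [Finset.mem_sdiff, Finset.mem_union, not_or]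
    exact ⟨Finset.mem_sdiff.2 ⟨h1.2.2, hwA⟩, h1.1, h2.1⟩

end

section
variable {U S : Finset V} {a b : V → V} {W W' : Finset V} (hM : Mn U S a b W W')
  {F F' : V → V} (hF : ∀ v ∈ W, Out a b v (F v) ∧ (F v ∈ W ∨ F v ∉ U))
  (hF' : ∀ v ∈ W', Out a b v (F' v) ∧ (F' v ∈ W' ∨ F' v ∉ U))

lemma or_re1 {p q r s : Prop} (h : p ∨ q ∨ r ∨ s) : (p ∨ q ∨ s) ∨ r := by
  rcases h with h | h | h | h
  · exact Or.inl (Or.inl h)
  · exact Or.inl (Or.inr (Or.inl h))
  · exact Or.inr h
  · exact Or.inl (Or.inr (Or.inr h))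

lemma or_re2 {p q r s : Prop} (h : p ∨ q ∨ r ∨ s) : (p ∨ q ∨ r) ∨ s := by
  rcases h with h | h | h | h
  · exact Or.inl (Or.inl h)
  · exact Or.inl (Or.inr (Or.inl h))
  · exact Or.inl (Or.inr (Or.inr h))
  · exact Or.inr h

/-- the region of a doubly typical vertex -/
noncomputable def XX (U : Finset V) (a b : V → V) (W W' : Finset V) (F F' : V → V) (c : V) :
    Finset V :=
  insert c (sgm W W' F c ∪ sgm W' W F' c ∪
    HH U a b W W' (sgm W W' F c) (sgm W' W F' c) (F (lst W W' F c)))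

variable {l : ℕ} (hab : ∀ v ∈ U, a v ≠ b v)
  (hl : ∀ X ⊆ U, X.Nonempty → (∀ v ∈ X, a v ∈ X ∨ b v ∈ X) → l ≤ X.card)

include hM hF hF' in
/-- both segments of a doubly typical vertex are segments with the same end -/
lemma both_sg {c : V} (hc : c ∈ W) (hc' : c ∈ W') (h1 : Typ W W' S F c) (h2 : Typ W' W S F' c) :
    Sg W W' S F c (sgm W W' F c) (F (lst W W' F c)) ∧
      Sg W' W S F' c (sgm W' W F' c) (F (lst W W' F c)) := by
  have hP := sg_of_typ hc hc' h1
  have hQ := sg_of_typ hc' hc h2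
  have he := end_eq hM hF hF' hc hc' hP hQ
  refine ⟨hP, ?_⟩
  rw [he]
  exact hQ

include hM hF hF' in
lemma XX_out {c : V} (hc : c ∈ W) (hc' : c ∈ W') (h1 : Typ W W' S F c) (h2 : Typ W' W S F' c)
    {v w : V} (hv : v ∈ XX U a b W W' F F' c) (hw : Out a b v w) :
    w ∈ sgm W W' F c ∨ w ∈ sgm W' W F' c ∨
      w ∈ HH U a b W W' (sgm W W' F c) (sgm W' W F' c) (F (lst W W' F c)) ∨
      w = F (lst W W' F c) := by
  obtain ⟨hP, hQ⟩ := both_sg hM hF hF' hc hc' h1 h2
  unfold XX at hv
  rw [Finset.mem_insert, Finset.mem_union, Finset.mem_union] at hv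
  rcases hv with hv | (hv | hv) | hv
  · exact P_out hM hF hF' hc hc' hP hQ (Or.inr hv) hw
  · exact P_out hM hF hF' hc hc' hP hQ (Or.inl hv) hw
  · have := P_out hM.symm hF' hF hc' hc hQ hP (Or.inl hv) hw
    rw [HH_symm] at this
    rcases this with h | h | h | h
    · exact Or.inr (Or.inl h)
    · exact Or.inl h
    · exact Or.inr (Or.inr (Or.inl h))
    · exact Or.inr (Or.inr (Or.inr h))
  · exact HH_out hM hv hw

lemma XX_mem {c w : V} : w ∈ XX U a b W W' F F' c ↔ w = c ∨ w ∈ sgm W W' F c ∨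
    w ∈ sgm W' W F' c ∨
    w ∈ HH U a b W W' (sgm W W' F c) (sgm W' W F' c) (F (lst W W' F c)) := by
  unfold XX
  rw [Finset.mem_insert, Finset.mem_union, Finset.mem_union, or_assoc]

include hM in
lemma HH_free {P Q : Finset V} {e x : V} (hx : x ∈ HH U a b W W' P Q e) :
    x ∈ U ∧ x ∉ W ∧ x ∉ W' := by
  unfold HH at hx
  rw [Finset.mem_sdiff, Finset.mem_sdiff, Finset.mem_union] at hx
  exact ⟨hx.1.1, fun h => hx.1.2 (Or.inl h), fun h => hx.1.2 (Or.inr h)⟩

include hM hF hF' hab hl in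
lemma XX_card {c : V} (hc : c ∈ W) (hc' : c ∈ W') (h1 : Typ W W' S F c) (h2 : Typ W' W S F' c) :
    XX U a b W W' F F' c ⊆ U ∧ l ≤ (XX U a b W W' F F' c).card := by
  obtain ⟨hP, hQ⟩ := both_sg hM hF hF' hc hc' h1 h2
  have hsub : XX U a b W W' F F' c ⊆ U := by
    intro x hx
    rw [XX_mem] at hx
    rcases hx with rfl | hx | hx | hx
    · exact hM.pr.sub hc
    · exact hM.pr.sub (hP.PW hx)
    · exact hM.pr.sub' (hQ.PW hx)
    · exact (HH_free hM hx).1
  refine ⟨hsub, hl _ hsub ⟨c, XX_mem.2 (Or.inl rfl)⟩ ?_⟩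
  intro v hv
  have ha := XX_out hM hF hF' hc hc' h1 h2 hv (Or.inl rfl : Out a b v (a v))
  have hb := XX_out hM hF hF' hc hc' h1 h2 hv (Or.inr rfl : Out a b v (b v))
  rw [XX_mem, XX_mem]
  have hne := hab v (hsub hv)
  rcases ha with h | h | h | h
  · exact Or.inl (Or.inr (Or.inl h))
  · exact Or.inl (Or.inr (Or.inr (Or.inl h)))
  · exact Or.inl (Or.inr (Or.inr (Or.inr h)))
  · right
    rcases hb with h' | h' | h' | h'
    · exact Or.inr (Or.inl h')
    · exact Or.inr (Or.inr (Or.inl h'))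
    · exact Or.inr (Or.inr (Or.inr h'))
    · exact absurd (h.trans h'.symm) hne

include hM hF hF' in
lemma XX_disj {c d : V} (hc : c ∈ W) (hc' : c ∈ W') (h1 : Typ W W' S F c)
    (h2 : Typ W' W S F' c) (hd : d ∈ W) (hd' : d ∈ W') (h3 : Typ W W' S F d)
    (h4 : Typ W' W S F' d) (hcd : c ≠ d) :
    Disjoint (XX U a b W W' F F' c) (XX U a b W W' F F' d) := by
  obtain ⟨hP, hQ⟩ := both_sg hM hF hF' hc hc' h1 h2
  obtain ⟨hP', hQ'⟩ := both_sg hM hF hF' hd hd' h3 h4
  have hee : F (lst W W' F c) ≠ F (lst W W' F d) := by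
    intro h
    have := h3.2.2 (lst W W' F c) (lst_mem hc hc') h
    exact hcd (lst_inj hc hc' hd hd' this)
  -- the non-free parts
  have hnf : ∀ x, (x ∈ sgm W W' F c ∨ x ∈ sgm W' W F' c ∨ x = F (lst W W' F c)) →
      (x ∈ sgm W W' F d ∨ x ∈ sgm W' W F' d ∨ x = F (lst W W' F d)) → False := by
    intro x hx hy
    rcases hx with hx | hx | hx
    · rcases hy with hy | hy | hy
      · exact sgm_disjoint hc hc' hd hd' hcd hx hy
      · exact hQ'.PW' x hy (hP.PW hx)
      · exact hP.PW' x hx (by rw [hy]; exact hP'.eW')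
    · rcases hy with hy | hy | hy
      · exact hQ.PW' x hx (hP'.PW hy)
      · exact sgm_disjoint hc' hc hd' hd hcd hx hy
      · exact hQ.PW' x hx (by rw [hy]; exact hP'.eW)
    · rcases hy with hy | hy | hy
      · exact hP'.PW' x hy (by rw [hx]; exact hP.eW')
      · exact hQ'.PW' x hy (by rw [hx]; exact hP.eW)
      · exact hee (hx.symm.trans hy)
  -- the free parts
  have hfr : ∀ x, x ∈ HH U a b W W' (sgm W W' F c) (sgm W' W F' c) (F (lst W W' F c)) →
      x ∈ HH U a b W W' (sgm W W' F d) (sgm W' W F' d) (F (lst W W' F d)) → False := by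
    set J := HH U a b W W' (sgm W W' F c) (sgm W' W F' c) (F (lst W W' F c)) ∩
      HH U a b W W' (sgm W W' F d) (sgm W' W F' d) (F (lst W W' F d)) with hJ
    have hJcl : ∀ x ∈ J, a x ∈ J := by
      intro x hx
      rw [hJ, Finset.mem_inter] at hx
      have hxa := HH_out hM hx.1 (Or.inl rfl : Out a b x (a x))
      have hxb := HH_out hM hx.2 (Or.inl rfl : Out a b x (a x))
      rw [hJ, Finset.mem_inter]
      -- reorder
      have A1 : (a x ∈ sgm W W' F c ∨ a x ∈ sgm W' W F' c ∨ a x = F (lst W W' F c)) ∨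
          a x ∈ HH U a b W W' (sgm W W' F c) (sgm W' W F' c) (F (lst W W' F c)) :=
        or_re1 hxa
      have A2 : (a x ∈ sgm W W' F d ∨ a x ∈ sgm W' W F' d ∨ a x = F (lst W W' F d)) ∨
          a x ∈ HH U a b W W' (sgm W W' F d) (sgm W' W F' d) (F (lst W W' F d)) :=
        or_re1 hxb
      have B1 : (a x ∈ sgm W W' F c ∨ a x ∈ sgm W' W F' c ∨ a x = F (lst W W' F c)) →
          a x ∈ W ∨ a x ∈ W' := by
        rintro (h | h | h)
        · exact Or.inl (hP.PW h)
        · exact Or.inr (hQ.PW h)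
        · exact Or.inl (by rw [h]; exact hP.eW)
      have B2 : (a x ∈ sgm W W' F d ∨ a x ∈ sgm W' W F' d ∨ a x = F (lst W W' F d)) →
          a x ∈ W ∨ a x ∈ W' := by
        rintro (h | h | h)
        · exact Or.inl (hP'.PW h)
        · exact Or.inr (hQ'.PW h)
        · exact Or.inl (by rw [h]; exact hP'.eW)
      rcases A1 with A1 | A1
      · rcases A2 with A2 | A2
        · exact (hnf _ A1 A2).elim
        · have := HH_free hM A2
          rcases B1 A1 with h | h
          · exact absurd h this.2.1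
          · exact absurd h this.2.2
      · rcases A2 with A2 | A2
        · have := HH_free hM A1
          rcases B2 A2 with h | h
          · exact absurd h this.2.1
          · exact absurd h this.2.2
        · exact ⟨A1, A2⟩
    intro x hx hy
    have hxJ : x ∈ J := by
      rw [hJ, Finset.mem_inter]
      exact ⟨hx, hy⟩
    have hJsub : J ⊆ U \ (W ∪ W') := by
      intro y hy
      rw [hJ, Finset.mem_inter] at hy
      unfold HH at hy
      exact (Finset.mem_sdiff.1 hy.1).1
    have hJT : J ⊆ TT U a b (U \ (W ∪ W'))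
        (W \ (insert (F (lst W W' F c)) (sgm W W' F c))) :=
      TT_max hJsub (fun t ht => ⟨a t, Or.inl rfl, Or.inl (hJcl t ht)⟩)
    have := hJT hxJ
    unfold HH at hx
    exact (Finset.mem_sdiff.1 hx).2 (Finset.mem_union_left _ this)
  rw [Finset.disjoint_left]
  intro x hx hy
  rw [XX_mem] at hx hy
  have key : ∀ y, y = c ∨ y ∈ sgm W W' F c ∨ y ∈ sgm W' W F' c → y ∈ W ∨ y ∈ W' := by
    rintro y (rfl | h | h)
    · exact Or.inl hc
    · exact Or.inl (hP.PW h)
    · exact Or.inr (hQ.PW h)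
  have key' : ∀ y, y = d ∨ y ∈ sgm W W' F d ∨ y ∈ sgm W' W F' d → y ∈ W ∨ y ∈ W' := by
    rintro y (rfl | h | h)
    · exact Or.inl hd
    · exact Or.inl (hP'.PW h)
    · exact Or.inr (hQ'.PW h)
  have hx' : (x = c ∨ x ∈ sgm W W' F c ∨ x ∈ sgm W' W F' c) ∨
    x ∈ HH U a b W W' (sgm W W' F c) (sgm W' W F' c) (F (lst W W' F c)) := or_re2 hx
  have hy' : (x = d ∨ x ∈ sgm W W' F d ∨ x ∈ sgm W' W F' d) ∨
    x ∈ HH U a b W W' (sgm W W' F d) (sgm W' W F' d) (F (lst W W' F d)) := or_re2 hy
  rcases hx' with hx' | hx'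
  · rcases hy' with hy' | hy'
    · rcases hx' with rfl | hx' | hx'
      · rcases hy' with h | h | h
        · exact hcd h
        · exact hP'.PW' x h hc'
        · exact hQ'.PW' x h hc
      · rcases hy' with rfl | h | h
        · exact hP.PW' x hx' hd'
        · exact sgm_disjoint hc hc' hd hd' hcd hx' h
        · exact hQ'.PW' x h (hP.PW hx')
      · rcases hy' with rfl | h | h
        · exact hQ.PW' x hx' hd
        · exact hQ.PW' x hx' (hP'.PW h)
        · exact sgm_disjoint hc' hc hd' hd hcd hx' h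
    · have := HH_free hM hy'
      rcases key x hx' with h | h
      · exact this.2.1 h
      · exact this.2.2 h
  · rcases hy' with hy' | hy'
    · have := HH_free hM hx'
      rcases key' x hy' with h | h
      · exact this.2.1 h
      · exact this.2.2 h
    · exact hfr x hx' hy'

end

/-- one side: few vertices of the intersection are not typical, few vertices lead outside -/
lemma side_count {U S : Finset V} {a b : V → V} {W W' : Finset V} (hM : Mn U S a b W W')
    {F : V → V} (hF : ∀ v ∈ W, Out a b v (F v) ∧ (F v ∈ W ∨ F v ∉ U)) :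
    (∀ D : Finset V, (∀ c ∈ D, c ∈ W ∧ c ∈ W' ∧ ¬ Typ W W' S F c) → D.card ≤ 2 * S.card) ∧
    (W.filter (fun v => a v ∉ U ∧ b v ∉ U)).card ≤ 2 * S.card := by
  classical
  have hb := count_bad hM.pr.S1 (hM.pre hF)
  constructor
  · intro D hD
    refine le_trans ?_ hb
    refine Finset.card_le_card_of_injOn (lst W W' F) ?_ ?_
    · intro c hc
      obtain ⟨h1, h2, h3⟩ := hD c hc
      rw [Finset.mem_coe, Finset.mem_filter]
      exact ⟨lst_mem h1 h2, h3⟩
    · intro c hc d hd h
      obtain ⟨h1, h2, _⟩ := hD c hc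
      obtain ⟨h3, h4, _⟩ := hD d hd
      exact lst_inj h1 h2 h3 h4 h
  · refine le_trans (Finset.card_le_card ?_) hb
    intro v hv
    rw [Finset.mem_filter] at hv ⊢
    refine ⟨hv.1, ?_⟩
    rintro ⟨h1, _, _⟩
    obtain ⟨h2, _⟩ := hF v hv.1
    rcases h2 with h2 | h2
    · exact hv.2.1 (by rw [h2]; exact hM.pr.sub h1)
    · exact hv.2.2 (by rw [h2]; exact hM.pr.sub h1)

/-- **the closure lemma** -/
theorem closure_lemma {V : Type*} [DecidableEq V] (U : Finset V) (a b : V → V)
    (hab : ∀ v ∈ U, a v ≠ b v) (S : Finset V) (hS : S ⊆ U) (l : ℕ)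
    (hl : ∀ X ⊆ U, X.Nonempty → (∀ v ∈ X, a v ∈ X ∨ b v ∈ X) → l ≤ X.card) :
    ∃ W ⊆ U, S ⊆ W ∧ (∀ v ∈ W, (a v ∈ W ∨ a v ∉ U) ∨ (b v ∈ W ∨ b v ∉ U)) ∧
      ∃ t : ℕ, 2 * W.card + (U.filter (fun v => a v ∉ U ∧ b v ∉ U)).card
        ≤ U.card + 8 * S.card + t ∧ t * l ≤ U.card := by
  classical
  -- the whole set is closed
  have hU : Cl U a b U := fun v _ => ⟨a v, Or.inl rfl, em _⟩
  obtain ⟨W, W', hM⟩ := exists_mn (⟨le_rfl, le_rfl, hS, hS, hU, hU⟩ : Pr U S a b U U)
  obtain ⟨F, hF⟩ := exists_choice hM.pr.cl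
  obtain ⟨F', hF'⟩ := exists_choice hM.pr.cl'
  -- the typical vertices
  set D := W ∩ W' with hD
  set T := D.filter (fun c => Typ W W' S F c ∧ Typ W' W S F' c) with hT
  have hTm : ∀ c ∈ T, c ∈ W ∧ c ∈ W' ∧ Typ W W' S F c ∧ Typ W' W S F' c := by
    intro c hc
    rw [hT, Finset.mem_filter, hD, Finset.mem_inter] at hc
    exact ⟨hc.1.1, hc.1.2, hc.2⟩
  have hTl : T.card * l ≤ U.card := by
    have h1 : (T.biUnion (fun c => XX U a b W W' F F' c)).card =
        ∑ c ∈ T, (XX U a b W W' F F' c).card := by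
      refine Finset.card_biUnion ?_
      intro c hc d hd hcd
      obtain ⟨h1, h2, h3, h4⟩ := hTm c hc
      obtain ⟨h5, h6, h7, h8⟩ := hTm d hd
      exact XX_disj hM hF hF' h1 h2 h3 h4 h5 h6 h7 h8 hcd
    have h2 : T.biUnion (fun c => XX U a b W W' F F' c) ⊆ U := by
      intro x hx
      obtain ⟨c, hc, hx⟩ := Finset.mem_biUnion.1 hx
      obtain ⟨h1, h2, h3, h4⟩ := hTm c hc
      exact (XX_card hM hF hF' hab hl h1 h2 h3 h4).1 hx
    have h3 : ∑ _c ∈ T, l ≤ ∑ c ∈ T, (XX U a b W W' F F' c).card := by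
      refine Finset.sum_le_sum ?_
      intro c hc
      obtain ⟨h1, h2, h3, h4⟩ := hTm c hc
      exact (XX_card hM hF hF' hab hl h1 h2 h3 h4).2
    rw [Finset.sum_const, smul_eq_mul] at h3
    have h4 := Finset.card_le_card h2
    omega
  obtain ⟨n1, n2⟩ := side_count hM hF
  obtain ⟨n3, n4⟩ := side_count hM.symm hF'
  have hDc : D.card ≤ T.card + 4 * S.card := by
    have h1 : (D.filter (fun c => ¬ Typ W W' S F c)).card ≤ 2 * S.card := by
      refine n1 _ ?_
      intro c hc
      rw [Finset.mem_filter, hD, Finset.mem_inter] at hc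
      exact ⟨hc.1.1, hc.1.2, hc.2⟩
    have h2 : (D.filter (fun c => ¬ Typ W' W S F' c)).card ≤ 2 * S.card := by
      refine n3 _ ?_
      intro c hc
      rw [Finset.mem_filter, hD, Finset.mem_inter] at hc
      exact ⟨hc.1.2, hc.1.1, hc.2⟩
    have h3 : D ⊆ T ∪ (D.filter (fun c => ¬ Typ W W' S F c) ∪
        D.filter (fun c => ¬ Typ W' W S F' c)) := by
      intro c hc
      rw [Finset.mem_union, Finset.mem_union, hT, Finset.mem_filter, Finset.mem_filter,
        Finset.mem_filter]
      by_cases e1 : Typ W W' S F c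
      · by_cases e2 : Typ W' W S F' c
        · exact Or.inl ⟨hc, e1, e2⟩
        · exact Or.inr (Or.inr ⟨hc, e2⟩)
      · exact Or.inr (Or.inl ⟨hc, e1⟩)
    have h4 := Finset.card_le_card h3
    have h5 := Finset.card_union_le T (D.filter (fun c => ¬ Typ W W' S F c) ∪
        D.filter (fun c => ¬ Typ W' W S F' c))
    have h6 := Finset.card_union_le (D.filter (fun c => ¬ Typ W W' S F c))
        (D.filter (fun c => ¬ Typ W' W S F' c))
    omega
  -- the size of the union
  have hun : (W ∪ W').card + (U.filter (fun v => a v ∉ U ∧ b v ∉ U)).card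
      ≤ U.card + 4 * S.card := by
    set Z := U.filter (fun v => a v ∉ U ∧ b v ∉ U) with hZ
    have h1 : W ∪ W' ⊆ (U \ Z) ∪ (W.filter (fun v => a v ∉ U ∧ b v ∉ U) ∪
        W'.filter (fun v => a v ∉ U ∧ b v ∉ U)) := by
      intro x hx
      simp only [Finset.mem_union, Finset.mem_sdiff, Finset.mem_filter, hZ]
      have hxU : x ∈ U := by
        rcases Finset.mem_union.1 hx with h | h
        · exact hM.pr.sub h
        · exact hM.pr.sub' h
      by_cases e1 : a x ∉ U ∧ b x ∉ U
      · rcases Finset.mem_union.1 hx with h | h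
        · exact Or.inr (Or.inl ⟨h, e1⟩)
        · exact Or.inr (Or.inr ⟨h, e1⟩)
      · exact Or.inl ⟨hxU, fun h => e1 h.2⟩
    have h2 := Finset.card_le_card h1
    have h3 := Finset.card_union_le (U \ Z) (W.filter (fun v => a v ∉ U ∧ b v ∉ U) ∪
        W'.filter (fun v => a v ∉ U ∧ b v ∉ U))
    have h4 := Finset.card_union_le (W.filter (fun v => a v ∉ U ∧ b v ∉ U))
        (W'.filter (fun v => a v ∉ U ∧ b v ∉ U))
    have h5 : (U \ Z).card + Z.card = U.card :=
      Finset.card_sdiff_add_card_eq_card (Finset.filter_subset _ _)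
    omega
  have hsum : (W ∪ W').card + D.card = W.card + W'.card := Finset.card_union_add_card_inter W W'
  have hgood : ∀ {X : Finset V}, Cl U a b X →
      ∀ v ∈ X, (a v ∈ X ∨ a v ∉ U) ∨ (b v ∈ X ∨ b v ∉ U) := by
    intro X hX v hv
    obtain ⟨w, h1, h2⟩ := hX v hv
    rcases h1 with h1 | h1
    · left
      rw [h1]
      exact h2
    · right
      rw [h1]
      exact h2
  rcases Nat.le_total W.card W'.card with h | h
  · refine ⟨W, hM.pr.sub, hM.pr.S1, hgood hM.pr.cl, T.card, ?_, hTl⟩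
    omega
  · refine ⟨W', hM.pr.sub', hM.pr.S2, hgood hM.pr.cl', T.card, ?_, hTl⟩
    omega

end Pool.Agent.H25.RG3
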