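import Pool.Agent.H25.RG3.Bridge

set_option autoImplicit false

/-! # Contraction of an edge, and colourings with few monochromatic pairs -/

namespace Pool.Agent.H25.RG3

/-- the degree in an injective image of a set of edges -/
lemma card_filter_image {V V' : Type*} [DecidableEq V] [DecidableEq V'] {g : V → V'}
    {D : Finset (Sym2 V)} (hinj : Set.InjOn (Sym2.map g) D) (w : V') :
    ((D.image (Sym2.map g)).filter (fun e => w ∈ e)).card
      = (D.filter (fun e => w ∈ Sym2.map g e)).card := by
  rw [Finset.filter_image]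
  apply Finset.card_image_of_injOn
  apply hinj.mono
  intro e he
  exact (Finset.mem_filter.mp (Finset.mem_coe.mp he)).1

/-- a core of the contracted graph gives a core with one more edge -/
lemma core_of_contract {V V' : Type*} [DecidableEq V] [DecidableEq V'] {g : V → V'} {u v : V}
    (huv : u ≠ v)
    (hg : ∀ x y, g x = g y → x = y ∨ (x = u ∧ y = v) ∨ (x = v ∧ y = u)) (hguv : g u = g v)
    {E D : Finset (Sym2 V)} (huvE : s(u, v) ∈ E) (hD : D ⊆ E) (hDuv : s(u, v) ∉ D)
    (hinj : Set.InjOn (Sym2.map g) D) {L : ℕ} (hne : D.Nonempty) (hcard : D.card ≤ L)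
    (hdeg : ∀ w : V', ((D.image (Sym2.map g)).filter (fun e => w ∈ e)).card ≠ 1) :
    Core E (L + 1) := by
  have hx : ∀ x, x ≠ u → x ≠ v → (D.filter (fun e => x ∈ e)).card ≠ 1 := by
    intro x hxu hxv
    have h1 := hdeg (g x)
    rw [card_filter_image hinj] at h1
    have h2 : D.filter (fun e => g x ∈ Sym2.map g e) = D.filter (fun e => x ∈ e) := by
      apply Finset.filter_congr
      intro e _
      rw [Sym2.mem_map]
      constructor
      · rintro ⟨y, hy, hyx⟩
        rcases hg y x hyx with h | ⟨_, h⟩ | ⟨_, h⟩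
        · rwa [h] at hy
        · exact absurd h hxv
        · exact absurd h hxu
      · intro hx
        exact ⟨x, hx, rfl⟩
    rwa [h2] at h1
  have hsum : (D.filter (fun e => u ∈ e)).card + (D.filter (fun e => v ∈ e)).card ≠ 1 := by
    have h1 := hdeg (g u)
    rw [card_filter_image hinj] at h1
    have h2 : D.filter (fun e => g u ∈ Sym2.map g e)
        = D.filter (fun e => u ∈ e) ∪ D.filter (fun e => v ∈ e) := by
      rw [← Finset.filter_or]
      apply Finset.filter_congr
      intro e _
      rw [Sym2.mem_map]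
      constructor
      · rintro ⟨y, hy, hyu⟩
        rcases hg y u hyu with h | ⟨h, _⟩ | ⟨h, _⟩
        · left
          rwa [h] at hy
        · left
          rwa [h] at hy
        · right
          rwa [h] at hy
      · rintro (h | h)
        · exact ⟨u, h, rfl⟩
        · exact ⟨v, h, hguv.symm⟩
    rw [h2, Finset.card_union_of_disjoint] at h1
    · exact h1
    · rw [Finset.disjoint_left]
      intro e he1 he2
      rw [Finset.mem_filter] at he1 he2
      have : e = s(u, v) := (Sym2.mem_and_mem_iff huv).mp ⟨he1.2, he2.2⟩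
      rw [this] at he1
      exact hDuv he1.1
  by_cases hab : (D.filter (fun e => u ∈ e)).card ≠ 1 ∧ (D.filter (fun e => v ∈ e)).card ≠ 1
  · refine ⟨D, hD, hne, by omega, ?_⟩
    intro x
    by_cases hxu : x = u
    · rw [hxu]
      exact hab.1
    by_cases hxv : x = v
    · rw [hxv]
      exact hab.2
    exact hx x hxu hxv
  · refine ⟨insert s(u, v) D, ?_, Finset.insert_nonempty _ _, ?_, ?_⟩
    · rw [Finset.insert_subset_iff]
      exact ⟨huvE, hD⟩
    · rw [Finset.card_insert_of_notMem hDuv]
      omega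
    · intro x
      rw [Finset.filter_insert]
      by_cases hxu : x = u
      · subst hxu
        rw [if_pos (Sym2.mem_mk_left _ _), Finset.card_insert_of_notMem
          (fun h => hDuv (Finset.mem_filter.mp h).1)]
        intro h
        have h0 : (D.filter (fun e => x ∈ e)).card = 0 := by omega
        apply hab
        constructor <;> omega
      by_cases hxv : x = v
      · subst hxv
        rw [if_pos (Sym2.mem_mk_right _ _), Finset.card_insert_of_notMem
          (fun h => hDuv (Finset.mem_filter.mp h).1)]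
        intro h
        have h0 : (D.filter (fun e => x ∈ e)).card = 0 := by omega
        apply hab
        constructor <;> omega
      have hn : x ∉ s(u, v) := by
        rw [Sym2.mem_iff]
        rintro (h | h)
        · exact hxu h
        · exact hxv h
      rw [if_neg hn]
      exact hx x hxu hxv

/-- a graph with a prescribed number of edges -/
lemma exists_graph_edges {N m : ℕ} (hm : m ≤ N.choose 2) :
    ∃ H : SimpleGraph (Fin N), H.edgeSet.ncard = m := by
  classical
  have h1 : (⊤ : SimpleGraph (Fin N)).edgeFinset.card = N.choose 2 := by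
    rw [SimpleGraph.card_edgeFinset_top_eq_card_choose_two, Fintype.card_fin]
  obtain ⟨s, hs, hsc⟩ := Finset.exists_subset_card_eq (hm.trans h1.ge)
  refine ⟨SimpleGraph.fromEdgeSet (s : Set (Sym2 (Fin N))), ?_⟩
  have h2 : (SimpleGraph.fromEdgeSet (s : Set (Sym2 (Fin N)))).edgeSet = (s : Set _) := by
    rw [SimpleGraph.edgeSet_fromEdgeSet]
    ext e
    simp only [Set.mem_sdiff, Finset.mem_coe]
    constructor
    · exact fun h => h.1
    · intro h
      refine ⟨h, ?_⟩
      have := hs h
      rw [SimpleGraph.mem_edgeFinset] at this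
      exact (⊤ : SimpleGraph (Fin N)).not_isDiag_of_mem_edgeSet this
  rw [h2, Set.ncard_coe_finset, hsc]

/-- `g(N+1,k) ≤ g(N,k) + 1` -/
theorem exists_contract {N k : ℕ} (hN : N + k ≤ N.choose 2) (H : SimpleGraph (Fin (N + 1)))
    (hH : H.edgeSet.ncard = N + 1 + k) :
    ∃ H' : SimpleGraph (Fin N), H'.edgeSet.ncard = N + k ∧ H.egirth ≤ H'.egirth + 1 := by
  classical
  by_cases h3 : H.egirth ≤ ((3 : ℕ) : ℕ∞)
  · obtain ⟨H', hH'⟩ := exists_graph_edges hN
    refine ⟨H', hH', h3.trans ?_⟩
    have h1 : (3 : ℕ∞) ≤ H'.egirth := SimpleGraph.three_le_egirth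
    calc ((3 : ℕ) : ℕ∞) = 3 := rfl
      _ ≤ H'.egirth := h1
      _ ≤ H'.egirth + 1 := le_self_add
  rw [egirth_le_iff_core] at h3
  have hE : H.edgeFinset.card = N + 1 + k := by
    rw [← hH, ← SimpleGraph.coe_edgeFinset, Set.ncard_coe_finset]
  have hEne : H.edgeFinset.Nonempty := by
    rw [← Finset.card_pos]
    omega
  obtain ⟨e, he⟩ := hEne
  induction e with
  | _ u v =>
  have hadj : H.Adj u v := by
    rwa [SimpleGraph.mem_edgeFinset, SimpleGraph.mem_edgeSet] at he
  have huv : u ≠ v := hadj.ne
  -- the contraction map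
  let φ := (finSuccAboveEquiv v).symm
  let g : Fin (N + 1) → Fin N := fun x =>
    if h : x = v then φ ⟨u, huv⟩ else φ ⟨x, h⟩
  have hgv : g v = φ ⟨u, huv⟩ := by simp [g]
  have hgn : ∀ x (h : x ≠ v), g x = φ ⟨x, h⟩ := by
    intro x h
    simp [g, h]
  have hguv : g u = g v := by rw [hgv, hgn u huv]
  have hinj0 : ∀ x y, x ≠ v → y ≠ v → g x = g y → x = y := by
    intro x y hx hy h
    rw [hgn x hx, hgn y hy] at h
    have := φ.injective h
    exact congrArg Subtype.val this
  have hg : ∀ x y, g x = g y → x = y ∨ (x = u ∧ y = v) ∨ (x = v ∧ y = u) := by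
    intro x y h
    by_cases hx : x = v
    · by_cases hy : y = v
      · left
        rw [hx, hy]
      · right
        right
        refine ⟨hx, ?_⟩
        rw [hx, ← hguv] at h
        exact (hinj0 u y huv hy h).symm
    · by_cases hy : y = v
      · right
        left
        refine ⟨?_, hy⟩
        rw [hy, ← hguv] at h
        exact hinj0 x u hx huv h
      · left
        exact hinj0 x y hx hy h
  -- no common neighbours
  have hcn : ∀ w, H.Adj u w → H.Adj v w → False := by
    intro w h1 h2
    apply h3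
    have hw1 : w ≠ u := h1.ne'
    have hw2 : w ≠ v := h2.ne'
    rw [← egirth_le_iff_core]
    have hc : (SimpleGraph.Walk.cons hadj (SimpleGraph.Walk.cons h2
        (SimpleGraph.Walk.cons h1.symm SimpleGraph.Walk.nil))).IsCycle := by
      rw [SimpleGraph.Walk.isCycle_def]
      refine ⟨?_, by simp, ?_⟩
      · rw [SimpleGraph.Walk.isTrail_def]
        simp [huv, hw1, huv.symm, hw1.symm, hw2.symm]
      · simp [hw1, huv.symm, hw2.symm]
    exact SimpleGraph.egirth_le_length hc
  set D : Finset (Sym2 (Fin (N + 1))) := H.edgeFinset.erase s(u, v) with hDdef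
  have hDE : D ⊆ H.edgeFinset := Finset.erase_subset _ _
  have hDuv : s(u, v) ∉ D := Finset.notMem_erase _ _
  have hDadj : ∀ a b, s(a, b) ∈ D → H.Adj a b := by
    intro a b h
    have := hDE h
    rwa [SimpleGraph.mem_edgeFinset, SimpleGraph.mem_edgeSet] at this
  -- key: equal images at one end
  have hkey : ∀ a b c d, s(a, b) ∈ D → s(c, d) ∈ D → g a = g c → g b = g d →
      s(a, b) = s(c, d) := by
    intro a b c d h1 h2 hac hbd
    have ha1 := hDadj _ _ h1
    have ha2 := hDadj _ _ h2
    rcases hg a c hac with rfl | ⟨rfl, rfl⟩ | ⟨rfl, rfl⟩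
    · rcases hg b d hbd with rfl | ⟨rfl, rfl⟩ | ⟨rfl, rfl⟩
      · rfl
      · exact (hcn a ha1.symm ha2.symm).elim
      · exact (hcn a ha2.symm ha1.symm).elim
    · rcases hg b d hbd with rfl | ⟨rfl, rfl⟩ | ⟨rfl, rfl⟩
      · exact (hcn b ha1 ha2).elim
      · exact absurd rfl ha1.ne
      · exact absurd h1 hDuv
    · rcases hg b d hbd with rfl | ⟨rfl, rfl⟩ | ⟨rfl, rfl⟩
      · exact (hcn b ha2 ha1).elim
      · exact absurd h2 hDuv
      · exact absurd rfl ha1.ne
  have hinj : Set.InjOn (Sym2.map g) D := by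
    intro e1 h1 e2 h2 h
    induction e1 with
    | _ a b =>
    induction e2 with
    | _ c d =>
    rw [Sym2.map_mk, Sym2.map_mk] at h
    rcases Sym2.eq_iff.mp h with ⟨h4, h5⟩ | ⟨h4, h5⟩
    · exact hkey a b c d h1 h2 h4 h5
    · rw [Sym2.eq_swap (a := c) (b := d)]
      rw [Finset.mem_coe, Sym2.eq_swap] at h2
      exact hkey a b d c h1 h2 h4 h5
  have hnd : ∀ e ∈ D.image (Sym2.map g), ¬ e.IsDiag := by
    intro e he'
    obtain ⟨d, hd, rfl⟩ := Finset.mem_image.mp he'
    induction d with
    | _ a b =>
    rw [Sym2.map_mk, Sym2.mk_isDiag_iff]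
    intro h
    have hab := (hDadj _ _ hd).ne
    rcases hg a b h with h | ⟨rfl, rfl⟩ | ⟨rfl, rfl⟩
    · exact hab h
    · exact hDuv hd
    · rw [Sym2.eq_swap] at hd
      exact hDuv hd
  let H' : SimpleGraph (Fin N) := SimpleGraph.fromEdgeSet
    ((D.image (Sym2.map g) : Finset (Sym2 (Fin N))) : Set (Sym2 (Fin N)))
  have hH'E : H'.edgeSet = ((D.image (Sym2.map g) : Finset (Sym2 (Fin N))) : Set _) := by
    change (SimpleGraph.fromEdgeSet _).edgeSet = _
    rw [SimpleGraph.edgeSet_fromEdgeSet]
    ext e
    simp only [Set.mem_sdiff, Finset.mem_coe]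
    constructor
    · exact fun h => h.1
    · intro h
      exact ⟨h, hnd e h⟩
  have hH'F : H'.edgeFinset = D.image (Sym2.map g) := by
    apply Finset.coe_injective
    rw [SimpleGraph.coe_edgeFinset, hH'E]
  refine ⟨H', ?_, ?_⟩
  · rw [hH'E, Set.ncard_coe_finset, Finset.card_image_of_injOn hinj, hDdef,
      Finset.card_erase_of_mem he, hE]
    omega
  · by_cases ht : H'.egirth = ⊤
    · rw [ht]
      exact le_top
    · obtain ⟨L, hL⟩ := ENat.ne_top_iff_exists.mp ht
      rw [← hL]
      have h1 : H.egirth ≤ ((L + 1 : ℕ) : ℕ∞) := by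
        rw [egirth_le_iff_core]
        have h2 : Core H'.edgeFinset L := by
          rw [← egirth_le_iff_core, hL]
        rw [hH'F] at h2
        obtain ⟨C, hC, hne, hcard, hdeg⟩ := h2
        obtain ⟨F, hF, rfl⟩ := Finset.subset_image_iff.mp hC
        have hF' : F ⊆ D := by exact_mod_cast hF
        have hinjF : Set.InjOn (Sym2.map g) F := hinj.mono (by exact_mod_cast hF')
        rw [Finset.card_image_of_injOn hinjF] at hcard
        exact core_of_contract huv hg hguv he (hF'.trans hDE) (fun h => hDuv (hF' h)) hinjF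
          (Finset.image_nonempty.mp hne) hcard hdeg
      exact_mod_cast h1

/-- the greedy step: colours on a finite set of vertices -/
lemma exists_colouring_on {V : Type*} [DecidableEq V] {ι : Type*} (P : Finset ι) (x y : ι → V)
    (hxy : ∀ p ∈ P, x p ≠ y p) (r : ℕ) (hr : 1 ≤ r) (W : Finset V) :
    ∃ h : V → Fin r, r * (P.filter (fun p => (x p ∈ W ∧ y p ∈ W) ∧ h (x p) = h (y p))).card
      ≤ (P.filter (fun p => x p ∈ W ∧ y p ∈ W)).card := by
  classical
  induction W using Finset.induction_on with
  | empty =>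
    refine ⟨fun _ => ⟨0, hr⟩, ?_⟩
    simp
  | insert w W hw ih =>
    obtain ⟨h, hh⟩ := ih
    -- the pairs with one end `w` and the other end in `W`
    set Q := P.filter (fun p => (x p = w ∧ y p ∈ W) ∨ (y p = w ∧ x p ∈ W)) with hQ
    let o : ι → V := fun p => if x p = w then y p else x p
    have hex : ∃ c : Fin r, r * (Q.filter (fun p => h (o p) = c)).card ≤ Q.card := by
      by_contra hcon
      push Not at hcon
      have h1 : ∑ c : Fin r, (Q.filter (fun p => h (o p) = c)).card = Q.card := by
        rw [← Finset.card_eq_sum_card_fiberwise (f := fun p => h (o p)) (t := Finset.univ)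
          (by intro p _; exact Finset.mem_coe.mpr (Finset.mem_univ _))]
      have h2 : ∑ c : Fin r, Q.card < ∑ c : Fin r, r * (Q.filter (fun p => h (o p) = c)).card := by
        apply Finset.sum_lt_sum_of_nonempty
        · exact ⟨⟨0, hr⟩, Finset.mem_univ _⟩
        · intro c _
          exact hcon c
      rw [← Finset.mul_sum, h1] at h2
      simp at h2
    obtain ⟨c, hc⟩ := hex
    refine ⟨Function.update h w c, ?_⟩
    have hsplit1 : P.filter (fun p => (x p ∈ insert w W ∧ y p ∈ insert w W) ∧
        Function.update h w c (x p) = Function.update h w c (y p))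
        ⊆ P.filter (fun p => (x p ∈ W ∧ y p ∈ W) ∧ h (x p) = h (y p))
          ∪ Q.filter (fun p => h (o p) = c) := by
      intro p hp
      rw [Finset.mem_filter] at hp
      obtain ⟨hpP, ⟨h1, h2⟩, h3⟩ := hp
      rw [Finset.mem_insert] at h1 h2
      rw [Finset.mem_union, Finset.mem_filter, Finset.mem_filter, hQ, Finset.mem_filter]
      by_cases hxw : x p = w
      · by_cases hyw : y p = w
        · exact absurd (hxw.trans hyw.symm) (hxy p hpP)
        · right
          have h4 : y p ∈ W := h2.resolve_left hyw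
          refine ⟨⟨hpP, Or.inl ⟨hxw, h4⟩⟩, ?_⟩
          rw [hxw, Function.update_self, Function.update_of_ne hyw] at h3
          simp [o, hxw, h3]
      · have h5 : x p ∈ W := h1.resolve_left hxw
        by_cases hyw : y p = w
        · right
          refine ⟨⟨hpP, Or.inr ⟨hyw, h5⟩⟩, ?_⟩
          rw [hyw, Function.update_self, Function.update_of_ne hxw] at h3
          simp [o, hxw, h3]
        · left
          have h4 : y p ∈ W := h2.resolve_left hyw
          rw [Function.update_of_ne hyw, Function.update_of_ne hxw] at h3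
          exact ⟨hpP, ⟨h5, h4⟩, h3⟩
    have hsplit2 : P.filter (fun p => x p ∈ W ∧ y p ∈ W) ∪ Q
        ⊆ P.filter (fun p => x p ∈ insert w W ∧ y p ∈ insert w W) := by
      intro p hp
      rw [Finset.mem_union, Finset.mem_filter, hQ, Finset.mem_filter] at hp
      rw [Finset.mem_filter]
      rcases hp with ⟨h1, h2, h3⟩ | ⟨h1, ⟨h2, h3⟩ | ⟨h2, h3⟩⟩
      · exact ⟨h1, Finset.mem_insert_of_mem h2, Finset.mem_insert_of_mem h3⟩
      · exact ⟨h1, by rw [h2]; exact Finset.mem_insert_self _ _, Finset.mem_insert_of_mem h3⟩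
      · exact ⟨h1, Finset.mem_insert_of_mem h3, by rw [h2]; exact Finset.mem_insert_self _ _⟩
    have hdisj : Disjoint (P.filter (fun p => x p ∈ W ∧ y p ∈ W)) Q := by
      rw [Finset.disjoint_left]
      intro p h1 h2
      rw [Finset.mem_filter] at h1
      rw [hQ, Finset.mem_filter] at h2
      rcases h2 with ⟨_, ⟨h3, _⟩ | ⟨h3, _⟩⟩
      · rw [h3] at h1
        exact hw h1.2.1
      · rw [h3] at h1
        exact hw h1.2.2
    calc r * (P.filter (fun p => (x p ∈ insert w W ∧ y p ∈ insert w W) ∧
        Function.update h w c (x p) = Function.update h w c (y p))).card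
        ≤ r * ((P.filter (fun p => (x p ∈ W ∧ y p ∈ W) ∧ h (x p) = h (y p))).card
          + (Q.filter (fun p => h (o p) = c)).card) :=
          Nat.mul_le_mul_left _ ((Finset.card_le_card hsplit1).trans (Finset.card_union_le _ _))
      _ = r * (P.filter (fun p => (x p ∈ W ∧ y p ∈ W) ∧ h (x p) = h (y p))).card
          + r * (Q.filter (fun p => h (o p) = c)).card := Nat.mul_add _ _ _
      _ ≤ (P.filter (fun p => x p ∈ W ∧ y p ∈ W)).card + Q.card := Nat.add_le_add hh hc
      _ = (P.filter (fun p => x p ∈ W ∧ y p ∈ W) ∪ Q).card :=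
          (Finset.card_union_of_disjoint hdisj).symm
      _ ≤ _ := Finset.card_le_card hsplit2

/-- a colouring with few monochromatic pairs -/
theorem exists_colouring {V : Type*} [DecidableEq V] {ι : Type*} (P : Finset ι) (x y : ι → V)
    (hxy : ∀ p ∈ P, x p ≠ y p) (r : ℕ) (hr : 1 ≤ r) :
    ∃ h : V → Fin r, r * (P.filter (fun p => h (x p) = h (y p))).card ≤ P.card := by
  classical
  obtain ⟨h, hh⟩ := exists_colouring_on P x y hxy r hr (P.image x ∪ P.image y)
  have h1 : ∀ p ∈ P, x p ∈ P.image x ∪ P.image y ∧ y p ∈ P.image x ∪ P.image y := by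
    intro p hp
    exact ⟨Finset.mem_union_left _ (Finset.mem_image_of_mem _ hp),
      Finset.mem_union_right _ (Finset.mem_image_of_mem _ hp)⟩
  refine ⟨h, ?_⟩
  have h2 : P.filter (fun p => h (x p) = h (y p)) = P.filter (fun p =>
      (x p ∈ P.image x ∪ P.image y ∧ y p ∈ P.image x ∪ P.image y) ∧ h (x p) = h (y p)) := by
    apply Finset.filter_congr
    intro p hp
    constructor
    · exact fun h3 => ⟨h1 p hp, h3⟩
    · exact fun h3 => h3.2
  rw [h2]
  exact hh.trans (Finset.card_filter_le _ _)

end Pool.Agent.H25.RG3
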