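import Mathlib

set_option autoImplicit false

/-! # Short cores: common definitions for the halving theorem `2 f(n,n+k) ≤ g(n+Ck,k)`

A *core* is a nonempty finite set of edges without vertices of degree one; a graph has a cycle of
length at most `L` iff it has a core with at most `L` edges. -/

namespace Pool.Agent.H25.RG3

/-- all edges of `E` are non-loops with both ends in `W` -/
def In {V : Type*} (W : Finset V) (E : Finset (Sym2 V)) : Prop :=
  ∀ e ∈ E, ¬ e.IsDiag ∧ ∀ v ∈ e, v ∈ W

/-- `E` contains a nonempty set of at most `L` edges without vertices of degree one -/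
def Core {V : Type*} [DecidableEq V] (E : Finset (Sym2 V)) (L : ℕ) : Prop :=
  ∃ C ⊆ E, C.Nonempty ∧ C.card ≤ L ∧ ∀ v : V, (C.filter (fun e => v ∈ e)).card ≠ 1

/-- every graph with at most `N` vertices and excess at least `k` has a core with at most `L`
edges -/
def Dense (N k L : ℕ) : Prop :=
  ∀ (V : Type) [DecidableEq V] (W : Finset V) (E : Finset (Sym2 V)),
    In W E → W.card ≤ N → W.card + k ≤ E.card → Core E L

lemma Core.mono {V : Type*} [DecidableEq V] {E E' : Finset (Sym2 V)} {L L' : ℕ}
    (h : Core E L) (hE : E ⊆ E') (hL : L ≤ L') : Core E' L' := by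
  obtain ⟨C, h1, h2, h3, h4⟩ := h
  exact ⟨C, h1.trans hE, h2, h3.trans hL, h4⟩

end Pool.Agent.H25.RG3
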