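import Pool.Agent.H25.RG3.Bridge

set_option autoImplicit false

/-! # The bouquet and the subdivision -/

namespace Pool.Agent.H25.RG3

/-- vertices of the bouquet of cycles of length `m + 1` -/
def bv (m i j : ℕ) : ℕ × ℕ := if j = 0 ∨ j = m + 1 then (0, 0) else (i, j)

lemma bv_mem {m i j k : ℕ} (hi : i < k + 1) (hj : j ≤ m + 1) :
    bv m i j = (0, 0) ∨ (bv m i j).1 < k + 1 ∧ 1 ≤ (bv m i j).2 ∧ (bv m i j).2 ≤ m := by
  unfold bv
  by_cases h : j = 0 ∨ j = m + 1
  · rw [if_pos h]
    exact Or.inl rfl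
  · rw [if_neg h]
    refine Or.inr ⟨hi, ?_, ?_⟩
    · show 1 ≤ j
      omega
    · show j ≤ m
      omega

/-- the `j`-th edge of the petal `i` -/
def be (m i j : ℕ) : Sym2 (ℕ × ℕ) := s(bv m i j, bv m i (j + 1))

lemma be_inj {m i j i' j' : ℕ} (hm : 2 ≤ m) (hj : j < m + 1) (hj' : j' < m + 1)
    (h : be m i j = be m i' j') : i = i' ∧ j = j' := by
  unfold be bv at h
  rw [Sym2.eq_iff] at h
  split_ifs at h <;> simp only [Prod.mk.injEq, false_or, true_and, and_true, or_self] at * <;> omega

lemma be_diag {m i j : ℕ} (hm : 2 ≤ m) : ¬ (be m i j).IsDiag := by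
  unfold be bv
  rw [Sym2.mk_isDiag_iff]
  split_ifs <;> simp only [Prod.mk.injEq, false_or] at * <;> omega

/-- the edges at the vertex `(i, j)`, `1 ≤ j ≤ m` -/
lemma mem_be {m i j i' j' : ℕ} (hj : 1 ≤ j)
    (h : (i, j) ∈ be m i' j') : i' = i ∧ (j' = j - 1 ∨ j' = j) := by
  unfold be bv at h
  rw [Sym2.mem_iff] at h
  split_ifs at h <;> simp only [Prod.mk.injEq] at h <;> omega

lemma mem_be_left {m i j : ℕ} (hj : 1 ≤ j) (hjm : j ≤ m) : (i, j) ∈ be m i j := by
  unfold be
  rw [Sym2.mem_iff]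
  left
  unfold bv
  rw [if_neg (by omega)]

lemma mem_be_right {m i j : ℕ} (hj : 1 ≤ j) (hjm : j ≤ m) : (i, j) ∈ be m i (j - 1) := by
  unfold be
  rw [Sym2.mem_iff]
  right
  unfold bv
  rw [if_neg (by omega), Nat.sub_add_cancel hj]

/-- bouquet of `k + 1` cycles -/
theorem dense_lower {N k L : ℕ} (hN : 3 * (k + 1) ≤ N) (h : Dense N k L) : N ≤ L * (k + 1) := by
  classical
  obtain ⟨m, hm⟩ : ∃ m, m = (N - 1) / (k + 1) := ⟨_, rfl⟩
  have hm2 : 2 ≤ m := by
    rw [hm, Nat.le_div_iff_mul_le (by omega)]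
    omega
  have hmN : m * (k + 1) ≤ N - 1 := by
    rw [hm]
    exact Nat.div_mul_le_self _ _
  have hmN' : N - 1 < (m + 1) * (k + 1) := by
    rw [hm]
    have := Nat.lt_div_mul_add (a := N - 1) (b := k + 1) (by omega)
    linarith [Nat.succ_mul ((N - 1) / (k + 1)) (k + 1)]
  obtain ⟨W, hW⟩ : ∃ W : Finset (ℕ × ℕ), W = insert (0, 0) (Finset.range (k + 1) ×ˢ Finset.Icc 1 m) :=
    ⟨_, rfl⟩
  obtain ⟨E, hE⟩ : ∃ E : Finset (Sym2 (ℕ × ℕ)),
      E = (Finset.range (k + 1) ×ˢ Finset.range (m + 1)).image (fun p => be m p.1 p.2) := ⟨_, rfl⟩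
  have hWc : W.card = (k + 1) * m + 1 := by
    rw [hW, Finset.card_insert_of_notMem (by simp), Finset.card_product]
    simp
  have hEc : E.card = (k + 1) * (m + 1) := by
    rw [hE, Finset.card_image_of_injOn, Finset.card_product]
    · simp
    · intro p hp q hq hpq
      simp only [Finset.coe_product, Finset.coe_range, Set.mem_prod, Set.mem_Iio] at hp hq
      obtain ⟨h1, h2⟩ := be_inj hm2 hp.2 hq.2 hpq
      exact Prod.ext h1 h2
  have hIn : In W E := by
    intro e he
    rw [hE] at he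
    simp only [Finset.mem_image, Finset.mem_product, Finset.mem_range, Prod.exists] at he
    obtain ⟨i, j, ⟨hi, hj⟩, rfl⟩ := he
    refine ⟨be_diag hm2, ?_⟩
    intro v hv
    unfold be at hv
    rw [Sym2.mem_iff] at hv
    rw [hW]
    simp only [Finset.mem_insert, Finset.mem_product, Finset.mem_range, Finset.mem_Icc]
    rcases hv with rfl | rfl
    · exact bv_mem hi (by omega)
    · exact bv_mem hi (by omega)
  obtain ⟨C, hCE, hCne, hCL, hCdeg⟩ := h (ℕ × ℕ) W E hIn (by rw [hWc, mul_comm]; omega) (by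
    rw [hWc, hEc]; nlinarith)
  obtain ⟨e, he⟩ := hCne
  have he' := hCE he
  rw [hE] at he'
  simp only [Finset.mem_image, Finset.mem_product, Finset.mem_range, Prod.exists] at he'
  obtain ⟨i, j, ⟨hi, hj⟩, rfl⟩ := he'
  have step : ∀ t, 1 ≤ t → t ≤ m → (be m i (t - 1) ∈ C ↔ be m i t ∈ C) := by
    intro t ht1 htm
    by_contra hcon
    have key : ∀ a, (a = t - 1 ∨ a = t) → be m i a ∈ C → (∀ b, (b = t - 1 ∨ b = t) → b ≠ a → be m i b ∉ C) → False := by
      intro a ha haC hb
      apply hCdeg (i, t)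
      rw [Finset.card_eq_one]
      refine ⟨be m i a, ?_⟩
      ext f
      simp only [Finset.mem_filter, Finset.mem_singleton]
      constructor
      · rintro ⟨hf, hft⟩
        have hf' := hCE hf
        rw [hE] at hf'
        simp only [Finset.mem_image, Finset.mem_product, Finset.mem_range, Prod.exists] at hf'
        obtain ⟨i', j', ⟨hi', hj'⟩, rfl⟩ := hf'
        obtain ⟨h1, h2⟩ := mem_be ht1 hft
        subst h1
        by_contra hne
        exact hb j' h2 (fun h => hne (by rw [h])) hf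
      · rintro rfl
        refine ⟨haC, ?_⟩
        rcases ha with rfl | rfl
        · exact mem_be_right ht1 htm
        · exact mem_be_left ht1 htm
    by_cases h1 : be m i (t - 1) ∈ C
    · have h2 : be m i t ∉ C := fun h2 => hcon ⟨fun _ => h2, fun _ => h1⟩
      refine key (t - 1) (Or.inl rfl) h1 ?_
      rintro b (rfl | rfl) hb
      · exact absurd rfl hb
      · exact h2
    · have h2 : be m i t ∈ C := by
        by_contra h2
        exact hcon ⟨fun h => absurd h h1, fun h => absurd h h2⟩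
      refine key t (Or.inr rfl) h2 ?_
      rintro b (rfl | rfl) hb
      · exact h1
      · exact absurd rfl hb
  have up : ∀ t, t ≤ m → (be m i 0 ∈ C ↔ be m i t ∈ C) := by
    intro t
    induction t with
    | zero => intro _; rfl
    | succ t ih =>
      intro ht
      rw [ih (by omega)]
      exact step (t + 1) (by omega) ht
  have hall : ∀ t, t ≤ m → be m i t ∈ C := by
    intro t ht
    rw [← up t ht, up j (by omega)]
    exact he
  have hsub : (Finset.range (m + 1)).image (fun t => be m i t) ⊆ C := by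
    intro f hf
    simp only [Finset.mem_image, Finset.mem_range] at hf
    obtain ⟨t, ht, rfl⟩ := hf
    exact hall t (by omega)
  have hcard := Finset.card_le_card hsub
  rw [Finset.card_image_of_injOn] at hcard
  · rw [Finset.card_range] at hcard
    have : (m + 1) * (k + 1) ≤ L * (k + 1) := Nat.mul_le_mul_right _ (hcard.trans hCL)
    omega
  · intro a ha b hb hab
    simp only [Finset.coe_range, Set.mem_Iio] at ha hb
    exact (be_inj hm2 ha hb hab).2

/-- the half edge of the subdivision given by a dart -/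
def half {V : Type} {H : SimpleGraph V} (d : H.Dart) : Sym2 (V ⊕ H.edgeSet) :=
  s(Sum.inl d.fst, Sum.inr ⟨d.edge, d.edge_mem⟩)

lemma inl_mem_half {V : Type} {H : SimpleGraph V} (d : H.Dart) (v : V) :
    Sum.inl v ∈ half d ↔ d.fst = v := by
  unfold half
  rw [Sym2.mem_iff]
  constructor
  · rintro (h | h)
    · exact (Sum.inl_injective h).symm
    · exact absurd h (by simp)
  · rintro rfl
    exact Or.inl rfl

lemma inr_mem_half {V : Type} {H : SimpleGraph V} (d : H.Dart) (e : H.edgeSet) :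
    Sum.inr e ∈ half d ↔ d.edge = e.1 := by
  unfold half
  rw [Sym2.mem_iff]
  constructor
  · rintro (h | h)
    · exact absurd h (by simp)
    · rw [Sum.inr_injective h]
  · intro h
    right
    congr 1
    exact Subtype.ext h.symm

lemma dart_eq {V : Type} {H : SimpleGraph V} {d d' : H.Dart} (h1 : d.fst = d'.fst)
    (h2 : d.edge = d'.edge) : d = d' := by
  rw [SimpleGraph.dart_edge_eq_iff] at h2
  rcases h2 with h2 | h2
  · exact h2
  · exfalso
    rw [h2] at h1
    have h3 : d'.snd = d'.fst := h1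
    exact d'.adj.ne h3.symm

lemma half_inj {V : Type} {H : SimpleGraph V} : Function.Injective (half (H := H)) := by
  intro d d' h
  refine dart_eq ?_ ?_
  · exact ((inl_mem_half d' d.fst).1 (by rw [← h]; exact (inl_mem_half d _).2 rfl)).symm
  · exact ((inr_mem_half d' ⟨d.edge, d.edge_mem⟩).1
      (by rw [← h]; exact (inr_mem_half d _).2 rfl)).symm

/-- the subdivided graph -/
def subdiv {V : Type} (H : SimpleGraph V) : SimpleGraph (V ⊕ H.edgeSet) :=
  SimpleGraph.fromEdgeSet (Set.range (half (H := H)))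

lemma subdiv_edgeSet {V : Type} (H : SimpleGraph V) :
    (subdiv H).edgeSet = Set.range (half (H := H)) := by
  unfold subdiv
  rw [SimpleGraph.edgeSet_fromEdgeSet]
  ext e
  constructor
  · rintro ⟨h, _⟩
    exact h
  · rintro ⟨d, rfl⟩
    refine ⟨⟨d, rfl⟩, ?_⟩
    simp [half]

lemma subdiv_egirth {V : Type} [Fintype V] (H : SimpleGraph V) :
    2 * H.egirth ≤ (subdiv H).egirth := by
  classical
  rw [SimpleGraph.le_egirth]
  intro a w hw
  obtain ⟨C', hC'w, hC'ne, hC'card, hC'deg⟩ := core_of_cycle hw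
  have hC'S : ∀ f ∈ C', ∃ d : H.Dart, half d = f := by
    intro f hf
    have := w.edges_subset_edgeSet (List.mem_toFinset.1 (hC'w hf))
    rw [subdiv_edgeSet] at this
    exact this
  obtain ⟨D, hD⟩ : ∃ D : Finset H.Dart, D = Finset.univ.filter (fun d => half d ∈ C') := ⟨_, rfl⟩
  have hDm : ∀ d, d ∈ D ↔ half d ∈ C' := by
    intro d
    rw [hD]
    simp
  have hDC : D.image half = C' := by
    ext f
    simp only [Finset.mem_image]
    constructor
    · rintro ⟨d, hd, rfl⟩
      exact (hDm d).1 hd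
    · intro hf
      obtain ⟨d, rfl⟩ := hC'S f hf
      exact ⟨d, (hDm d).2 hf, rfl⟩
  have hsymm : ∀ d ∈ D, d.symm ∈ D := by
    intro d hd
    by_contra hns
    apply hC'deg (Sum.inr ⟨d.edge, d.edge_mem⟩)
    rw [Finset.card_eq_one]
    refine ⟨half d, ?_⟩
    ext f
    simp only [Finset.mem_filter, Finset.mem_singleton]
    constructor
    · rintro ⟨hf, hfe⟩
      obtain ⟨d', rfl⟩ := hC'S f hf
      have h1 := (inr_mem_half d' _).1 hfe
      simp only at h1
      rw [SimpleGraph.dart_edge_eq_iff] at h1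
      rcases h1 with h1 | h1
      · rw [h1]
      · exact absurd ((hDm d').2 hf) (by rw [h1]; exact hns)
    · rintro rfl
      exact ⟨(hDm d).1 hd, (inr_mem_half d _).2 rfl⟩
  obtain ⟨C, hC⟩ : ∃ C : Finset (Sym2 V), C = D.image (fun d => d.edge) := ⟨_, rfl⟩
  have hDcard : D.card = C'.card := by
    rw [← hDC, Finset.card_image_of_injective _ half_inj]
  have hCcard : 2 * C.card ≤ D.card := by
    rw [hC]
    refine Finset.mul_card_image_le_card D 2 ?_
    intro e he
    obtain ⟨d, hd, rfl⟩ := Finset.mem_image.1 he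
    have : ({d, d.symm} : Finset H.Dart) ⊆ D.filter (fun x => x.edge = d.edge) := by
      intro x hx
      simp only [Finset.mem_insert, Finset.mem_singleton] at hx
      simp only [Finset.mem_filter]
      rcases hx with rfl | rfl
      · exact ⟨hd, rfl⟩
      · exact ⟨hsymm d hd, d.edge_symm⟩
    refine le_trans ?_ (Finset.card_le_card this)
    rw [Finset.card_pair d.symm_ne.symm]
  have hCne : C.Nonempty := by
    obtain ⟨f, hf⟩ := hC'ne
    obtain ⟨d, rfl⟩ := hC'S f hf
    exact ⟨d.edge, by rw [hC]; exact Finset.mem_image.2 ⟨d, (hDm d).2 hf, rfl⟩⟩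
  have hCH : ∀ e ∈ C, e ∈ H.edgeSet := by
    intro e he
    rw [hC] at he
    obtain ⟨d, _, rfl⟩ := Finset.mem_image.1 he
    exact d.edge_mem
  have hdeg : ∀ v : V, (C.filter (fun e => v ∈ e)).card ≠ 1 := by
    intro v
    have h1 : C.filter (fun e => v ∈ e) = (D.filter (fun d => d.fst = v)).image (fun d => d.edge) := by
      ext e
      simp only [Finset.mem_filter, Finset.mem_image, hC]
      constructor
      · rintro ⟨⟨d, hd, rfl⟩, hv⟩
        have hv' : v = d.fst ∨ v = d.snd := by
          rw [SimpleGraph.Dart.edge] at hv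
          exact Sym2.mem_iff.1 hv
        rcases hv' with h | h
        · exact ⟨d, ⟨hd, h.symm⟩, rfl⟩
        · exact ⟨d.symm, ⟨hsymm d hd, h.symm⟩, d.edge_symm⟩
      · rintro ⟨d, ⟨hd, rfl⟩, rfl⟩
        exact ⟨⟨d, hd, rfl⟩, Sym2.mem_mk_left _ _⟩
    have h2 : C'.filter (fun f => Sum.inl v ∈ f) = (D.filter (fun d => d.fst = v)).image half := by
      ext f
      simp only [Finset.mem_filter, Finset.mem_image]
      constructor
      · rintro ⟨hf, hv⟩
        obtain ⟨d, rfl⟩ := hC'S f hf
        exact ⟨d, ⟨(hDm d).2 hf, (inl_mem_half d v).1 hv⟩, rfl⟩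
      · rintro ⟨d, ⟨hd, hv⟩, rfl⟩
        exact ⟨(hDm d).1 hd, (inl_mem_half d v).2 hv⟩
    have h3 := hC'deg (Sum.inl v)
    rw [h2, Finset.card_image_of_injective _ half_inj] at h3
    rw [h1, Finset.card_image_of_injOn]
    · exact h3
    · intro d hd d' hd' hdd
      rw [Finset.mem_coe, Finset.mem_filter] at hd hd'
      exact dart_eq (hd.2.trans hd'.2.symm) hdd
  obtain ⟨v, p, hp, hpC⟩ := cycle_of_core hCH hCne hdeg
  have hpl : p.length ≤ C.card := by
    rw [← p.length_edges, ← List.toFinset_card_of_nodup hp.edges_nodup]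
    apply Finset.card_le_card
    intro e he
    exact hpC e (List.mem_toFinset.1 he)
  calc 2 * H.egirth ≤ 2 * (p.length : ℕ∞) := by
        gcongr
        exact SimpleGraph.egirth_le_length hp
    _ = ((2 * p.length : ℕ) : ℕ∞) := by push_cast; rfl
    _ ≤ (w.length : ℕ∞) := by
        rw [Nat.cast_le]
        omega

/-- subdivide every edge once: `2 g(N,k) ≤ g(2N+k,k)` -/
theorem exists_subdiv {N k : ℕ} (H : SimpleGraph (Fin N)) (hH : H.edgeSet.ncard = N + k) :
    ∃ H' : SimpleGraph (Fin (2 * N + k)), H'.edgeSet.ncard = 2 * N + k + k ∧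
      2 * H.egirth ≤ H'.egirth := by
  classical
  have hc : Fintype.card H.edgeSet = N + k := by
    rw [← hH, ← Nat.card_coe_set_eq, Nat.card_eq_fintype_card]
  have hcard : Fintype.card (Fin N ⊕ H.edgeSet) = 2 * N + k := by
    rw [Fintype.card_sum, Fintype.card_fin, hc]
    ring
  have e : Fin (2 * N + k) ≃ (Fin N ⊕ H.edgeSet) := (Fintype.equivFinOfCardEq hcard).symm
  refine ⟨(subdiv H).comap e, ?_, ?_⟩
  · rw [← Nat.card_coe_set_eq, Nat.card_congr (SimpleGraph.Iso.comap e (subdiv H)).mapEdgeSet,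
      subdiv_edgeSet, ← Set.image_univ, Nat.card_coe_set_eq,
      Set.ncard_image_of_injective _ half_inj, Set.ncard_univ, Nat.card_eq_fintype_card,
      H.dart_card_eq_twice_card_edges, SimpleGraph.edgeFinset_card, hc]
    ring
  · rw [(SimpleGraph.Iso.comap e (subdiv H)).egirth_eq]
    exact subdiv_egirth H

end Pool.Agent.H25.RG3
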