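import Pool.Agent.H25.RG3.Defs

set_option autoImplicit false

/-! # Peeling: a graph of large excess has a small subgraph of excess `k` -/

namespace Pool.Agent.H25.RG3

/-- number of edges of `E` at `v` -/
def dg {V : Type*} [DecidableEq V] (E : Finset (Sym2 V)) (v : V) : ℕ :=
  (E.filter (fun e => v ∈ e)).card

lemma dg_split {V : Type*} [DecidableEq V] (E : Finset (Sym2 V)) (v : V) :
    dg E v + (E.filter (fun e => v ∉ e)).card = E.card := by
  unfold dg
  exact Finset.card_filter_add_card_filter_not _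

lemma dg_mono {V : Type*} [DecidableEq V] {E E' : Finset (Sym2 V)} (h : E ⊆ E') (v : V) :
    dg E v ≤ dg E' v :=
  Finset.card_le_card (Finset.filter_subset_filter _ h)

lemma in_erase {V : Type*} [DecidableEq V] {W : Finset V} {E : Finset (Sym2 V)} (h : In W E)
    (v : V) : In (W.erase v) (E.filter (fun e => v ∉ e)) := by
  intro e he
  rw [Finset.mem_filter] at he
  refine ⟨(h e he.1).1, fun u hu => ?_⟩
  rw [Finset.mem_erase]
  refine ⟨?_, (h e he.1).2 u hu⟩
  rintro rfl
  exact he.2 hu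

lemma In.mono {V : Type*} {W : Finset V} {E E' : Finset (Sym2 V)} (h : In W E) (hE : E' ⊆ E) :
    In W E' := fun e he => h e (hE he)

/-- a nonempty graph with at least as many edges as vertices has a core -/
theorem core_of_card_le {V : Type*} [DecidableEq V] {W : Finset V} {E : Finset (Sym2 V)}
    (h : In W E) (hW : W.Nonempty) (hE : W.card ≤ E.card) : Core E E.card := by
  obtain ⟨n, hn⟩ : ∃ n, W.card = n := ⟨_, rfl⟩
  induction n using Nat.strong_induction_on generalizing W E with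
  | _ n ih =>
    by_cases hd : ∃ v ∈ W, dg E v ≤ 1
    · obtain ⟨v, hv, hdv⟩ := hd
      have h1 := dg_split E v
      have h2 : (W.erase v).card = W.card - 1 := Finset.card_erase_of_mem hv
      have h3 : 0 < W.card := Finset.card_pos.2 hW
      have h4 : (W.erase v).Nonempty := by
        rw [Finset.nonempty_iff_ne_empty]
        intro h5
        have h6 : W.card = 1 := by
          rw [h5, Finset.card_empty] at h2
          omega
        have h7 : 0 < E.card := by omega
        obtain ⟨e, he⟩ := Finset.card_pos.1 h7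
        obtain ⟨w, hw⟩ := Finset.card_eq_one.1 h6
        obtain ⟨h8, h9⟩ := h e he
        induction e using Sym2.ind with
        | _ a b =>
          have ha := h9 a (Sym2.mem_mk_left a b)
          have hb := h9 b (Sym2.mem_mk_right a b)
          rw [hw, Finset.mem_singleton] at ha hb
          apply h8
          rw [Sym2.mk_isDiag_iff, ha, hb]
      have h5 := ih (n - 1) (by omega) (in_erase h v) h4 (by omega) (by omega)
      exact h5.mono (Finset.filter_subset _ _) (by omega)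
    · push Not at hd
      have h3 : 0 < W.card := Finset.card_pos.2 hW
      refine ⟨E, Finset.Subset.refl _, Finset.card_pos.1 (by omega), le_refl _, fun v => ?_⟩
      by_cases hv : v ∈ W
      · have := hd v hv
        unfold dg at this
        omega
      · intro h1
        obtain ⟨e, he⟩ := Finset.card_eq_one.1 h1
        have h2 : e ∈ E.filter (fun e => v ∈ e) := by rw [he]; exact Finset.mem_singleton_self _
        rw [Finset.mem_filter] at h2
        exact hv ((h e h2.1).2 v h2.2)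

/-- double counting of incidences -/
lemma incid {V : Type*} [DecidableEq V] (A : Finset V) (E : Finset (Sym2 V)) :
    ∑ v ∈ A, dg E v = ∑ e ∈ E, (A.filter (fun v => v ∈ e)).card := by
  unfold dg
  exact Finset.sum_card_bipartiteAbove_eq_sum_card_bipartiteBelow (fun v e => v ∈ e)

lemma ends_card {V : Type*} [DecidableEq V] {A : Finset V} {e : Sym2 V} (h1 : ¬ e.IsDiag)
    (h2 : ∀ v ∈ e, v ∈ A) : (A.filter (fun v => v ∈ e)).card = 2 := by
  induction e using Sym2.ind with
  | _ a b =>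
    rw [Sym2.mk_isDiag_iff] at h1
    have h3 : A.filter (fun v => v ∈ s(a, b)) = {a, b} := by
      ext v
      simp only [Finset.mem_filter, Finset.mem_insert, Finset.mem_singleton, Sym2.mem_iff]
      constructor
      · exact fun h => h.2
      · intro h
        exact ⟨h2 v (Sym2.mem_iff.2 h), h⟩
    rw [h3, Finset.card_pair h1]

lemma handshake {V : Type*} [DecidableEq V] {W : Finset V} {E : Finset (Sym2 V)} (h : In W E) :
    ∑ v ∈ W, dg E v = 2 * E.card := by
  rw [incid, Finset.sum_congr rfl (fun e he => ends_card (h e he).1 (h e he).2), Finset.sum_const,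
    smul_eq_mul, mul_comm]

/-- a sub-pair with excess at least `j` and the given number of vertices -/
def Sb {V : Type*} (W₀ : Finset V) (E₀ : Finset (Sym2 V)) (j n : ℕ) : Prop :=
  ∃ W ⊆ W₀, ∃ E ⊆ E₀, In W E ∧ W.card + j ≤ E.card ∧ W.card = n

/-- the least number of vertices of a sub-pair of excess at least `j` -/
noncomputable def om {V : Type*} (W₀ : Finset V) (E₀ : Finset (Sym2 V)) (j : ℕ) : ℕ :=
  sInf {n | Sb W₀ E₀ j n}

section

variable {V : Type*} [DecidableEq V] {W₀ : Finset V} {E₀ : Finset (Sym2 V)} {K : ℕ}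

omit [DecidableEq V] in
lemma om_sb (h : In W₀ E₀) (hE : W₀.card + K ≤ E₀.card) {j : ℕ} (hj : j ≤ K) :
    Sb W₀ E₀ j (om W₀ E₀ j) := by
  have : {n | Sb W₀ E₀ j n}.Nonempty :=
    ⟨W₀.card, W₀, Finset.Subset.refl _, E₀, Finset.Subset.refl _, h, by omega, rfl⟩
  exact Nat.sInf_mem this

omit [DecidableEq V] in
lemma om_le {j : ℕ} {W : Finset V} {E : Finset (Sym2 V)} (h1 : W ⊆ W₀) (h2 : E ⊆ E₀)
    (h3 : In W E) (h4 : W.card + j ≤ E.card) : om W₀ E₀ j ≤ W.card :=
  Nat.sInf_le ⟨W, h1, E, h2, h3, h4, rfl⟩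

omit [DecidableEq V] in
lemma om_mono (h : In W₀ E₀) (hE : W₀.card + K ≤ E₀.card) {i j : ℕ} (hij : i ≤ j) (hj : j ≤ K) :
    om W₀ E₀ i ≤ om W₀ E₀ j := by
  obtain ⟨W, h1, E, h2, h3, h4, h5⟩ := om_sb h hE hj
  rw [← h5]
  exact om_le h1 h2 h3 (by omega)

/-- minimal pairs have minimum degree two -/
lemma dg_ge_two {j : ℕ} {W : Finset V} {E : Finset (Sym2 V)} (h3 : In W E)
    (h4 : W.card + j ≤ E.card)
    (hmin : ∀ W' ⊆ W, ∀ E' ⊆ E, In W' E' → W'.card + j ≤ E'.card → W.card ≤ W'.card) {v : V}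
    (hv : v ∈ W) : 2 ≤ dg E v := by
  by_contra hd
  have h1 := dg_split E v
  have h2 : (W.erase v).card = W.card - 1 := Finset.card_erase_of_mem hv
  have h5 : 0 < W.card := Finset.card_pos.2 ⟨v, hv⟩
  have h6 := hmin (W.erase v) (Finset.erase_subset _ _) (E.filter (fun e => v ∉ e))
    (Finset.filter_subset _ _) (in_erase h3 v) (by omega)
  omega

/-- the main step -/
lemma om_step (h : In W₀ E₀) (hE : W₀.card + K ≤ E₀.card) {j : ℕ} (hj : j + 1 ≤ K) :
    om W₀ E₀ (j + 1) ≤ 2 * (j + 1) + 6 * (j + 1) * (om W₀ E₀ (j + 1) - om W₀ E₀ j) := by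
  obtain ⟨W, hW, E', hE', hIn', hc', hn⟩ := om_sb h hE hj
  obtain ⟨E, hEE', hEc⟩ := Finset.exists_subset_card_eq hc'
  have hIn : In W E := hIn'.mono hEE'
  have hE2 : E ⊆ E₀ := hEE'.trans hE'
  -- minimality of `W`
  have hmin : ∀ W' ⊆ W, ∀ E' ⊆ E, In W' E' → W'.card + (j + 1) ≤ E'.card → W.card ≤ W'.card := by
    intro W' h1 E' h2 h3 h4
    rw [hn]
    exact om_le (h1.trans hW) (h2.trans hE2) h3 h4
  have hdeg : ∀ v ∈ W, 2 ≤ dg E v := fun v hv => dg_ge_two hIn (by omega) hmin hv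
  obtain ⟨B, hB⟩ : ∃ B : Finset V, B = W.filter (fun v => 3 ≤ dg E v) := ⟨_, rfl⟩
  have hBW : B ⊆ W := by rw [hB]; exact Finset.filter_subset _ _
  obtain ⟨M, hM⟩ : ∃ M : Finset (Sym2 V), M = E.filter (fun e => ∃ v ∈ B, v ∈ e) := ⟨_, rfl⟩
  have hshake := handshake hIn
  have hsumB : ∑ v ∈ B, dg E v + 2 * (W.card - B.card) ≤ 2 * E.card := by
    rw [← hshake, ← Finset.sum_sdiff hBW, add_comm]
    gcongr
    calc 2 * (W.card - B.card) = ∑ v ∈ W \ B, 2 := by
          rw [Finset.sum_const, Finset.card_sdiff_of_subset hBW, smul_eq_mul, mul_comm]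
      _ ≤ ∑ v ∈ W \ B, dg E v := Finset.sum_le_sum fun v hv => hdeg v (Finset.mem_sdiff.1 hv).1
  have hB3 : 3 * B.card ≤ ∑ v ∈ B, dg E v := by
    calc 3 * B.card = ∑ v ∈ B, 3 := by rw [Finset.sum_const, smul_eq_mul, mul_comm]
      _ ≤ ∑ v ∈ B, dg E v := by
        refine Finset.sum_le_sum fun v hv => ?_
        rw [hB, Finset.mem_filter] at hv
        exact hv.2
  have hBc : B.card ≤ W.card := Finset.card_le_card hBW
  have hB2 : B.card ≤ 2 * (j + 1) := by omega
  have hMc : M.card ≤ ∑ v ∈ B, dg E v := by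
    have : M ⊆ B.biUnion (fun v => E.filter (fun e => v ∈ e)) := by
      intro e he
      rw [hM, Finset.mem_filter] at he
      obtain ⟨he1, v, hv, hve⟩ := he
      exact Finset.mem_biUnion.2 ⟨v, hv, Finset.mem_filter.2 ⟨he1, hve⟩⟩
    exact (Finset.card_le_card this).trans Finset.card_biUnion_le
  have hM6 : M.card ≤ 6 * (j + 1) := by omega
  -- the sub-pairs avoiding an edge of `M`
  have hex : ∀ e ∈ M, ∃ We ⊆ W, (∃ Ee ⊆ E.erase e, ∀ v ∈ We, 2 ≤ dg Ee v ∧ In We Ee) ∧
      om W₀ E₀ j ≤ We.card := by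
    intro e he
    have heE : e ∈ E := by
      rw [hM, Finset.mem_filter] at he
      exact he.1
    have hIe : In W (E.erase e) := hIn.mono (Finset.erase_subset _ _)
    have hce : W.card + j ≤ (E.erase e).card := by
      rw [Finset.card_erase_of_mem heE]
      omega
    obtain ⟨We, h1, Ee, h2, h3, h4, h5⟩ := om_sb hIe hce (le_refl j)
    refine ⟨We, h1, ⟨Ee, h2, fun v hv => ⟨?_, h3⟩⟩, ?_⟩
    · refine dg_ge_two h3 h4 ?_ hv
      intro W' g1 E' g2 g3 g4
      rw [h5]
      exact om_le (g1.trans h1) (g2.trans h2) g3 g4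
    · exact om_le (h1.trans hW) (h2.trans ((Finset.erase_subset _ _).trans hE2)) h3 h4
  choose! F hFW hFE hFc using hex
  -- the uncovered set is empty
  obtain ⟨A, hA⟩ : ∃ A : Finset V, A = (W \ B).filter (fun v => ∀ e ∈ M, v ∈ F e) := ⟨_, rfl⟩
  have hAm : ∀ v, v ∈ A ↔ (v ∈ W ∧ v ∉ B) ∧ ∀ e ∈ M, v ∈ F e := by
    intro v
    rw [hA, Finset.mem_filter, Finset.mem_sdiff]
  have hAdeg : ∀ v ∈ A, dg E v = 2 := by
    intro v hv
    obtain ⟨⟨h1, h2⟩, _⟩ := (hAm v).1 hv
    have h3 := hdeg v h1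
    rw [hB, Finset.mem_filter] at h2
    push Not at h2
    have h4 := h2 h1
    omega
  have hAall : ∀ v ∈ A, ∀ e ∈ M, ∀ f ∈ E, v ∈ f → f ≠ e ∧ ∀ u ∈ f, u ∈ F e := by
    intro v hv e he f hf hvf
    obtain ⟨Ee, h1, h2⟩ := hFE e he
    obtain ⟨h3, h4⟩ := h2 v (((hAm v).1 hv).2 e he)
    have h5 : Ee ⊆ E := h1.trans (Finset.erase_subset _ _)
    have h6 : Ee.filter (fun f => v ∈ f) = E.filter (fun f => v ∈ f) := by
      refine Finset.eq_of_subset_of_card_le (Finset.filter_subset_filter _ h5) ?_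
      have := hAdeg v hv
      unfold dg at this h3
      omega
    have h7 : f ∈ Ee.filter (fun f => v ∈ f) := by
      rw [h6]
      exact Finset.mem_filter.2 ⟨hf, hvf⟩
    have h8 := (Finset.mem_filter.1 h7).1
    exact ⟨(Finset.mem_erase.1 (h1 h8)).1, (h4 f h8).2⟩
  have hAclosed : ∀ v ∈ A, ∀ f ∈ E, v ∈ f → ∀ u ∈ f, u ∈ A := by
    intro v hv f hf hvf u hu
    have hfM : f ∉ M := fun h1 => (hAall v hv f h1 f hf hvf).1 rfl
    rw [hAm]
    refine ⟨⟨(hIn f hf).2 u hu, ?_⟩, fun e he => (hAall v hv e he f hf hvf).2 u hu⟩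
    intro huB
    apply hfM
    rw [hM, Finset.mem_filter]
    exact ⟨hf, u, huB, hu⟩
  have hAempty : A.card = 0 := by
    obtain ⟨EA, hEA⟩ : ∃ EA : Finset (Sym2 V), EA = E.filter (fun e => ∃ v ∈ A, v ∈ e) := ⟨_, rfl⟩
    have hEAs : EA ⊆ E := by rw [hEA]; exact Finset.filter_subset _ _
    have h1 : In A EA := by
      intro f hf
      rw [hEA, Finset.mem_filter] at hf
      obtain ⟨hf, v, hv, hvf⟩ := hf
      exact ⟨(hIn f hf).1, hAclosed v hv f hf hvf⟩
    have h2 := handshake h1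
    have h3 : ∑ v ∈ A, dg EA v ≤ 2 * A.card := by
      calc ∑ v ∈ A, dg EA v ≤ ∑ v ∈ A, 2 := by
            refine Finset.sum_le_sum fun v hv => ?_
            rw [← hAdeg v hv]
            exact dg_mono hEAs v
        _ = 2 * A.card := by rw [Finset.sum_const, smul_eq_mul, mul_comm]
    have hAW : A ⊆ W := by
      intro v hv
      exact ((hAm v).1 hv).1.1
    have h4 : In (W \ A) (E \ EA) := by
      intro f hf
      rw [Finset.mem_sdiff] at hf
      refine ⟨(hIn f hf.1).1, fun v hv => ?_⟩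
      rw [Finset.mem_sdiff]
      refine ⟨(hIn f hf.1).2 v hv, fun hvA => hf.2 ?_⟩
      rw [hEA, Finset.mem_filter]
      exact ⟨hf.1, v, hvA, hv⟩
    have h5 : (W \ A).card = W.card - A.card := Finset.card_sdiff_of_subset hAW
    have h6 : (E \ EA).card = E.card - EA.card := Finset.card_sdiff_of_subset hEAs
    have h7 : A.card ≤ W.card := Finset.card_le_card hAW
    have h8 : EA.card ≤ E.card := Finset.card_le_card hEAs
    have h9 := hmin (W \ A) Finset.sdiff_subset (E \ EA) Finset.sdiff_subset h4 (by omega)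
    omega
  -- the covering
  have hcov : W \ B ⊆ M.biUnion (fun e => W \ F e) := by
    intro v hv
    by_contra hcon
    have : v ∈ A := by
      rw [hA, Finset.mem_filter]
      refine ⟨hv, fun e he => ?_⟩
      by_contra h1
      exact hcon (Finset.mem_biUnion.2 ⟨e, he, Finset.mem_sdiff.2 ⟨(Finset.mem_sdiff.1 hv).1, h1⟩⟩)
    rw [Finset.card_eq_zero] at hAempty
    rw [hAempty] at this
    exact absurd this (Finset.notMem_empty _)
  have hc1 : W.card - B.card ≤ M.card * (W.card - om W₀ E₀ j) := by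
    calc W.card - B.card = (W \ B).card := (Finset.card_sdiff_of_subset hBW).symm
      _ ≤ (M.biUnion (fun e => W \ F e)).card := Finset.card_le_card hcov
      _ ≤ ∑ e ∈ M, (W \ F e).card := Finset.card_biUnion_le
      _ ≤ ∑ e ∈ M, (W.card - om W₀ E₀ j) := by
        refine Finset.sum_le_sum fun e he => ?_
        rw [Finset.card_sdiff_of_subset (hFW e he)]
        have := hFc e he
        omega
      _ = M.card * (W.card - om W₀ E₀ j) := by rw [Finset.sum_const, smul_eq_mul]
  have hc2 : M.card * (W.card - om W₀ E₀ j) ≤ 6 * (j + 1) * (W.card - om W₀ E₀ j) :=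
    Nat.mul_le_mul_right _ hM6
  rw [← hn]
  omega

/-- a dyadic block -/
lemma om_block (h : In W₀ E₀) (hE : W₀.card + K ≤ E₀.card) {m : ℕ} (hm : 1 ≤ m) (hmK : 2 * m ≤ K) :
    13 * om W₀ E₀ m ≤ 12 * om W₀ E₀ (2 * m) + 4 * m := by
  have key : ∀ i, i ≤ m → 12 * m * om W₀ E₀ m + i * om W₀ E₀ m
      ≤ 12 * m * om W₀ E₀ (m + i) + i * (4 * m) := by
    intro i
    induction i with
    | zero => intro _; simp
    | succ i ih =>
      intro hi
      have h1 := ih (by omega)
      have h2 := om_step h hE (j := m + i) (by omega)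
      have h3 : om W₀ E₀ m ≤ om W₀ E₀ (m + i + 1) := om_mono h hE (by omega) (by omega)
      have h4 : om W₀ E₀ (m + i) ≤ om W₀ E₀ (m + i + 1) := om_mono h hE (by omega) (by omega)
      obtain ⟨d, hd⟩ := Nat.exists_eq_add_of_le h4
      rw [hd, Nat.add_sub_cancel_left] at h2
      rw [hd] at h3
      have h5 : 6 * (m + i + 1) * d ≤ 12 * m * d := Nat.mul_le_mul_right _ (by omega)
      have h6 : om W₀ E₀ m ≤ 4 * m + 12 * m * d := by omega
      rw [show m + (i + 1) = m + i + 1 from rfl, hd]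
      calc 12 * m * om W₀ E₀ m + (i + 1) * om W₀ E₀ m
          = (12 * m * om W₀ E₀ m + i * om W₀ E₀ m) + om W₀ E₀ m := by ring
        _ ≤ (12 * m * om W₀ E₀ (m + i) + i * (4 * m)) + (4 * m + 12 * m * d) := by
          exact Nat.add_le_add h1 h6
        _ = 12 * m * (om W₀ E₀ (m + i) + d) + (i + 1) * (4 * m) := by ring
  have h1 := key m (le_refl _)
  rw [← two_mul] at h1
  have h2 : m * (13 * om W₀ E₀ m) ≤ m * (12 * om W₀ E₀ (2 * m) + 4 * m) := by
    calc m * (13 * om W₀ E₀ m) = 12 * m * om W₀ E₀ m + m * om W₀ E₀ m := by ring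
      _ ≤ 12 * m * om W₀ E₀ (2 * m) + m * (4 * m) := h1
      _ = m * (12 * om W₀ E₀ (2 * m) + 4 * m) := by ring
  exact Nat.le_of_mul_le_mul_left h2 (by omega)

end

/-- peeling: see section (P) of the text -/
theorem peel {V : Type*} [DecidableEq V] {k : ℕ} (hk : 1 ≤ k) {W₀ : Finset V}
    {E₀ : Finset (Sym2 V)} (h : In W₀ E₀) (hE : W₀.card + 4096 * k ≤ E₀.card) :
    ∃ W ⊆ W₀, ∃ E ⊆ E₀, In W E ∧ W.card + k ≤ E.card ∧ 2 * W.card ≤ W₀.card + 4096 * k := by
  obtain ⟨W, h1, E, h2, h3, h4, h5⟩ := om_sb h hE (j := k) (by omega)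
  refine ⟨W, h1, E, h2, h3, h4, ?_⟩
  rw [h5]
  have b : ∀ m, 1 ≤ m → 2 * m ≤ 4096 * k →
      13 * om W₀ E₀ m ≤ 12 * om W₀ E₀ (2 * m) + 4 * m := fun m hm hm2 => om_block h hE hm hm2
  have b0 := b k (by omega) (by omega)
  have b1 := b (2 * k) (by omega) (by omega)
  have b2 := b (2 * (2 * k)) (by omega) (by omega)
  have b3 := b (2 * (2 * (2 * k))) (by omega) (by omega)
  have b4 := b (2 * (2 * (2 * (2 * k)))) (by omega) (by omega)
  have b5 := b (2 * (2 * (2 * (2 * (2 * k))))) (by omega) (by omega)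
  have b6 := b (2 * (2 * (2 * (2 * (2 * (2 * k)))))) (by omega) (by omega)
  have b7 := b (2 * (2 * (2 * (2 * (2 * (2 * (2 * k))))))) (by omega) (by omega)
  have b8 := b (2 * (2 * (2 * (2 * (2 * (2 * (2 * (2 * k)))))))) (by omega) (by omega)
  have b9 := b (2 * (2 * (2 * (2 * (2 * (2 * (2 * (2 * (2 * k))))))))) (by omega) (by omega)
  have b10 := b (2 * (2 * (2 * (2 * (2 * (2 * (2 * (2 * (2 * (2 * k)))))))))) (by omega) (by omega)
  have b11 := b (2 * (2 * (2 * (2 * (2 * (2 * (2 * (2 * (2 * (2 * (2 * k)))))))))))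
    (by omega) (by omega)
  have b12 : om W₀ E₀ (2 * (2 * (2 * (2 * (2 * (2 * (2 * (2 * (2 * (2 * (2 * (2 * k))))))))))))
      ≤ W₀.card := om_le (Finset.Subset.refl _) (Finset.Subset.refl _) h (by omega)
  linarith

end Pool.Agent.H25.RG3
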