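import Pool.Agent.H25.RG3.Closure
import Pool.Agent.H25.RG3.Peel
import Pool.Agent.H25.RG3.Contract
import Pool.Agent.H25.RG3.Graphs

set_option autoImplicit false

/-! # Short rainbow cores in systems of `n + k` pairs -/

namespace Pool.Agent.H25.RG3

/-- pairwise disjoint classes of two edges on a finite vertex set -/
structure PairSys (V I : Type*) where
  e₁ : I → Sym2 V
  e₂ : I → Sym2 V
  nd₁ : ∀ i, ¬ (e₁ i).IsDiag
  nd₂ : ∀ i, ¬ (e₂ i).IsDiag
  inj₁ : Function.Injective e₁
  inj₂ : Function.Injective e₂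
  ne : ∀ i j, e₁ i ≠ e₂ j

set_option linter.unusedSectionVars false

variable {V I : Type} [Fintype V] [DecidableEq V] [Fintype I] [DecidableEq I] (Q : PairSys V I)

/-- a choice of one edge in every class -/
def PairSys.pick (σ : I → Bool) (i : I) : Sym2 V := if σ i then Q.e₂ i else Q.e₁ i

omit [Fintype V] [DecidableEq V] [Fintype I] [DecidableEq I] in
lemma PairSys.pick_inj (σ : I → Bool) : Function.Injective (Q.pick σ) := by
  intro i j hij
  unfold PairSys.pick at hij
  split_ifs at hij
  · exact Q.inj₂ hij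
  · exact absurd hij.symm (Q.ne _ _)
  · exact absurd hij (Q.ne _ _)
  · exact Q.inj₁ hij

omit [Fintype V] [DecidableEq V] [Fintype I] [DecidableEq I] in
lemma PairSys.pick_nd (σ : I → Bool) (i : I) : ¬ (Q.pick σ i).IsDiag := by
  unfold PairSys.pick
  split_ifs
  · exact Q.nd₂ i
  · exact Q.nd₁ i

omit [Fintype V] [Fintype I] [DecidableEq I] in
lemma PairSys.card_pick (σ : I → Bool) (J : Finset I) : (J.image (Q.pick σ)).card = J.card :=
  Finset.card_image_of_injective _ (Q.pick_inj σ)

/-- dense sub-pairs contain short cores -/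
lemma dense_peel {n k L : ℕ} (hk : 1 ≤ k) (hD : Dense (n / 2 + 1000000 * k) k L)
    {W : Finset V} {E : Finset (Sym2 V)} (h : In W E) (hW : W.card ≤ n)
    (hE : W.card + 4096 * k ≤ E.card) : Core E L := by
  obtain ⟨W', _, E', hE', h1, h2, h3⟩ := peel hk h hE
  refine (hD V W' E' h1 ?_ h2).mono hE' le_rfl
  omega

lemma card_mem_le (U : Finset V) (e : Sym2 V) : (U.filter (fun v => v ∈ e)).card ≤ 2 := by
  induction e using Sym2.ind with
  | _ x y =>
    refine (Finset.card_le_card (t := {x, y}) ?_).trans Finset.card_le_two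
    intro v hv
    rw [Finset.mem_filter, Sym2.mem_iff] at hv
    rw [Finset.mem_insert, Finset.mem_singleton]
    exact hv.2

/-- the classes both of whose edges meet `Y` -/
def PairSys.dbl (Y : Finset V) : Finset I :=
  Finset.univ.filter (fun i => (∃ v ∈ Y, v ∈ Q.e₁ i) ∧ ∃ v ∈ Y, v ∈ Q.e₂ i)

/-- every vertex set is doubly met by many classes -/
lemma dbl_card {k L : ℕ} (hk : 1 ≤ k) (hI : Fintype.card I = Fintype.card V + k)
    (hD : Dense (Fintype.card V / 2 + 1000000 * k) k L)
    (hno : ∀ (J : Finset I) (σ : I → Bool), ¬ Core (J.image (Q.pick σ)) L) (Y : Finset V) :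
    Y.card + k < (Q.dbl Y).card + 4096 * k := by
  classical
  by_contra hcon
  push Not at hcon
  set σ : I → Bool := fun i => decide (∃ v ∈ Y, v ∈ Q.e₁ i) with hσ
  refine hno (Finset.univ \ Q.dbl Y) σ (dense_peel (n := Fintype.card V) hk hD
    (W := Finset.univ \ Y) ?_ ?_ ?_)
  · intro e he
    obtain ⟨i, hi, rfl⟩ := Finset.mem_image.1 he
    refine ⟨Q.pick_nd σ i, ?_⟩
    intro v hv
    rw [Finset.mem_sdiff]
    refine ⟨Finset.mem_univ _, fun hvY => ?_⟩
    rw [Finset.mem_sdiff, PairSys.dbl, Finset.mem_filter] at hi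
    have hi2 := fun h => hi.2 ⟨Finset.mem_univ _, h⟩
    unfold PairSys.pick at hv
    by_cases h : ∃ v ∈ Y, v ∈ Q.e₁ i
    · have hs : σ i = true := by rw [hσ]; exact decide_eq_true h
      rw [hs, if_pos rfl] at hv
      exact hi2 ⟨h, v, hvY, hv⟩
    · have hs : σ i = false := by rw [hσ]; exact decide_eq_false h
      rw [hs, if_neg (by decide)] at hv
      exact h ⟨v, hvY, hv⟩
  · exact Finset.card_le_univ _
  · rw [Q.card_pick]
    have h1 := Finset.card_sdiff_add_card_eq_card (Finset.subset_univ (Q.dbl Y))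
    have h2 := Finset.card_sdiff_add_card_eq_card (Finset.subset_univ Y)
    rw [Finset.card_univ] at h1 h2
    omega

/-- **the rainbow core** -/
theorem rainbow_core {k L : ℕ} (hk : 1 ≤ k) (hI : Fintype.card I = Fintype.card V + k)
    (hD : Dense (Fintype.card V / 2 + 1000000 * k) k L) :
    ∃ (J : Finset I) (σ : I → Bool), Core (J.image (Q.pick σ)) L := by
  classical
  by_contra hcon
  have hno : ∀ (J : Finset I) (σ : I → Bool), ¬ Core (J.image (Q.pick σ)) L :=
    fun J σ h => hcon ⟨J, σ, h⟩
  set n := Fintype.card V with hn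
  -- the centres of cherries
  set U : Finset V := Finset.univ.filter (fun v => ∃ i, v ∈ Q.e₁ i ∧ v ∈ Q.e₂ i) with hU
  have hex : ∀ v ∈ U, ∃ i x y, Q.e₁ i = s(v, x) ∧ Q.e₂ i = s(v, y) := by
    intro v hv
    obtain ⟨i, ⟨x, hx⟩, ⟨y, hy⟩⟩ := (Finset.mem_filter.1 hv).2
    exact ⟨i, x, y, hx, hy⟩
  have : Nonempty I := Fintype.card_pos_iff.1 (by omega)
  choose! κ a b hκ₁ hκ₂ using hex
  have hab : ∀ v ∈ U, a v ≠ b v := by
    intro v hv h
    exact Q.ne (κ v) (κ v) (by rw [hκ₁ v hv, hκ₂ v hv, h])
  have hκinj : ∀ v ∈ U, ∀ w ∈ U, κ v = κ w → v = w := by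
    intro v hv w hw h
    by_contra hne
    have h1 : s(v, a v) = s(w, a w) := by rw [← hκ₁ v hv, ← hκ₁ w hw, h]
    have h2 : s(v, b v) = s(w, b w) := by rw [← hκ₂ v hv, ← hκ₂ w hw, h]
    rw [Sym2.eq_iff] at h1 h2
    rcases h1 with h1 | h1
    · exact hne h1.1
    · rcases h2 with h2 | h2
      · exact hne h2.1
      · exact hab v hv (h1.2.trans h2.2.symm)
  set I0 : Finset I := Finset.univ \ U.image κ with hI0
  have hUκ : (U.image κ).card = U.card := Finset.card_image_of_injOn (fun v hv w hw h =>
    hκinj v hv w hw h)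
  have hUn : U.card ≤ n := Finset.card_le_univ _
  obtain ⟨z, hz⟩ : ∃ z, n = U.card + z := ⟨n - U.card, by omega⟩
  have hI0c : I0.card = k + z := by
    have h1 : I0.card + (U.image κ).card = Fintype.card I := by
      rw [hI0, Finset.card_sdiff_add_card_eq_card (Finset.subset_univ (U.image κ)),
        Finset.card_univ]
    rw [hUκ] at h1
    omega
  have hUc : (Finset.univ \ U).card = z := by
    have h1 := Finset.card_sdiff_add_card_eq_card (Finset.subset_univ U)
    rw [Finset.card_univ] at h1
    omega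
  -- the starting set
  set S : Finset V := U.filter (fun v => ∃ i ∈ I0, v ∈ Q.e₁ i) with hS
  have hSc : S.card ≤ 2 * (k + z) := by
    have h1 : S ⊆ I0.biUnion (fun i => U.filter (fun v => v ∈ Q.e₁ i)) := by
      intro v hv
      obtain ⟨h2, i, h3, h4⟩ := Finset.mem_filter.1 hv
      exact Finset.mem_biUnion.2 ⟨i, h3, Finset.mem_filter.2 ⟨h2, h4⟩⟩
    refine (Finset.card_le_card h1).trans (Finset.card_biUnion_le.trans ?_)
    refine (Finset.sum_le_card_nsmul _ _ 2 (fun i _ => card_mem_le U (Q.e₁ i))).trans ?_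
    rw [hI0c, smul_eq_mul]
    omega
  -- directed cycles are long
  have hl : ∀ X ⊆ U, X.Nonempty → (∀ v ∈ X, a v ∈ X ∨ b v ∈ X) → L + 1 ≤ X.card := by
    intro X hX hne hcl
    by_contra hlt
    push Not at hlt
    set σ : I → Bool := fun i => decide (¬ ∃ v ∈ X, κ v = i ∧ a v ∈ X) with hσ
    have hcard : ((X.image κ).image (Q.pick σ)).card = X.card := by
      rw [Q.card_pick]
      exact Finset.card_image_of_injOn (fun v hv w hw h => hκinj v (hX hv) w (hX hw) h)
    have hin : In X ((X.image κ).image (Q.pick σ)) := by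
      intro e he
      obtain ⟨i, hi, rfl⟩ := Finset.mem_image.1 he
      obtain ⟨v, hv, rfl⟩ := Finset.mem_image.1 hi
      refine ⟨Q.pick_nd σ _, ?_⟩
      intro w hw
      unfold PairSys.pick at hw
      by_cases h : ∃ u ∈ X, κ u = κ v ∧ a u ∈ X
      · have hs : σ (κ v) = false := by rw [hσ]; exact decide_eq_false (not_not.2 h)
        rw [hs, if_neg (by decide), hκ₁ v (hX hv), Sym2.mem_iff] at hw
        obtain ⟨u, hu, hu1, hu2⟩ := h
        have huv : u = v := hκinj u (hX hu) v (hX hv) hu1
        rcases hw with rfl | rfl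
        · exact hv
        · rw [← huv]
          exact hu2
      · have hs : σ (κ v) = true := by rw [hσ]; exact decide_eq_true h
        rw [hs, if_pos rfl, hκ₂ v (hX hv), Sym2.mem_iff] at hw
        rcases hw with rfl | rfl
        · exact hv
        · rcases hcl v hv with h1 | h1
          · exact absurd ⟨v, hv, rfl, h1⟩ h
          · exact h1
    refine hno _ σ ((core_of_card_le hin hne hcard.ge).mono (Finset.Subset.refl _) ?_)
    omega
  obtain ⟨W, hWU, hSW, hWcl, t, ht1, ht2⟩ := closure_lemma U a b hab S (Finset.filter_subset _ _)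
    (L + 1) hl
  set U2 := U.filter (fun v => a v ∉ U ∧ b v ∉ U) with hU2
  -- the closed set is large
  have hbig : n / 2 + 1000000 * k < W.card + z := by
    by_contra hle
    push Not at hle
    set σ : I → Bool := fun i => decide (∃ v ∈ W, κ v = i ∧ ¬ (a v ∈ W ∨ a v ∉ U)) with hσ
    have hdisj : Disjoint I0 (W.image κ) := by
      rw [Finset.disjoint_left]
      intro i h1 h2
      obtain ⟨v, hv, rfl⟩ := Finset.mem_image.1 h2
      exact (Finset.mem_sdiff.1 h1).2 (Finset.mem_image_of_mem κ (hWU hv))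
    have hWκ : (W.image κ).card = W.card := Finset.card_image_of_injOn (fun v hv w hw h =>
      hκinj v (hWU hv) w (hWU hw) h)
    refine hno (I0 ∪ W.image κ) σ (hD V (W ∪ (Finset.univ \ U)) _ ?_ ?_ ?_)
    · intro e he
      obtain ⟨i, hi, rfl⟩ := Finset.mem_image.1 he
      refine ⟨Q.pick_nd σ _, ?_⟩
      intro w hw
      rw [Finset.mem_union, Finset.mem_sdiff]
      unfold PairSys.pick at hw
      rcases Finset.mem_union.1 hi with hi | hi
      · have hs : σ i = false := by
          rw [hσ]
          refine decide_eq_false ?_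
          rintro ⟨v, hv, hvi, _⟩
          exact (Finset.mem_sdiff.1 hi).2 (by rw [← hvi]; exact Finset.mem_image_of_mem κ (hWU hv))
        rw [hs, if_neg (by decide)] at hw
        by_cases hwU : w ∈ U
        · exact Or.inl (hSW (Finset.mem_filter.2 ⟨hwU, i, hi, hw⟩))
        · exact Or.inr ⟨Finset.mem_univ _, hwU⟩
      · obtain ⟨v, hv, rfl⟩ := Finset.mem_image.1 hi
        by_cases h : ∃ u ∈ W, κ u = κ v ∧ ¬ (a u ∈ W ∨ a u ∉ U)
        · have hs : σ (κ v) = true := by rw [hσ]; exact decide_eq_true h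
          rw [hs, if_pos rfl, hκ₂ v (hWU hv), Sym2.mem_iff] at hw
          obtain ⟨u, hu, hu1, hu2⟩ := h
          have huv : u = v := hκinj u (hWU hu) v (hWU hv) hu1
          rw [huv] at hu2
          rcases hw with rfl | rfl
          · exact Or.inl hv
          · rcases (hWcl v hv).resolve_left hu2 with h1 | h1
            · exact Or.inl h1
            · exact Or.inr ⟨Finset.mem_univ _, h1⟩
        · have hs : σ (κ v) = false := by rw [hσ]; exact decide_eq_false h
          rw [hs, if_neg (by decide), hκ₁ v (hWU hv), Sym2.mem_iff] at hw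
          have h2 : a v ∈ W ∨ a v ∉ U := by
            by_contra h3
            exact h ⟨v, hv, rfl, h3⟩
          rcases hw with rfl | rfl
          · exact Or.inl hv
          · rcases h2 with h1 | h1
            · exact Or.inl h1
            · exact Or.inr ⟨Finset.mem_univ _, h1⟩
    · have := Finset.card_union_le W (Finset.univ \ U)
      omega
    · rw [Q.card_pick, Finset.card_union_of_disjoint hdisj, hWκ, hI0c]
      have := Finset.card_union_le W (Finset.univ \ U)
      omega
  -- many cherries lead outside twice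
  have hmany : 17 * z ≤ U2.card + 4 * k + 441 * (4096 * k) := by
    set P : Finset (I × V × V) := Finset.univ.filter (fun p => (p.2.1 ∈ Q.e₁ p.1 ∧
      p.2.2 ∈ Q.e₂ p.1) ∧ p.2.1 ∉ U ∧ p.2.2 ∉ U) with hP
    have hPc : P.card ≤ U2.card + 4 * (k + z) := by
      have h1 : P ⊆ U2.image (fun v => (κ v, a v, b v)) ∪ I0.biUnion (fun i =>
          ({i} : Finset I) ×ˢ ((Finset.univ.filter (fun v => v ∈ Q.e₁ i)) ×ˢ
            (Finset.univ.filter (fun v => v ∈ Q.e₂ i)))) := by
        rintro ⟨i, x, y⟩ hp
        obtain ⟨_, ⟨h1, h2⟩, h3, h4⟩ := Finset.mem_filter.1 hp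
        rw [Finset.mem_union]
        by_cases hi : i ∈ I0
        · right
          refine Finset.mem_biUnion.2 ⟨i, hi, ?_⟩
          rw [Finset.mem_product, Finset.mem_product, Finset.mem_singleton, Finset.mem_filter,
            Finset.mem_filter]
          exact ⟨rfl, ⟨Finset.mem_univ _, h1⟩, ⟨Finset.mem_univ _, h2⟩⟩
        · left
          have hi' : i ∈ U.image κ := by
            by_contra h5
            exact hi (Finset.mem_sdiff.2 ⟨Finset.mem_univ _, h5⟩)
          obtain ⟨v, hv, rfl⟩ := Finset.mem_image.1 hi'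
          simp only at h1 h2 h3 h4
          rw [hκ₁ v hv, Sym2.mem_iff] at h1
          rw [hκ₂ v hv, Sym2.mem_iff] at h2
          have e1 : x = a v := h1.resolve_left (fun h => h3 (by rw [h]; exact hv))
          have e2 : y = b v := h2.resolve_left (fun h => h4 (by rw [h]; exact hv))
          refine Finset.mem_image.2 ⟨v, Finset.mem_filter.2 ⟨hv, ?_, ?_⟩, by rw [e1, e2]⟩
          · rw [← e1]; exact h3
          · rw [← e2]; exact h4
      refine (Finset.card_le_card h1).trans ((Finset.card_union_le _ _).trans ?_)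
      refine Nat.add_le_add Finset.card_image_le ?_
      refine Finset.card_biUnion_le.trans ?_
      refine (Finset.sum_le_card_nsmul _ _ 4 (fun i _ => ?_)).trans ?_
      · rw [Finset.card_product, Finset.card_product, Finset.card_singleton, one_mul]
        exact (Nat.mul_le_mul (card_mem_le _ _) (card_mem_le _ _)).trans (by norm_num)
      · rw [hI0c, smul_eq_mul]
        omega
    obtain ⟨h, hh⟩ := exists_colouring P (fun p => p.2.1) (fun p => p.2.2) (by
      rintro ⟨i, x, y⟩ hp hxy
      obtain ⟨_, ⟨h1, h2⟩, h3, h4⟩ := Finset.mem_filter.1 hp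
      simp only at hxy h1 h2 h3 h4
      refine h3 (Finset.mem_filter.2 ⟨Finset.mem_univ _, i, h1, ?_⟩)
      rw [hxy]
      exact h2) 21 (by norm_num)
    -- the colour classes
    have hsum1 : ∑ j : Fin 21, ((Finset.univ \ U).filter (fun v => h v = j)).card = z := by
      rw [← hUc]
      exact (Finset.card_eq_sum_card_fiberwise (fun v _ => Finset.mem_univ (h v))).symm
    have hsum2 : ∑ j : Fin 21, (Q.dbl ((Finset.univ \ U).filter (fun v => h v = j))).card
        ≤ (P.filter (fun p => h p.2.1 = h p.2.2)).card := by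
      rw [Finset.card_eq_sum_card_fiberwise (f := fun p => h p.2.1) (t := Finset.univ)
        (fun v _ => Finset.mem_univ _)]
      refine Finset.sum_le_sum (fun j _ => ?_)
      have h1 : Q.dbl ((Finset.univ \ U).filter (fun v => h v = j)) ⊆
          ((P.filter (fun p => h p.2.1 = h p.2.2)).filter (fun p => h p.2.1 = j)).image
            Prod.fst := by
        intro i hi
        obtain ⟨_, ⟨x, hx, hx1⟩, ⟨y, hy, hy1⟩⟩ := Finset.mem_filter.1 hi
        rw [Finset.mem_filter, Finset.mem_sdiff] at hx hy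
        refine Finset.mem_image.2 ⟨(i, x, y), ?_, rfl⟩
        rw [Finset.mem_filter, Finset.mem_filter, hP, Finset.mem_filter]
        exact ⟨⟨⟨Finset.mem_univ _, ⟨hx1, hy1⟩, hx.1.2, hy.1.2⟩, hx.2.trans hy.2.symm⟩, hx.2⟩
      exact (Finset.card_le_card h1).trans Finset.card_image_le
    have hsum3 : ∑ j : Fin 21, (((Finset.univ \ U).filter (fun v => h v = j)).card + k) ≤
        ∑ j : Fin 21, ((Q.dbl ((Finset.univ \ U).filter (fun v => h v = j))).card + 4096 * k) :=
      Finset.sum_le_sum (fun j _ => (dbl_card Q hk hI hD hno _).le)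
    rw [Finset.sum_add_distrib, Finset.sum_add_distrib, hsum1] at hsum3
    simp only [Finset.sum_const, Finset.card_univ, Fintype.card_fin, smul_eq_mul] at hsum3
    omega
  -- the final count
  have hlow := dense_lower (by omega) hD
  have htk : t < 2 * (k + 1) := by
    by_contra hge
    push Not at hge
    have h1 : 2 * (k + 1) * (L + 1) ≤ t * (L + 1) := Nat.mul_le_mul_right _ hge
    have h2 : 2 * (k + 1) * (L + 1) = 2 * (L * (k + 1)) + 2 * (k + 1) := by ring
    omega
  omega

end Pool.Agent.H25.RG3
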