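import Pool.Agent.H25.RG3.Defs

set_option autoImplicit false

/-! # Subdividing part of the edges once -/

namespace Pool.Agent.H25.RG3.Prt

/-- the halves of the edges of `D`, each edge subdivided by a new vertex -/
def halves {V : Type*} [DecidableEq V] (W : Finset V) (D : Finset (Sym2 V)) :
    Finset (Sym2 (V ⊕ Sym2 V)) :=
  ((D ×ˢ W).filter (fun p => p.2 ∈ p.1)).image
    (fun p => s((Sum.inl p.2 : V ⊕ Sym2 V), (Sum.inr p.1 : V ⊕ Sym2 V)))

lemma half_inj {V : Type*} {v w : V} {e f : Sym2 V}
    (h : s((Sum.inl v : V ⊕ Sym2 V), (Sum.inr e : V ⊕ Sym2 V))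
      = s((Sum.inl w : V ⊕ Sym2 V), (Sum.inr f : V ⊕ Sym2 V))) : v = w ∧ e = f := by
  rw [Sym2.eq_iff] at h
  rcases h with ⟨h1, h2⟩ | ⟨h1, _⟩
  · exact ⟨Sum.inl.inj h1, Sum.inr.inj h2⟩
  · exact absurd h1 Sum.inl_ne_inr

lemma mem_halves {V : Type*} [DecidableEq V] {W : Finset V} {D : Finset (Sym2 V)}
    {x : Sym2 (V ⊕ Sym2 V)} :
    x ∈ halves W D ↔ ∃ e ∈ D, ∃ v ∈ W, v ∈ e ∧
      s((Sum.inl v : V ⊕ Sym2 V), (Sum.inr e : V ⊕ Sym2 V)) = x := by
  unfold halves
  rw [Finset.mem_image]
  constructor
  · rintro ⟨p, hp, hx⟩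
    rw [Finset.mem_filter, Finset.mem_product] at hp
    exact ⟨p.1, hp.1.1, p.2, hp.1.2, hp.2, hx⟩
  · rintro ⟨e, he, v, hv, hve, hx⟩
    refine ⟨(e, v), ?_, hx⟩
    rw [Finset.mem_filter, Finset.mem_product]
    exact ⟨⟨he, hv⟩, hve⟩

lemma card_ends {V : Type*} [DecidableEq V] {W : Finset V} {e : Sym2 V} (h1 : ¬ e.IsDiag)
    (h2 : ∀ v ∈ e, v ∈ W) : (W.filter (fun v => v ∈ e)).card = 2 := by
  induction e using Sym2.inductionOn with
  | hf a b =>
    have hab : a ≠ b := fun h => h1 (Sym2.mk_isDiag_iff.mpr h)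
    have : W.filter (fun v => v ∈ s(a, b)) = {a, b} := by
      ext v
      rw [Finset.mem_filter, Finset.mem_insert, Finset.mem_singleton, Sym2.mem_iff]
      constructor
      · exact fun h => h.2
      · intro h
        refine ⟨?_, h⟩
        apply h2
        rw [Sym2.mem_iff]
        exact h
    rw [this, Finset.card_pair hab]

lemma card_halves {V : Type*} [DecidableEq V] {W : Finset V} {D : Finset (Sym2 V)}
    (h : In W D) : (halves W D).card = 2 * D.card := by
  unfold halves
  rw [Finset.card_image_of_injective]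
  · rw [Finset.card_filter, Finset.sum_product]
    have : ∀ e ∈ D, ∑ v ∈ W, (if v ∈ e then 1 else 0) = 2 := by
      intro e he
      rw [← Finset.card_filter]
      exact card_ends (h e he).1 (h e he).2
    rw [Finset.sum_congr rfl this, Finset.sum_const, smul_eq_mul, mul_comm]
  · rintro ⟨e, v⟩ ⟨f, w⟩ hef
    have := half_inj hef
    simp only [Prod.mk.injEq]
    exact ⟨this.2, this.1⟩

lemma map_inl_ne_half {V : Type*} {v : V} {e f : Sym2 V} :
    Sym2.map (Sum.inl : V → V ⊕ Sym2 V) f
      ≠ s((Sum.inl v : V ⊕ Sym2 V), (Sum.inr e : V ⊕ Sym2 V)) := by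
  intro h
  have h1 : (Sum.inr e : V ⊕ Sym2 V) ∈ Sym2.map (Sum.inl : V → V ⊕ Sym2 V) f := by
    rw [h]
    exact Sym2.mem_mk_right _ _
  rw [Sym2.mem_map] at h1
  obtain ⟨y, _, hy⟩ := h1
  exact absurd hy Sum.inl_ne_inr

/-- subdividing the edges outside `S` once -/
theorem core_of_partsub {V : Type} [DecidableEq V] {W : Finset V} {E S : Finset (Sym2 V)}
    {n k M : ℕ} (hD : Dense n k M) (h : In W E) (hS : S ⊆ E) (hE : W.card + k ≤ E.card)
    (hn : W.card + E.card ≤ n + S.card) :
    ∃ C ⊆ E, C.Nonempty ∧ (∀ v : V, (C.filter (fun e => v ∈ e)).card ≠ 1) ∧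
      2 * C.card ≤ M + (C ∩ S).card := by
  classical
  have hinj : Function.Injective (Sym2.map (Sum.inl : V → V ⊕ Sym2 V)) :=
    Sym2.map.injective Sum.inl_injective
  have hIn : In W (E \ S) := fun e he => h e (Finset.sdiff_subset he)
  have hcS : (E \ S).card + S.card = E.card := Finset.card_sdiff_add_card_eq_card hS
  obtain ⟨C1, hC1, hne, hcard, hdeg⟩ := hD (V ⊕ Sym2 V) (W.disjSum (E \ S))
    (S.image (Sym2.map Sum.inl) ∪ halves W (E \ S)) (by
      intro x hx
      rw [Finset.mem_union] at hx
      rcases hx with hx | hx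
      · rw [Finset.mem_image] at hx
        obtain ⟨e, he, rfl⟩ := hx
        refine ⟨?_, ?_⟩
        · have h1 := (h e (hS he)).1
          induction e using Sym2.inductionOn with
          | hf a b =>
            rw [Sym2.map_mk, Sym2.mk_isDiag_iff]
            intro hab
            exact h1 (Sym2.mk_isDiag_iff.mpr (Sum.inl.inj hab))
        · intro v hv
          rw [Sym2.mem_map] at hv
          obtain ⟨a, ha, rfl⟩ := hv
          rw [Finset.inl_mem_disjSum]
          exact (h e (hS he)).2 a ha
      · rw [mem_halves] at hx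
        obtain ⟨e, he, v, hv, hve, rfl⟩ := hx
        refine ⟨?_, ?_⟩
        · rw [Sym2.mk_isDiag_iff]
          exact Sum.inl_ne_inr
        · intro w hw
          rw [Sym2.mem_iff] at hw
          rcases hw with rfl | rfl
          · rw [Finset.inl_mem_disjSum]
            exact hv
          · rw [Finset.inr_mem_disjSum]
            exact he) (by
      rw [Finset.card_disjSum]
      omega) (by
      rw [Finset.card_disjSum, Finset.card_union_of_disjoint, Finset.card_image_of_injective _ hinj,
        card_halves hIn]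
      · omega
      · rw [Finset.disjoint_left]
        intro x hx hx'
        rw [Finset.mem_image] at hx
        rw [mem_halves] at hx'
        obtain ⟨f, _, rfl⟩ := hx
        obtain ⟨e, _, v, _, _, hx'⟩ := hx'
        exact map_inl_ne_half hx'.symm)
  have hfull : ∀ e ∈ E \ S, ∀ v ∈ e,
      s((Sum.inl v : V ⊕ Sym2 V), (Sum.inr e : V ⊕ Sym2 V)) ∈ C1 → ∀ w ∈ e,
      s((Sum.inl w : V ⊕ Sym2 V), (Sum.inr e : V ⊕ Sym2 V)) ∈ C1 := by
    intro e he v hv hvC w hw
    by_contra hwC
    apply hdeg (Sum.inr e)
    rw [Finset.card_eq_one]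
    refine ⟨s((Sum.inl v : V ⊕ Sym2 V), (Sum.inr e : V ⊕ Sym2 V)), ?_⟩
    ext x
    rw [Finset.mem_filter, Finset.mem_singleton]
    constructor
    · rintro ⟨hxC, hxe⟩
      have hx := hC1 hxC
      rw [Finset.mem_union] at hx
      rcases hx with hx | hx
      · rw [Finset.mem_image] at hx
        obtain ⟨f, _, rfl⟩ := hx
        rw [Sym2.mem_map] at hxe
        obtain ⟨y, _, hy⟩ := hxe
        exact absurd hy Sum.inl_ne_inr
      · rw [mem_halves] at hx
        obtain ⟨f, hf, u, hu, huf, rfl⟩ := hx
        rw [Sym2.mem_iff] at hxe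
        rcases hxe with hxe | hxe
        · exact absurd hxe.symm Sum.inl_ne_inr
        · have hef : e = f := Sum.inr.inj hxe
          subst hef
          by_cases huv : u = v
          · rw [huv]
          · exfalso
            have huw : u ≠ w := by
              rintro rfl
              exact hwC hxC
            have hvw : v ≠ w := by
              rintro rfl
              exact hwC hvC
            have he2 : e = s(v, w) := (Sym2.mem_and_mem_iff hvw).mp ⟨hv, hw⟩
            rw [he2, Sym2.mem_iff] at huf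
            rcases huf with h1 | h1
            · exact huv h1
            · exact huw h1
    · rintro rfl
      exact ⟨hvC, Sym2.mem_mk_right _ _⟩
  set CS := S.filter (fun e => Sym2.map (Sum.inl : V → V ⊕ Sym2 V) e ∈ C1) with hCS
  set CT := (E \ S).filter (fun e => ∀ v ∈ e,
    s((Sum.inl v : V ⊕ Sym2 V), (Sum.inr e : V ⊕ Sym2 V)) ∈ C1) with hCT
  have hCSS : CS ⊆ S := Finset.filter_subset _ _
  have hCTE : CT ⊆ E \ S := Finset.filter_subset _ _
  have hdisj : Disjoint CS CT := by
    rw [Finset.disjoint_left]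
    intro e he he'
    exact (Finset.mem_sdiff.mp (hCTE he')).2 (hCSS he)
  have hcov : ∀ x ∈ C1, (∃ e ∈ CS, x = Sym2.map Sum.inl e) ∨ (∃ e ∈ CT, ∃ v ∈ e,
      x = s((Sum.inl v : V ⊕ Sym2 V), (Sum.inr e : V ⊕ Sym2 V))) := by
    intro x hxC
    have hx := hC1 hxC
    rw [Finset.mem_union] at hx
    rcases hx with hx | hx
    · rw [Finset.mem_image] at hx
      obtain ⟨e, he, rfl⟩ := hx
      left
      refine ⟨e, ?_, rfl⟩
      rw [hCS, Finset.mem_filter]
      exact ⟨he, hxC⟩
    · rw [mem_halves] at hx
      obtain ⟨e, he, v, hv, hve, rfl⟩ := hx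
      right
      refine ⟨e, ?_, v, hve, rfl⟩
      rw [hCT, Finset.mem_filter]
      exact ⟨he, hfull e he v hve hxC⟩
  refine ⟨CS ∪ CT, ?_, ?_, ?_, ?_⟩
  · exact Finset.union_subset (hCSS.trans hS) (hCTE.trans Finset.sdiff_subset)
  · obtain ⟨x, hx⟩ := hne
    rcases hcov x hx with ⟨e, he, _⟩ | ⟨e, he, _⟩
    · exact ⟨e, Finset.mem_union_left _ he⟩
    · exact ⟨e, Finset.mem_union_right _ he⟩
  · intro v
    have hd := hdeg (Sum.inl v)
    have hEq : ((CS ∪ CT).filter (fun e => v ∈ e)).card
        = (C1.filter (fun x => (Sum.inl v : V ⊕ Sym2 V) ∈ x)).card := by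
      apply Finset.card_bij (fun e _ => if e ∈ S then Sym2.map (Sum.inl : V → V ⊕ Sym2 V) e
        else s((Sum.inl v : V ⊕ Sym2 V), (Sum.inr e : V ⊕ Sym2 V)))
      · intro e he
        rw [Finset.mem_filter, Finset.mem_union] at he
        rw [Finset.mem_filter]
        obtain ⟨he1 | he1, he2⟩ := he
        · rw [if_pos (hCSS he1)]
          refine ⟨(Finset.mem_filter.mp he1).2, ?_⟩
          rw [Sym2.mem_map]
          exact ⟨v, he2, rfl⟩
        · rw [if_neg (Finset.mem_sdiff.mp (hCTE he1)).2]
          exact ⟨(Finset.mem_filter.mp he1).2 v he2, Sym2.mem_mk_left _ _⟩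
      · intro e he f hf hef
        by_cases heS : e ∈ S
        · by_cases hfS : f ∈ S
          · rw [if_pos heS, if_pos hfS] at hef
            exact hinj hef
          · rw [if_pos heS, if_neg hfS] at hef
            exact absurd hef map_inl_ne_half
        · by_cases hfS : f ∈ S
          · rw [if_neg heS, if_pos hfS] at hef
            exact absurd hef.symm map_inl_ne_half
          · rw [if_neg heS, if_neg hfS] at hef
            exact (half_inj hef).2
      · intro x hx
        rw [Finset.mem_filter] at hx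
        rcases hcov x hx.1 with ⟨e, he, rfl⟩ | ⟨e, he, w, hw, rfl⟩
        · refine ⟨e, ?_, ?_⟩
          · rw [Finset.mem_filter]
            refine ⟨Finset.mem_union_left _ he, ?_⟩
            have := hx.2
            rw [Sym2.mem_map] at this
            obtain ⟨y, hy, hyv⟩ := this
            rwa [Sum.inl.inj hyv] at hy
          · rw [if_pos (hCSS he)]
        · have hvw : v = w := by
            have := hx.2
            rw [Sym2.mem_iff] at this
            rcases this with h1 | h1
            · exact Sum.inl.inj h1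
            · exact absurd h1 Sum.inl_ne_inr
          subst hvw
          refine ⟨e, ?_, ?_⟩
          · rw [Finset.mem_filter]
            exact ⟨Finset.mem_union_right _ he, hw⟩
          · rw [if_neg (Finset.mem_sdiff.mp (hCTE he)).2]
    rw [hEq]
    exact hd
  · have hInT : In W CT := fun e he => hIn e (hCTE he)
    have hsub : CS.image (Sym2.map Sum.inl) ∪ halves W CT ⊆ C1 := by
      intro x hx
      rw [Finset.mem_union] at hx
      rcases hx with hx | hx
      · rw [Finset.mem_image] at hx
        obtain ⟨e, he, rfl⟩ := hx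
        exact (Finset.mem_filter.mp he).2
      · rw [mem_halves] at hx
        obtain ⟨e, he, v, hv, hve, rfl⟩ := hx
        exact (Finset.mem_filter.mp he).2 v hve
    have hc1 : CS.card + 2 * CT.card ≤ C1.card := by
      have := Finset.card_le_card hsub
      rw [Finset.card_union_of_disjoint, Finset.card_image_of_injective _ hinj,
        card_halves hInT] at this
      · exact this
      · rw [Finset.disjoint_left]
        intro x hx hx'
        rw [Finset.mem_image] at hx
        rw [mem_halves] at hx'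
        obtain ⟨f, _, rfl⟩ := hx
        obtain ⟨e, _, v, _, _, hx'⟩ := hx'
        exact map_inl_ne_half hx'.symm
    have hc2 : CS.card ≤ ((CS ∪ CT) ∩ S).card := by
      apply Finset.card_le_card
      intro e he
      rw [Finset.mem_inter]
      exact ⟨Finset.mem_union_left _ he, hCSS he⟩
    rw [Finset.card_union_of_disjoint hdisj]
    omega

end Pool.Agent.H25.RG3.Prt
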