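import Pool.Agent.H25.RG3.Defs

set_option autoImplicit false

/-! # A well spread set of edges

`W`, `E`: a graph of excess `k` with the least number of vertices among its subgraphs of excess
`≥ k`.  For `d ≥ 1` there is a set `S` of about `|E| / (2 d)` edges such that every set of edges
without vertices of degree one has at most a proportion `2 / d` of its edges in `S`. -/

namespace Pool.Agent.H25.RG3.Spr

variable {V : Type*} [DecidableEq V]

/-- the degree of `v` in `E` -/
def dg (E : Finset (Sym2 V)) (v : V) : ℕ := (E.filter (fun e => v ∈ e)).card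

/-- the darts of the edges of `E` -/
def dt (W : Finset V) (E : Finset (Sym2 V)) : Finset (V × V) :=
  (W ×ˢ W).filter (fun x => s(x.1, x.2) ∈ E)

lemma mem_dt {W : Finset V} {E : Finset (Sym2 V)} (h : In W E) {x : V × V} :
    x ∈ dt W E ↔ s(x.1, x.2) ∈ E := by
  unfold dt
  rw [Finset.mem_filter, Finset.mem_product]
  refine ⟨fun h1 => h1.2, fun h1 => ⟨⟨?_, ?_⟩, h1⟩⟩
  · exact (h _ h1).2 _ (Sym2.mem_mk_left _ _)
  · exact (h _ h1).2 _ (Sym2.mem_mk_right _ _)

lemma fiber_le (X : Finset (V × V)) (e : Sym2 V) :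
    (X.filter (fun x => s(x.1, x.2) = e)).card ≤ 2 := by
  induction e using Sym2.ind with
  | _ a b =>
    refine (Finset.card_le_card (t := {(a, b), (b, a)}) ?_).trans Finset.card_le_two
    rintro ⟨u, v⟩ hx
    rw [Finset.mem_filter] at hx
    simp only [Sym2.eq_iff] at hx
    rw [Finset.mem_insert, Finset.mem_singleton]
    rcases hx.2 with ⟨h1, h2⟩ | ⟨h1, h2⟩
    · left
      rw [h1, h2]
    · right
      rw [h1, h2]

lemma card_dt {W : Finset V} {E : Finset (Sym2 V)} (h : In W E) :
    (dt W E).card = 2 * E.card := by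
  rw [Finset.card_eq_sum_card_fiberwise (f := fun x : V × V => s(x.1, x.2)) (t := E)
    (fun x hx => (mem_dt h).1 hx)]
  rw [Finset.sum_const_nat (m := 2), mul_comm]
  intro e he
  induction e using Sym2.ind with
  | _ a b =>
    have hab : a ≠ b := fun hab => (h _ he).1 (by rw [hab]; exact Sym2.mk_isDiag_iff.2 rfl)
    have h1 : (dt W E).filter (fun x => s(x.1, x.2) = s(a, b)) = {(a, b), (b, a)} := by
      ext ⟨u, v⟩
      rw [Finset.mem_filter, mem_dt h, Finset.mem_insert, Finset.mem_singleton]
      simp only [Sym2.eq_iff, Prod.mk.injEq]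
      constructor
      · exact fun h1 => h1.2
      · intro h1
        refine ⟨?_, h1⟩
        have : s(u, v) = s(a, b) := Sym2.eq_iff.2 h1
        rw [this]
        exact he
    rw [h1, Finset.card_pair]
    intro h2
    exact hab (Prod.mk.inj h2).1

lemma card_tail {W : Finset V} {E : Finset (Sym2 V)} (h : In W E) (v : V) :
    ((dt W E).filter (fun x => x.1 = v)).card = dg E v := by
  unfold dg
  refine Finset.card_bij (fun x _ => s(x.1, x.2)) ?_ ?_ ?_
  · intro x hx
    rw [Finset.mem_filter, mem_dt h] at hx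
    rw [Finset.mem_filter]
    refine ⟨hx.1, ?_⟩
    rw [hx.2]
    exact Sym2.mem_mk_left _ _
  · rintro ⟨a, b⟩ hx ⟨c, d⟩ hy hxy
    rw [Finset.mem_filter] at hx hy
    have h1 : a = v := hx.2
    have h2 : c = v := hy.2
    subst h1
    subst h2
    have h3 : b = d := Sym2.congr_right.1 hxy
    rw [h3]
  · intro e he
    rw [Finset.mem_filter] at he
    obtain ⟨w, hw⟩ := Sym2.mem_iff_exists.1 he.2
    refine ⟨(v, w), ?_, hw.symm⟩
    rw [Finset.mem_filter, mem_dt h]
    refine ⟨?_, rfl⟩
    show s(v, w) ∈ E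
    rw [← hw]
    exact he.1

lemma sum_dg {W : Finset V} {E : Finset (Sym2 V)} (h : In W E) :
    ∑ v ∈ W, dg E v = 2 * E.card := by
  rw [← card_dt h, Finset.card_eq_sum_card_fiberwise (f := fun x : V × V => x.1) (t := W)]
  · exact Finset.sum_congr rfl fun v _ => (card_tail h v).symm
  · intro x hx
    unfold dt at hx
    rw [Finset.mem_coe, Finset.mem_filter, Finset.mem_product] at hx
    exact hx.1.1

/-- minimality of the number of vertices -/
def VMin (W : Finset V) (E : Finset (Sym2 V)) (k : ℕ) : Prop :=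
  ∀ W' ⊆ W, ∀ E' ⊆ E, In W' E' → W'.card + k ≤ E'.card → W.card ≤ W'.card

lemma two_le_dg {W : Finset V} {E : Finset (Sym2 V)} {k : ℕ} (h : In W E)
    (hE : E.card = W.card + k) (hmin : VMin W E k) {v : V} (hv : v ∈ W) : 2 ≤ dg E v := by
  by_contra hcon
  have h1 : (W.erase v).card + 1 = W.card := Finset.card_erase_add_one hv
  have h2 : dg E v + (E.filter (fun e => ¬ v ∈ e)).card = E.card :=
    Finset.card_filter_add_card_filter_not _
  have h3 := hmin (W.erase v) (Finset.erase_subset _ _) (E.filter (fun e => ¬ v ∈ e))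
    (Finset.filter_subset _ _) (fun e he => ?_) (by omega)
  · omega
  · rw [Finset.mem_filter] at he
    refine ⟨(h e he.1).1, fun u hu => Finset.mem_erase.2 ⟨?_, (h e he.1).2 u hu⟩⟩
    rintro rfl
    exact he.2 hu

lemma no_closed {W : Finset V} {E : Finset (Sym2 V)} {k : ℕ} (h : In W E)
    (hE : E.card = W.card + k) (hmin : VMin W E k) {A : Finset V} (hA : A ⊆ W) (hne : A.Nonempty)
    (h2 : ∀ v ∈ A, dg E v = 2) (hcl : ∀ v ∈ A, ∀ w, s(v, w) ∈ E → w ∈ A) : False := by
  classical
  set F := E.filter (fun e => ∃ v ∈ e, v ∈ A) with hF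
  have hIn : In A F := by
    intro e he
    rw [hF, Finset.mem_filter] at he
    refine ⟨(h e he.1).1, ?_⟩
    obtain ⟨v, hve, hvA⟩ := he.2
    obtain ⟨w, rfl⟩ := Sym2.mem_iff_exists.1 hve
    intro u hu
    rcases Sym2.mem_iff.1 hu with rfl | rfl
    · exact hvA
    · exact hcl v hvA _ he.1
  have hdg : ∀ v ∈ A, dg F v = 2 := by
    intro v hv
    rw [← h2 v hv]
    unfold dg
    congr 1
    ext e
    rw [hF]
    simp only [Finset.mem_filter]
    exact ⟨fun h1 => ⟨h1.1.1, h1.2⟩, fun h1 => ⟨⟨h1.1, v, h1.2, hv⟩, h1.2⟩⟩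
  have h3 : 2 * F.card = 2 * A.card := by
    rw [← sum_dg hIn, Finset.sum_congr rfl hdg, Finset.sum_const, smul_eq_mul, mul_comm]
  have h4 : F.card + (E.filter (fun e => ¬ ∃ v ∈ e, v ∈ A)).card = E.card :=
    Finset.card_filter_add_card_filter_not _
  have h5 : (W \ A).card + A.card = W.card := Finset.card_sdiff_add_card_eq_card hA
  have h6 := hmin (W \ A) Finset.sdiff_subset (E.filter (fun e => ¬ ∃ v ∈ e, v ∈ A))
    (Finset.filter_subset _ _) (fun e he => ?_) (by omega)
  · have := hne.card_pos
    omega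
  · rw [Finset.mem_filter] at he
    refine ⟨(h e he.1).1, fun u hu => Finset.mem_sdiff.2 ⟨(h e he.1).2 u hu, ?_⟩⟩
    intro huA
    exact he.2 ⟨u, hu, huA⟩

open scoped Classical in
/-- the dart before `x` -/
noncomputable def pre (E : Finset (Sym2 V)) (x : V × V) : V × V :=
  if h : ∃ u, s(x.1, u) ∈ E ∧ u ≠ x.2 then (h.choose, x.1) else x

section

variable {E : Finset (Sym2 V)}

lemma pre_spec {x : V × V} (hx : s(x.1, x.2) ∈ E) (h2 : dg E x.1 = 2) :
    s((pre E x).1, (pre E x).2) ∈ E ∧ (pre E x).2 = x.1 ∧ (pre E x).1 ≠ x.2 := by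
  have h : ∃ u, s(x.1, u) ∈ E ∧ u ≠ x.2 := by
    by_contra hcon
    push Not at hcon
    have h3 : E.filter (fun e => x.1 ∈ e) ⊆ {s(x.1, x.2)} := by
      intro e he
      rw [Finset.mem_filter] at he
      obtain ⟨w, rfl⟩ := Sym2.mem_iff_exists.1 he.2
      rw [hcon w he.1]
      exact Finset.mem_singleton_self _
    have h4 := Finset.card_le_card h3
    rw [Finset.card_singleton] at h4
    unfold dg at h2
    omega
  have h1 : pre E x = (h.choose, x.1) := by
    unfold pre
    rw [dif_pos h]
  rw [h1]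
  refine ⟨?_, rfl, h.choose_spec.2⟩
  rw [Sym2.eq_swap]
  exact h.choose_spec.1

lemma third {v a b c : V} (h2 : dg E v = 2) (ha : s(v, a) ∈ E) (hb : s(v, b) ∈ E)
    (hc : s(v, c) ∈ E) (hac : a ≠ c) (hbc : b ≠ c) : a = b := by
  by_contra hab
  have h3 : ({s(v, a), s(v, b), s(v, c)} : Finset (Sym2 V)) ⊆ E.filter (fun e => v ∈ e) := by
    intro e he
    rw [Finset.mem_insert, Finset.mem_insert, Finset.mem_singleton] at he
    rw [Finset.mem_filter]
    rcases he with rfl | rfl | rfl
    · exact ⟨ha, Sym2.mem_mk_left _ _⟩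
    · exact ⟨hb, Sym2.mem_mk_left _ _⟩
    · exact ⟨hc, Sym2.mem_mk_left _ _⟩
  have h4 := Finset.card_le_card h3
  rw [Finset.card_insert_of_notMem, Finset.card_pair] at h4
  · unfold dg at h2
    omega
  · exact fun h => hbc (Sym2.congr_right.1 h)
  · rw [Finset.mem_insert, Finset.mem_singleton]
    rintro (h | h)
    · exact hab (Sym2.congr_right.1 h)
    · exact hac (Sym2.congr_right.1 h)

lemma pre_inj {x y : V × V} (hx : s(x.1, x.2) ∈ E) (hy : s(y.1, y.2) ∈ E) (h2 : dg E x.1 = 2)
    (h2' : dg E y.1 = 2) (h : pre E x = pre E y) : x = y := by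
  obtain ⟨h3, h4, h5⟩ := pre_spec hx h2
  obtain ⟨h3', h4', h5'⟩ := pre_spec hy h2'
  have h6 : x.1 = y.1 := by rw [← h4, ← h4', h]
  have h7 : x.2 = y.2 := by
    refine third h2 hx (by rw [h6]; exact hy) (c := (pre E x).1) ?_ h5.symm ?_
    · rw [← h4, Sym2.eq_swap]
      exact h3
    · rw [h]
      exact h5'.symm
  exact Prod.ext h6 h7

/-- the first `i` tails have degree two -/
def Deep (E : Finset (Sym2 V)) (i : ℕ) (x : V × V) : Prop :=
  ∀ j < i, dg E ((pre E)^[j] x).1 = 2

lemma Deep.mono {i j : ℕ} {x : V × V} (h : Deep E i x) (hij : j ≤ i) : Deep E j x :=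
  fun m hm => h m (hm.trans_le hij)

lemma Deep.shift {i j : ℕ} {x : V × V} (h : Deep E (i + j) x) : Deep E i ((pre E)^[j] x) := by
  intro m hm
  rw [← Function.iterate_add_apply]
  exact h _ (by omega)

lemma iter_mem {x : V × V} (hx : s(x.1, x.2) ∈ E) {i : ℕ} (h : Deep E i x) :
    s(((pre E)^[i] x).1, ((pre E)^[i] x).2) ∈ E := by
  induction i with
  | zero => exact hx
  | succ i ih =>
    rw [Function.iterate_succ_apply']
    exact (pre_spec (ih (h.mono (Nat.le_succ i))) (h i (Nat.lt_succ_self i))).1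

lemma iter_inj {x y : V × V} (hx : s(x.1, x.2) ∈ E) (hy : s(y.1, y.2) ∈ E) {i : ℕ}
    (h : Deep E i x) (h' : Deep E i y) (he : (pre E)^[i] x = (pre E)^[i] y) : x = y := by
  induction i with
  | zero => exact he
  | succ i ih =>
    refine ih (h.mono (Nat.le_succ i)) (h'.mono (Nat.le_succ i)) ?_
    rw [Function.iterate_succ_apply', Function.iterate_succ_apply'] at he
    exact pre_inj (iter_mem hx (h.mono (Nat.le_succ i))) (iter_mem hy (h'.mono (Nat.le_succ i)))
      (h i (Nat.lt_succ_self i)) (h' i (Nat.lt_succ_self i)) he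

lemma iter_core {C : Finset (Sym2 V)} (hC : C ⊆ E)
    (hdeg : ∀ v : V, (C.filter (fun e => v ∈ e)).card ≠ 1) {x : V × V} (hx : s(x.1, x.2) ∈ C)
    {i : ℕ} (h : Deep E i x) : s(((pre E)^[i] x).1, ((pre E)^[i] x).2) ∈ C := by
  induction i with
  | zero => exact hx
  | succ i ih =>
    have h1 := ih (h.mono (Nat.le_succ i))
    set y := (pre E)^[i] x with hy
    have h2 : dg E y.1 = 2 := h i (Nat.lt_succ_self i)
    rw [Function.iterate_succ_apply', ← hy]
    obtain ⟨h3, h4, _⟩ := pre_spec (hC h1) h2
    have h5 : C.filter (fun e => y.1 ∈ e) = E.filter (fun e => y.1 ∈ e) := by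
      refine Finset.eq_of_subset_of_card_le (Finset.filter_subset_filter _ hC) ?_
      have h6 : 0 < (C.filter (fun e => y.1 ∈ e)).card :=
        Finset.card_pos.2 ⟨_, Finset.mem_filter.2 ⟨h1, Sym2.mem_mk_left _ _⟩⟩
      have h7 := hdeg y.1
      unfold dg at h2
      omega
    have h6 : s((pre E y).1, (pre E y).2) ∈ E.filter (fun e => y.1 ∈ e) := by
      rw [Finset.mem_filter]
      refine ⟨h3, ?_⟩
      rw [h4]
      exact Sym2.mem_mk_right _ _
    rw [← h5, Finset.mem_filter] at h6
    exact h6.1

end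

lemma no_period {W : Finset V} {E : Finset (Sym2 V)} {k : ℕ} (h : In W E)
    (hE : E.card = W.card + k) (hmin : VMin W E k) {x : V × V} (hx : s(x.1, x.2) ∈ E) {p : ℕ}
    (hp : 1 ≤ p) (hd : Deep E p x) : (pre E)^[p] x ≠ x := by
  intro hper
  refine no_closed h hE hmin (A := (Finset.range p).image (fun j => ((pre E)^[j] x).1)) ?_ ?_ ?_ ?_
  · intro v hv
    rw [Finset.mem_image] at hv
    obtain ⟨j, hj, rfl⟩ := hv
    exact (h _ (iter_mem hx (hd.mono (Finset.mem_range.1 hj).le))).2 _ (Sym2.mem_mk_left _ _)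
  · exact ⟨_, Finset.mem_image_of_mem _ (Finset.mem_range.2 hp)⟩
  · intro v hv
    rw [Finset.mem_image] at hv
    obtain ⟨j, hj, rfl⟩ := hv
    exact hd j (Finset.mem_range.1 hj)
  · intro v hv w hw
    rw [Finset.mem_image] at hv
    obtain ⟨j, hj, rfl⟩ := hv
    rw [Finset.mem_range] at hj
    have h1 := iter_mem hx (hd.mono hj.le)
    have h2 := hd j hj
    obtain ⟨h3, h4, h5⟩ := pre_spec h1 h2
    rw [← Function.iterate_succ_apply' (pre E) j x] at h3 h4 h5
    by_cases hw2 : w = ((pre E)^[j] x).2
    · -- the next tail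
      rcases Nat.eq_zero_or_pos j with hj0 | hj0
      · subst hj0
        have h6 : ((pre E)^[p - 1 + 1] x).2 = ((pre E)^[p - 1] x).1 := by
          rw [Function.iterate_succ_apply']
          exact (pre_spec (iter_mem hx (hd.mono (by omega))) (hd (p - 1) (by omega))).2.1
        rw [show p - 1 + 1 = p by omega, hper] at h6
        rw [hw2]
        show x.2 ∈ _
        rw [h6]
        exact Finset.mem_image.2 ⟨p - 1, Finset.mem_range.2 (by omega), rfl⟩
      · have h6 : ((pre E)^[j - 1 + 1] x).2 = ((pre E)^[j - 1] x).1 := by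
          rw [Function.iterate_succ_apply']
          exact (pre_spec (iter_mem hx (hd.mono (by omega))) (hd (j - 1) (by omega))).2.1
        rw [show j - 1 + 1 = j by omega] at h6
        rw [hw2, h6]
        exact Finset.mem_image.2 ⟨j - 1, Finset.mem_range.2 (by omega), rfl⟩
    · have h6 : w = ((pre E)^[j + 1] x).1 := by
        refine third h2 hw ?_ h1 hw2 h5
        rw [← h4, Sym2.eq_swap]
        exact h3
      rw [h6]
      rcases Nat.lt_or_ge (j + 1) p with h7 | h7
      · exact Finset.mem_image.2 ⟨j + 1, Finset.mem_range.2 h7, rfl⟩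
      · have h8 : j + 1 = p := by omega
        rw [h8, hper]
        exact Finset.mem_image.2 ⟨0, Finset.mem_range.2 (by omega), rfl⟩

/-- **a well spread set of edges** -/
theorem exists_spread {W : Finset V} {E : Finset (Sym2 V)} {k d : ℕ} (hd : 1 ≤ d) (h : In W E)
    (hE : E.card = W.card + k) (hmin : VMin W E k) :
    ∃ S ⊆ E, E.card ≤ d * (2 * S.card + 3 * k) ∧ ∀ C ⊆ E,
      (∀ v : V, (C.filter (fun e => v ∈ e)).card ≠ 1) → d * (C ∩ S).card ≤ 2 * C.card := by
  classical
  set D := dt W E with hD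
  have hmem : ∀ x, x ∈ D ↔ s(x.1, x.2) ∈ E := fun x => mem_dt h
  set DD := D.filter (fun x => Deep E d x) with hDD
  set P : Finset (V × V) → Prop := fun S => ∀ x ∈ S, ∀ y ∈ S, ∀ i < d, ∀ j < d,
    (pre E)^[i] x = (pre E)^[j] y → x = y with hP
  obtain ⟨S, hS, hSmax⟩ := Finset.exists_max_image (DD.powerset.filter P) Finset.card
    ⟨∅, Finset.mem_filter.2 ⟨Finset.empty_mem_powerset _, fun x hx => absurd hx (by simp)⟩⟩
  rw [Finset.mem_filter, Finset.mem_powerset] at hS
  obtain ⟨hSD, hSP⟩ := hS
  have hSE : ∀ x ∈ S, s(x.1, x.2) ∈ E := fun x hx =>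
    (hmem x).1 (Finset.filter_subset _ _ (hSD hx))
  have hSd : ∀ x ∈ S, Deep E d x := fun x hx => (Finset.mem_filter.1 (hSD hx)).2
  -- every deep dart is near `S`
  have h1 : ∀ x ∈ DD, ∃ y ∈ S, ∃ m < d, x = (pre E)^[m] y ∨ (pre E)^[m] x = y := by
    intro x hx
    have h2 : ∃ y ∈ S, ∃ i < d, ∃ j < d, (pre E)^[i] x = (pre E)^[j] y := by
      by_contra hcon
      push Not at hcon
      have hxS : x ∉ S := fun hxS => hcon x hxS 0 (by omega) 0 (by omega) rfl
      have h3 := hSmax (insert x S) (Finset.mem_filter.2 ⟨Finset.mem_powerset.2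
        (Finset.insert_subset hx hSD), ?_⟩)
      · rw [Finset.card_insert_of_notMem hxS] at h3
        omega
      · intro a ha b hb i hi j hj hab
        rw [Finset.mem_insert] at ha hb
        rcases ha with rfl | ha
        · rcases hb with rfl | hb
          · rfl
          · exact absurd hab (hcon b hb i hi j hj)
        · rcases hb with rfl | hb
          · exact absurd hab.symm (hcon a ha j hj i hi)
          · exact hSP a ha b hb i hi j hj hab
    obtain ⟨y, hy, i, hi, j, hj, hij⟩ := h2
    have hxE : s(x.1, x.2) ∈ E := (hmem x).1 (Finset.filter_subset _ _ hx)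
    have hxd : Deep E d x := (Finset.mem_filter.1 hx).2
    refine ⟨y, hy, ?_⟩
    rcases le_total i j with hle | hle
    · refine ⟨j - i, by omega, Or.inl ?_⟩
      have hyd : Deep E (i + (j - i)) y := (hSd y hy).mono (by omega)
      refine iter_inj hxE (iter_mem (hSE y hy) (hyd.mono (by omega))) (hxd.mono hi.le)
        hyd.shift ?_
      rw [hij, ← Function.iterate_add_apply]
      congr 1
      omega
    · refine ⟨i - j, by omega, Or.inr ?_⟩
      have hxd' : Deep E (j + (i - j)) x := hxd.mono (by omega)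
      refine iter_inj (iter_mem hxE (hxd'.mono (by omega))) (hSE y hy) hxd'.shift
        ((hSd y hy).mono hj.le) ?_
      rw [← hij, ← Function.iterate_add_apply]
      congr 1
      omega
  have h2 : DD.card ≤ S.card * (d * 2) := by
    have h3 : DD ⊆ S.biUnion (fun y => (Finset.range d).biUnion (fun m =>
        {(pre E)^[m] y} ∪ DD.filter (fun x => (pre E)^[m] x = y))) := by
      intro x hx
      obtain ⟨y, hy, m, hm, hxy⟩ := h1 x hx
      rw [Finset.mem_biUnion]
      refine ⟨y, hy, ?_⟩
      rw [Finset.mem_biUnion]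
      refine ⟨m, Finset.mem_range.2 hm, ?_⟩
      rw [Finset.mem_union, Finset.mem_singleton, Finset.mem_filter]
      rcases hxy with hxy | hxy
      · exact Or.inl hxy
      · exact Or.inr ⟨hx, hxy⟩
    refine (Finset.card_le_card h3).trans (Finset.card_biUnion_le_card_mul _ _ _ fun y hy => ?_)
    refine (Finset.card_biUnion_le_card_mul _ _ 2 fun m hm => ?_).trans (by rw [Finset.card_range])
    refine (Finset.card_union_le _ _).trans ?_
    rw [Finset.card_singleton]
    have h4 : (DD.filter (fun x => (pre E)^[m] x = y)).card ≤ 1 := by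
      rw [Finset.card_le_one]
      intro a ha b hb
      rw [Finset.mem_filter, hDD, Finset.mem_filter, hmem] at ha hb
      have hm' := (Finset.mem_range.1 hm).le
      exact iter_inj ha.1.1 hb.1.1 (ha.1.2.mono hm') (hb.1.2.mono hm') (ha.2.trans hb.2.symm)
    omega
  -- the darts that are not deep
  set D3 := D.filter (fun x => dg E x.1 ≠ 2) with hD3
  have h3 : D3.card ≤ 6 * k := by
    have h4 : D3.card = ∑ v ∈ W.filter (fun v => dg E v ≠ 2), dg E v := by
      rw [Finset.card_eq_sum_card_fiberwise (f := fun x : V × V => x.1)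
        (t := W.filter (fun v => dg E v ≠ 2))]
      · refine Finset.sum_congr rfl fun v hv => ?_
        rw [← card_tail h v]
        congr 1
        ext x
        rw [hD3, Finset.mem_filter, Finset.mem_filter, Finset.mem_filter]
        rw [Finset.mem_filter] at hv
        refine ⟨fun h5 => ⟨h5.1.1, h5.2⟩, fun h5 => ⟨⟨h5.1, ?_⟩, h5.2⟩⟩
        rw [h5.2]
        exact hv.2
      · intro x hx
        rw [Finset.mem_coe, hD3, Finset.mem_filter, hmem] at hx
        rw [Finset.mem_coe, Finset.mem_filter]
        exact ⟨(h _ hx.1).2 _ (Sym2.mem_mk_left _ _), hx.2⟩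
    have h5 := sum_dg h
    have h6 : ∑ v ∈ W, (dg E v - 2) + 2 * W.card = 2 * E.card := by
      rw [← h5, mul_comm 2, ← smul_eq_mul, ← Finset.sum_const, ← Finset.sum_add_distrib]
      refine Finset.sum_congr rfl fun v hv => ?_
      have := two_le_dg h hE hmin hv
      omega
    have h7 : ∑ v ∈ W.filter (fun v => dg E v ≠ 2), dg E v ≤ 3 * ∑ v ∈ W, (dg E v - 2) := by
      rw [Finset.mul_sum]
      refine (Finset.sum_le_sum (g := fun v => 3 * (dg E v - 2)) fun v hv => ?_).trans
        (Finset.sum_le_sum_of_subset (Finset.filter_subset _ _))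
      rw [Finset.mem_filter] at hv
      have := two_le_dg h hE hmin hv.1
      omega
    omega
  have h4 : (D.filter (fun x => ¬ Deep E d x)).card ≤ D3.card * d := by
    have h5 : D.filter (fun x => ¬ Deep E d x) ⊆ D3.biUnion (fun z => (Finset.range d).biUnion
        (fun m => D.filter (fun x => Deep E m x ∧ (pre E)^[m] x = z))) := by
      intro x hx
      rw [Finset.mem_filter] at hx
      have h6 : ∃ j, j < d ∧ dg E ((pre E)^[j] x).1 ≠ 2 := by
        have := hx.2
        unfold Deep at this
        push Not at this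
        exact this
      have h7 := Nat.find_spec h6
      set m := Nat.find h6 with hm
      have h8 : Deep E m x := by
        intro j hj
        by_contra hcon
        exact Nat.find_min h6 hj ⟨hj.trans h7.1, hcon⟩
      have hxE := (hmem x).1 hx.1
      rw [Finset.mem_biUnion]
      refine ⟨(pre E)^[m] x, ?_, ?_⟩
      · rw [hD3, Finset.mem_filter, hmem]
        exact ⟨iter_mem hxE h8, h7.2⟩
      · rw [Finset.mem_biUnion]
        refine ⟨m, Finset.mem_range.2 h7.1, ?_⟩
        rw [Finset.mem_filter]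
        exact ⟨hx.1, h8, rfl⟩
    refine (Finset.card_le_card h5).trans (Finset.card_biUnion_le_card_mul _ _ _ fun z hz => ?_)
    refine (Finset.card_biUnion_le_card_mul _ _ 1 fun m hm => ?_).trans
      (by rw [Finset.card_range, mul_one])
    rw [Finset.card_le_one]
    intro a ha b hb
    rw [Finset.mem_filter, hmem] at ha hb
    exact iter_inj ha.1 hb.1 ha.2.1 hb.2.1 (ha.2.2.trans hb.2.2.symm)
  have h5 : DD.card + (D.filter (fun x => ¬ Deep E d x)).card = 2 * E.card := by
    rw [← card_dt h]
    exact Finset.card_filter_add_card_filter_not _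
  set T := S.image (fun x => s(x.1, x.2)) with hT
  have h6 : S.card ≤ 2 * T.card := by
    refine Finset.card_le_mul_card_image S 2 fun e _ => ?_
    exact fiber_le S e
  refine ⟨T, ?_, ?_, ?_⟩
  · intro e he
    rw [hT, Finset.mem_image] at he
    obtain ⟨x, hx, rfl⟩ := he
    exact hSE x hx
  · have h7 : D3.card * d ≤ 6 * k * d := Nat.mul_le_mul_right _ h3
    have h8 : S.card * (d * 2) ≤ 2 * T.card * (d * 2) := Nat.mul_le_mul_right _ h6
    have h9 : 2 * E.card ≤ 2 * T.card * (d * 2) + 6 * k * d := by omega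
    nlinarith
  · intro C hC hdeg
    set X := S.filter (fun x => s(x.1, x.2) ∈ C) with hX
    have h7 : (C ∩ T).card ≤ X.card := by
      refine (Finset.card_le_card (t := X.image (fun x => s(x.1, x.2))) ?_).trans
        Finset.card_image_le
      intro e he
      rw [Finset.mem_inter, hT, Finset.mem_image] at he
      obtain ⟨he, x, hx, rfl⟩ := he
      exact Finset.mem_image.2 ⟨x, Finset.mem_filter.2 ⟨hx, he⟩, rfl⟩
    have hIn : In W C := fun e he => h e (hC he)
    have h8 : (X ×ˢ Finset.range d).card ≤ (dt W C).card := by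
      refine Finset.card_le_card_of_injOn (fun y => (pre E)^[y.2] y.1) ?_ ?_
      · intro y hy
        rw [Finset.mem_coe, Finset.mem_product, hX, Finset.mem_filter] at hy
        rw [Finset.mem_coe, mem_dt hIn]
        exact iter_core hC hdeg hy.1.2
          ((hSd _ hy.1.1).mono (Finset.mem_range.1 hy.2).le)
      · rintro ⟨x, i⟩ hx ⟨y, j⟩ hy hxy
        rw [Finset.mem_coe, Finset.mem_product, hX, Finset.mem_filter, Finset.mem_range] at hx hy
        have hxy' : (pre E)^[i] x = (pre E)^[j] y := hxy
        have h9 : x = y := hSP x hx.1.1 y hy.1.1 i hx.2 j hy.2 hxy'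
        subst h9
        have hxE := hSE x hx.1.1
        have hxd := hSd x hx.1.1
        have h10 : i = j := by
          rcases lt_trichotomy i j with hlt | heq | hlt
          · exfalso
            have hxd' : Deep E (i + (j - i)) x := hxd.mono (by have := hy.2; omega)
            refine no_period h hE hmin hxE (p := j - i) (by omega) (hxd'.mono (by omega)) ?_
            symm
            refine iter_inj hxE (iter_mem hxE (hxd'.mono (by omega))) (hxd.mono hx.2.le)
              hxd'.shift ?_
            rw [hxy', ← Function.iterate_add_apply]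
            congr 1
            omega
          · exact heq
          · exfalso
            have hxd' : Deep E (j + (i - j)) x := hxd.mono (by have := hx.2; omega)
            refine no_period h hE hmin hxE (p := i - j) (by omega) (hxd'.mono (by omega)) ?_
            symm
            refine iter_inj hxE (iter_mem hxE (hxd'.mono (by omega))) (hxd.mono hy.2.le)
              hxd'.shift ?_
            rw [← hxy', ← Function.iterate_add_apply]
            congr 1
            omega
        rw [h10]
    rw [Finset.card_product, Finset.card_range, card_dt hIn] at h8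
    calc d * (C ∩ T).card ≤ d * X.card := Nat.mul_le_mul_left _ h7
      _ = X.card * d := mul_comm _ _
      _ ≤ 2 * C.card := h8

end Pool.Agent.H25.RG3.Spr
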