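import Pool.Agent.H25.RG3.Spread
import Pool.Agent.H25.RG3.Part

set_option autoImplicit false

/-! # Halving the number of vertices halves the largest girth, up to `O(k / n)` -/

namespace Pool.Agent.H25.RG3

open Spr Prt

/-- a subgraph of excess `k` with the least number of vertices -/
lemma exists_vmin {V : Type*} [DecidableEq V] {W₀ : Finset V} {E₀ : Finset (Sym2 V)} {k : ℕ}
    (h : In W₀ E₀) (hE : W₀.card + k ≤ E₀.card) :
    ∃ W ⊆ W₀, ∃ E ⊆ E₀, In W E ∧ E.card = W.card + k ∧ VMin W E k := by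
  classical
  have h1 : ∃ m, ∃ W ⊆ W₀, ∃ E ⊆ E₀, In W E ∧ W.card + k ≤ E.card ∧ W.card = m :=
    ⟨_, W₀, subset_rfl, E₀, subset_rfl, h, hE, rfl⟩
  obtain ⟨W, hW, E, hEE, hIn, hc, hm⟩ := Nat.find_spec h1
  obtain ⟨F, hF, hFc⟩ := Finset.exists_subset_card_eq hc
  refine ⟨W, hW, F, hF.trans hEE, fun e he => hIn e (hF he), hFc, ?_⟩
  intro W' hW' E' hE' h2 h3
  rw [hm]
  exact Nat.find_min' h1 ⟨W', hW'.trans hW, E', (hE'.trans hF).trans hEE, h2, h3, rfl⟩

/-- **transfer** -/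
theorem transfer {n N k M d s : ℕ} (hD : Dense n k M) (h1 : 2 * N + k ≤ n + s)
    (h2 : 2 * (d * (2 * s + 3 * k)) ≤ n + k) (hd : 2 ≤ d) :
    Dense N k (d * M / (2 * (d - 1))) := by
  intro V inst W₀ E₀ hIn₀ hW₀ hE₀
  obtain ⟨W, hW, E, hE, hIn, hc, hmin⟩ := exists_vmin hIn₀ hE₀
  have hWN : W.card ≤ N := (Finset.card_le_card hW).trans hW₀
  have hd1 : 0 < 2 * (d - 1) := by omega
  have key : ∃ C ⊆ E, C.Nonempty ∧ (∀ v : V, (C.filter (fun e => v ∈ e)).card ≠ 1) ∧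
      C.card ≤ d * M / (2 * (d - 1)) := by
    obtain ⟨S, hS, hS1, hS2⟩ := exists_spread (by omega : 1 ≤ d) hIn hc hmin
    rcases Nat.lt_or_ge n (2 * W.card + k) with hcase | hcase
    · have hs : s ≤ S.card := by
        by_contra hcon
        rw [not_le] at hcon
        have h3 : d * (2 * S.card + 3 * k) < d * (2 * s + 3 * k) := by
          refine Nat.mul_lt_mul_of_pos_left ?_ (by omega)
          omega
        omega
      obtain ⟨C, hC, hne, hdeg, hCc⟩ := core_of_partsub hD hIn hS (by omega) (by omega)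
      refine ⟨C, hC, hne, hdeg, ?_⟩
      rw [Nat.le_div_iff_mul_le hd1]
      have h3 := hS2 C hC hdeg
      obtain ⟨e, rfl⟩ : ∃ e, d = e + 1 := ⟨d - 1, by omega⟩
      rw [Nat.add_sub_cancel]
      nlinarith
    · obtain ⟨C, hC, hne, hdeg, hCc⟩ := core_of_partsub (S := ∅) hD hIn (Finset.empty_subset _)
        (by omega) (by rw [Finset.card_empty]; omega)
      refine ⟨C, hC, hne, hdeg, ?_⟩
      rw [Nat.le_div_iff_mul_le hd1]
      rw [Finset.inter_empty, Finset.card_empty] at hCc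
      obtain ⟨e, rfl⟩ : ∃ e, d = e + 1 := ⟨d - 1, by omega⟩
      rw [Nat.add_sub_cancel]
      nlinarith
  obtain ⟨C, hC, hne, hdeg, hCc⟩ := key
  exact ⟨C, hC.trans hE, hne, hCc, hdeg⟩

end Pool.Agent.H25.RG3
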